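import Pool.Agent.Lib.MP_9b2b7a_co.DirTri

set_option autoImplicit false
open scoped Classical

namespace MP9b2b
namespace Fam

variable {ι : Type} (F : Fam ι)

/-- the angle (d,d') at p belongs to a bounded triangle -/
def TA (p : ℝ × ℝ) (d d' : ι × Bool) : Prop :=
  F.Su p d d' ∧ ∃ q q', F.Nx d p q ∧ F.Nx d' p q' ∧ F.Com q q'

noncomputable def Q4 : Finset (ℝ × ℝ) := F.V.filter (fun v => 4 ≤ (F.L v).card)

noncomputable def AN : Finset ((ℝ × ℝ) × (ι × Bool) × (ι × Bool)) :=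
  (F.V ×ˢ (F.S ×ˢ (Finset.univ : Finset Bool)) ×ˢ (F.S ×ˢ (Finset.univ : Finset Bool))).filter
    (fun t => F.Su t.1 t.2.1 t.2.2)

theorem su_isV {p : ℝ × ℝ} {d d' : ι × Bool} (h : F.Su p d d') (h2 : F.IsV p) : (p, d, d') ∈ F.AN := by
  obtain ⟨h3, h4⟩ := F.su_data h
  rw [mem_L] at h3 h4
  unfold AN
  rw [Finset.mem_filter]
  refine ⟨?_, h⟩
  simp [mem_V, h2, h3.1, h4.1]

noncomputable def Bad : Finset ((ℝ × ℝ) × (ι × Bool) × (ι × Bool)) :=
  F.AN.filter (fun t => ¬ F.TA t.1 t.2.1 t.2.2)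

theorem mem_AN {t : (ℝ × ℝ) × (ι × Bool) × (ι × Bool)} (h : t ∈ F.AN) :
    F.IsV t.1 ∧ F.Su t.1 t.2.1 t.2.2 := by
  unfold AN at h
  rw [Finset.mem_filter] at h
  refine ⟨?_, h.2⟩
  have := h.1
  simp only [Finset.mem_product, mem_V] at this
  exact this.1

theorem mem_Bad {t : (ℝ × ℝ) × (ι × Bool) × (ι × Bool)} (h : t ∈ F.Bad) :
    F.IsV t.1 ∧ F.Su t.1 t.2.1 t.2.2 ∧ ¬ F.TA t.1 t.2.1 t.2.2 := by
  unfold Bad at h
  rw [Finset.mem_filter] at h
  exact ⟨(F.mem_AN h.1).1, (F.mem_AN h.1).2, h.2⟩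

theorem two_V_le' : 2 * F.V.card + F.Q4.card ≤ F.RA.card + F.T2.card := by
  have h := F.card_RA_ge
  have h2 : 2 * F.V.card + F.Q4.card ≤ ∑ v ∈ F.V, ((F.L v).card - 1) + F.T2.card := by
    unfold T2 Q4
    rw [Finset.card_filter, Finset.card_filter, ← Finset.sum_add_distrib]
    have : 2 * F.V.card = ∑ v ∈ F.V, 2 := by rw [Finset.sum_const, smul_eq_mul, mul_comm]
    rw [this, ← Finset.sum_add_distrib]
    apply Finset.sum_le_sum
    intro v hv
    have := F.two_le_L ((F.mem_V v).1 hv)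
    split_ifs with h' h'' h'' <;> omega
  omega

theorem card_bad' : (F.RA \ F.GT).card + F.Q4.card ≤ F.T2.card + 4 * F.S.card := by
  have h1 := F.card_RA_sdiff
  have h2 := F.card_NE_add
  have h3 := F.two_V_le'
  have h4 : (F.RA \ F.NE).card + F.NE.card = F.RA.card :=
    Finset.card_sdiff_add_card_eq_card F.NE_sub_RA
  have h5 : (F.NE \ F.GT).card + F.GT.card = F.NE.card :=
    Finset.card_sdiff_add_card_eq_card F.GT_sub_NE
  have h6 : (F.RA \ F.GT).card + F.GT.card = F.RA.card :=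
    Finset.card_sdiff_add_card_eq_card (F.GT_sub_NE.trans F.NE_sub_RA)
  omega

theorem card_notPG' : ((F.V ×ˢ (Finset.univ : Finset Bool)) \ F.PG).card + 2 * F.Q4.card ≤
    2 * F.T2.card + 4 * F.S.card := by
  have h1 := F.card_RA_sdiff
  have h1' := F.card_NE_add
  have h2 := F.GT_le_PG
  have h3 := F.two_V_le'
  have h4 : (F.RA \ F.NE).card + F.NE.card = F.RA.card :=
    Finset.card_sdiff_add_card_eq_card F.NE_sub_RA
  have h5 : (F.NE \ F.GT).card + F.GT.card = F.NE.card :=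
    Finset.card_sdiff_add_card_eq_card F.GT_sub_NE
  have h6 : (F.RA \ F.GT).card + F.GT.card = F.RA.card :=
    Finset.card_sdiff_add_card_eq_card (F.GT_sub_NE.trans F.NE_sub_RA)
  have h7 : ((F.V ×ˢ (Finset.univ : Finset Bool)) \ F.PG).card + F.PG.card =
      (F.V ×ˢ (Finset.univ : Finset Bool)).card :=
    Finset.card_sdiff_add_card_eq_card (Finset.filter_subset _ _)
  have h8 : (F.V ×ˢ (Finset.univ : Finset Bool)).card = 2 * F.V.card := by
    rw [Finset.card_product, Finset.card_univ, Fintype.card_bool, mul_comm]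
  omega

theorem mx_Q4_card : F.mx.Q4.card = F.Q4.card := by
  have : F.mx.Q4 = F.Q4.image tx := by
    ext v
    unfold Q4
    rw [Finset.mem_filter, Finset.mem_image, mem_V]
    constructor
    · rintro ⟨h1, h2⟩
      refine ⟨tx v, ?_, tx_tx v⟩
      rw [Finset.mem_filter, mem_V]
      rw [← tx_tx v, isV_mx] at h1
      rw [← tx_tx v, L_mx] at h2
      exact ⟨h1, h2⟩
    · rintro ⟨w, hw, rfl⟩
      rw [Finset.mem_filter, mem_V] at hw
      rw [isV_mx, L_mx]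
      exact hw
  rw [this, Finset.card_image_of_injective]
  intro a b h
  rw [← tx_tx a, ← tx_tx b, h]

/-- MELCHIOR with all constants: the number of angles that do not belong to bounded triangles -/
theorem card_Bad : F.Bad.card + 4 * F.Q4.card ≤ 4 * F.T2.card + 12 * F.S.card := by
  have hsub : F.Bad ⊆ (F.Bad.filter (fun t => t.2.1.2 = true ∧ t.2.2.2 = true)) ∪
      (F.Bad.filter (fun t => t.2.1.2 = false ∧ t.2.2.2 = false)) ∪
      (F.Bad.filter (fun t => t.2.2.2 = !t.2.1.2)) := by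
    intro t ht
    rw [Finset.mem_union, Finset.mem_union, Finset.mem_filter, Finset.mem_filter, Finset.mem_filter]
    rcases h1 : t.2.1.2 <;> rcases h2 : t.2.2.2 <;> simp [ht]
  have c1 : (F.Bad.filter (fun t => t.2.1.2 = true ∧ t.2.2.2 = true)).card ≤ (F.RA \ F.GT).card := by
    apply Finset.card_le_card_of_injOn (fun t => (t.1, t.2.1.1, t.2.2.1))
    · rintro ⟨p, ⟨k, b⟩, k', b'⟩ ht
      rw [Finset.mem_coe, Finset.mem_filter] at ht
      obtain ⟨hB, h1, h2⟩ := ht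
      simp only at h1 h2
      subst h1 h2
      obtain ⟨hV, hs, hT⟩ := F.mem_Bad hB
      simp only at hV hs hT
      have hr : F.RAng p k k' := by
        rcases hs with ⟨-, h⟩ | ⟨h, -⟩
        · exact h
        · exact absurd h (by simp)
      rw [Finset.mem_coe, Finset.mem_sdiff, mem_RA]
      refine ⟨hr, fun hG => hT ⟨hs, ?_⟩⟩
      unfold GT at hG
      rw [Finset.mem_filter] at hG
      obtain ⟨-, u, w, hu, hw, hc⟩ := hG
      exact ⟨w, u, Or.inl ⟨rfl, hw⟩, Or.inl ⟨rfl, hu⟩, F.com_symm hc⟩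
    · rintro ⟨p, ⟨k, b⟩, k', b'⟩ ht ⟨p1, ⟨k1, b1⟩, k1', b1'⟩ ht1 he
      rw [Finset.mem_coe, Finset.mem_filter] at ht ht1
      simp only [Prod.mk.injEq] at he ht ht1 ⊢
      exact ⟨he.1, ⟨he.2.1, by rw [ht.2.1, ht1.2.1]⟩, he.2.2, by rw [ht.2.2, ht1.2.2]⟩
  have c2 : (F.Bad.filter (fun t => t.2.1.2 = false ∧ t.2.2.2 = false)).card ≤
      (F.mx.RA \ F.mx.GT).card := by
    apply Finset.card_le_card_of_injOn (fun t => (tx t.1, t.2.2.1, t.2.1.1))
    · rintro ⟨p, ⟨k, b⟩, k', b'⟩ ht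
      rw [Finset.mem_coe, Finset.mem_filter] at ht
      obtain ⟨hB, h1, h2⟩ := ht
      simp only at h1 h2
      subst h1 h2
      obtain ⟨hV, hs, hT⟩ := F.mem_Bad hB
      simp only at hV hs hT
      have hr : F.RAng p k k' := by
        rcases hs with ⟨-, h⟩ | ⟨h, -⟩
        · exact h
        · exact absurd h (by simp)
      rw [Finset.mem_coe, Finset.mem_sdiff, mem_RA]
      refine ⟨(F.rang_mx p k k').2 hr, fun hG => hT ⟨hs, ?_⟩⟩
      unfold GT at hG
      rw [Finset.mem_filter] at hG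
      obtain ⟨-, u, w, hu, hw, hc⟩ := hG
      simp only at hu hw
      refine ⟨tx u, tx w, Or.inr ⟨rfl, ?_⟩, Or.inr ⟨rfl, ?_⟩, ?_⟩
      · show F.Adj k (tx u) p
        rw [← adj_mx, tx_tx]; exact hu
      · show F.Adj k' (tx w) p
        rw [← adj_mx, tx_tx]; exact hw
      · rw [← com_mx, tx_tx, tx_tx]; exact hc
    · rintro ⟨p, ⟨k, b⟩, k', b'⟩ ht ⟨p1, ⟨k1, b1⟩, k1', b1'⟩ ht1 he
      rw [Finset.mem_coe, Finset.mem_filter] at ht ht1
      simp only [Prod.mk.injEq] at he ht ht1 ⊢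
      refine ⟨?_, ⟨he.2.2, by rw [ht.2.1, ht1.2.1]⟩, he.2.1, by rw [ht.2.2, ht1.2.2]⟩
      rw [← tx_tx p, ← tx_tx p1, he.1]
  have c3 : (F.Bad.filter (fun t => t.2.2.2 = !t.2.1.2)).card ≤
      ((F.V ×ˢ (Finset.univ : Finset Bool)) \ F.PG).card := by
    apply Finset.card_le_card_of_injOn (fun t => (t.1, t.2.1.2))
    · rintro ⟨p, ⟨k, b⟩, k', b'⟩ ht
      rw [Finset.mem_coe, Finset.mem_filter] at ht
      obtain ⟨hB, h1⟩ := ht
      simp only at h1
      subst h1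
      obtain ⟨hV, hs, hT⟩ := F.mem_Bad hB
      simp only at hV hs hT
      obtain ⟨hM, hm⟩ : F.MaxAt k p ∧ F.MinAt k' p := by
        rcases hs with ⟨h, -⟩ | ⟨-, h⟩
        · simp at h
        · exact h
      rw [Finset.mem_coe, Finset.mem_sdiff]
      refine ⟨by simp [mem_V, hV], fun hP => hT ⟨hs, ?_⟩⟩
      simp only at hP
      cases b
      · obtain ⟨s3, r1, e34, a1, a2, a3, a4⟩ := F.lower hP hm hM
        exact ⟨s3, r1, Or.inr ⟨rfl, a1⟩, Or.inl ⟨rfl, a2⟩, e34, (F.cs_on1 a3).1, (F.cs_on1 a3).2,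
          (F.cs_on2 a4).2⟩
      · obtain ⟨s1, r3, e61, a1, a2, a3, a4⟩ := F.upper hP hm hM
        exact ⟨r3, s1, Or.inl ⟨rfl, a2⟩, Or.inr ⟨rfl, a1⟩, e61, (F.cs_on2 a3).1, (F.cs_on1 a4).2,
          (F.cs_on2 a3).2⟩
    · rintro ⟨p, ⟨k, b⟩, k', b'⟩ ht ⟨p1, ⟨k1, b1⟩, k1', b1'⟩ ht1 he
      rw [Finset.mem_coe, Finset.mem_filter] at ht ht1
      simp only [Prod.mk.injEq] at he
      obtain ⟨rfl, rfl⟩ := he
      obtain ⟨hB, h1⟩ := ht
      obtain ⟨hB1, h1'⟩ := ht1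
      simp only at h1 h1'
      subst h1 h1'
      obtain ⟨hV, hs, hT⟩ := F.mem_Bad hB
      obtain ⟨hV1, hs1, hT1⟩ := F.mem_Bad hB1
      simp only at hs hs1
      obtain ⟨hM, hm⟩ : F.MaxAt k p ∧ F.MinAt k' p := by
        rcases hs with ⟨h, -⟩ | ⟨-, h⟩
        · simp at h
        · exact h
      obtain ⟨hM1, hm1⟩ : F.MaxAt k1 p ∧ F.MinAt k1' p := by
        rcases hs1 with ⟨h, -⟩ | ⟨-, h⟩
        · simp at h
        · exact h
      rw [F.maxAt_unique hM hM1, F.minAt_unique hm hm1]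
  have h1 := Finset.card_le_card hsub
  have h2 := Finset.card_union_le ((F.Bad.filter (fun t => t.2.1.2 = true ∧ t.2.2.2 = true)) ∪
      (F.Bad.filter (fun t => t.2.1.2 = false ∧ t.2.2.2 = false)))
      (F.Bad.filter (fun t => t.2.2.2 = !t.2.1.2))
  have h3 := Finset.card_union_le (F.Bad.filter (fun t => t.2.1.2 = true ∧ t.2.2.2 = true))
      (F.Bad.filter (fun t => t.2.1.2 = false ∧ t.2.2.2 = false))
  have d1 := F.card_bad'
  have d2 := F.mx.card_bad'
  have d3 := F.card_notPG'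
  have d4 := F.mx_T2_card
  have d5 := F.mx_Q4_card
  have d6 : F.mx.S.card = F.S.card := rfl
  omega

end Fam
end MP9b2b
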