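import Pool.Agent.Lib.MP_9b2b7a_co.Tri

set_option autoImplicit false
open scoped Classical

namespace MP9b2b
namespace Fam

variable {ι : Type} (F : Fam ι)

/-- right angles -/
noncomputable def RA : Finset ((ℝ × ℝ) × ι × ι) :=
  (F.V ×ˢ F.S ×ˢ F.S).filter (fun t => F.RAng t.1 t.2.1 t.2.2)

theorem mem_RA (t : (ℝ × ℝ) × ι × ι) : t ∈ F.RA ↔ F.RAng t.1 t.2.1 t.2.2 := by
  unfold RA
  rw [Finset.mem_filter, Finset.mem_product, Finset.mem_product, mem_V]
  constructor
  · exact fun h => h.2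
  · intro h
    refine ⟨⟨⟨t.2.1, h.1, t.2.2, h.2.1, ?_, h.2.2.1, h.2.2.2.1⟩, h.1, h.2.1⟩, h⟩
    intro he
    have := h.2.2.2.2.1
    rw [he] at this
    exact lt_irrefl _ this

/-- both next vertices exist -/
noncomputable def NE : Finset ((ℝ × ℝ) × ι × ι) :=
  F.RA.filter (fun t => (∃ u, F.Adj t.2.2 t.1 u) ∧ ∃ w, F.Adj t.2.1 t.1 w)

/-- triangles -/
noncomputable def GT : Finset ((ℝ × ℝ) × ι × ι) :=
  F.RA.filter (fun t => ∃ u w, F.Adj t.2.2 t.1 u ∧ F.Adj t.2.1 t.1 w ∧ F.Com u w)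

theorem GT_sub_NE : F.GT ⊆ F.NE := by
  intro t ht
  unfold GT at ht
  unfold NE
  rw [Finset.mem_filter] at ht ⊢
  obtain ⟨h, u, w, h1, h2, -⟩ := ht
  exact ⟨h, ⟨u, h1⟩, w, h2⟩

theorem NE_sub_RA : F.NE ⊆ F.RA := Finset.filter_subset _ _

/-- angles whose line has no next vertex -/
theorem card_RA_sdiff : (F.RA \ F.NE).card ≤ 2 * F.S.card := by
  have h1 : ((F.RA.filter (fun t => ¬ ∃ u, F.Adj t.2.2 t.1 u))).card ≤ F.S.card := by
    apply Finset.card_le_card_of_injOn (fun t => t.2.2)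
    · intro t ht
      simp only [Finset.coe_filter, Set.mem_ofPred_eq, mem_RA] at ht
      exact ht.1.2.1
    · intro t ht t' ht' he
      simp only [Finset.coe_filter, Set.mem_ofPred_eq, mem_RA] at ht ht' he
      obtain ⟨v, k, k'⟩ := t
      obtain ⟨v1, k1, k1'⟩ := t'
      simp only at ht ht' he
      subst he
      have hv : F.IsV v := ⟨k, ht.1.1, k', ht.1.2.1, by rintro rfl; exact lt_irrefl _ ht.1.2.2.2.2.1, ht.1.2.2.1, ht.1.2.2.2.1⟩
      have hv1 : F.IsV v1 := ⟨k1, ht'.1.1, k', ht'.1.2.1, by rintro rfl; exact lt_irrefl _ ht'.1.2.2.2.2.1, ht'.1.2.2.1, ht'.1.2.2.2.1⟩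
      have hvv : v = v1 := by
        apply F.eq_of_on_fst ht.1.2.2.2.1 ht'.1.2.2.2.1
        rcases lt_trichotomy v.1 v1.1 with h | h | h
        · obtain ⟨q, hq, -⟩ := F.exists_next ht.1.2.1 ht.1.2.2.2.1 hv ht'.1.2.2.2.1 hv1 h
          exact absurd ⟨q, hq⟩ ht.2
        · exact h
        · obtain ⟨q, hq, -⟩ := F.exists_next ht.1.2.1 ht'.1.2.2.2.1 hv1 ht.1.2.2.2.1 hv h
          exact absurd ⟨q, hq⟩ ht'.2
      subst hvv
      have := F.rang_pred_unique ht.1 ht'.1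
      rw [this]
  have h2 : ((F.RA.filter (fun t => ¬ ∃ w, F.Adj t.2.1 t.1 w))).card ≤ F.S.card := by
    apply Finset.card_le_card_of_injOn (fun t => t.2.1)
    · intro t ht
      simp only [Finset.coe_filter, Set.mem_ofPred_eq, mem_RA] at ht
      exact ht.1.1
    · intro t ht t' ht' he
      simp only [Finset.coe_filter, Set.mem_ofPred_eq, mem_RA] at ht ht' he
      obtain ⟨v, k, k'⟩ := t
      obtain ⟨v1, k1, k1'⟩ := t'
      simp only at ht ht' he
      subst he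
      have hv : F.IsV v := ⟨k, ht.1.1, k', ht.1.2.1, by rintro rfl; exact lt_irrefl _ ht.1.2.2.2.2.1, ht.1.2.2.1, ht.1.2.2.2.1⟩
      have hv1 : F.IsV v1 := ⟨k, ht'.1.1, k1', ht'.1.2.1, by rintro rfl; exact lt_irrefl _ ht'.1.2.2.2.2.1, ht'.1.2.2.1, ht'.1.2.2.2.1⟩
      have hvv : v = v1 := by
        apply F.eq_of_on_fst ht.1.2.2.1 ht'.1.2.2.1
        rcases lt_trichotomy v.1 v1.1 with h | h | h
        · obtain ⟨q, hq, -⟩ := F.exists_next ht.1.1 ht.1.2.2.1 hv ht'.1.2.2.1 hv1 h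
          exact absurd ⟨q, hq⟩ ht.2
        · exact h
        · obtain ⟨q, hq, -⟩ := F.exists_next ht.1.1 ht'.1.2.2.1 hv1 ht.1.2.2.1 hv h
          exact absurd ⟨q, hq⟩ ht'.2
      subst hvv
      have := F.rang_succ_unique ht.1 ht'.1
      rw [this]
  have hsub : F.RA \ F.NE ⊆ (F.RA.filter (fun t => ¬ ∃ u, F.Adj t.2.2 t.1 u)) ∪
      (F.RA.filter (fun t => ¬ ∃ w, F.Adj t.2.1 t.1 w)) := by
    intro t ht
    rw [Finset.mem_sdiff] at ht
    unfold NE at ht
    rw [Finset.mem_filter] at ht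
    rw [Finset.mem_union, Finset.mem_filter, Finset.mem_filter]
    by_cases h : ∃ u, F.Adj t.2.2 t.1 u
    · right
      refine ⟨ht.1, fun hw => ht.2 ⟨ht.1, h, hw⟩⟩
    · left
      exact ⟨ht.1, h⟩
  calc (F.RA \ F.NE).card ≤ _ := Finset.card_le_card hsub
    _ ≤ _ := Finset.card_union_le _ _
    _ ≤ 2 * F.S.card := by omega

/-- the successor exists -/
theorem exists_succ {v : ℝ × ℝ} {k : ι} (hk : k ∈ F.L v) (hn : ¬ F.MaxAt k v) :
    ∃ k', F.RAng v k k' := by
  rw [mem_L] at hk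
  have hne : ((F.L v).filter (fun j => F.s k < F.s j)).Nonempty := by
    by_contra hc
    apply hn
    refine ⟨hk.1, hk.2, fun j hj hjv => ?_⟩
    by_contra hc'
    push Not at hc'
    apply hc
    exact ⟨j, by simp [mem_L, hj, hjv, hc']⟩
  obtain ⟨k', hk', hmin⟩ := Finset.exists_min_image _ F.s hne
  simp only [Finset.mem_filter, mem_L] at hk' hmin
  refine ⟨k', hk.1, hk'.1.1, hk.2, hk'.1.2, hk'.2, fun j hj hjv h => ?_⟩
  have := hmin j ⟨⟨hj, hjv⟩, h.1⟩
  linarith [h.2]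

/-- number of right angles -/
theorem card_RA_ge : ∑ v ∈ F.V, ((F.L v).card - 1) ≤ F.RA.card := by
  have h1 : F.RA.card = ∑ v ∈ F.V, (F.RA.filter (fun t => t.1 = v)).card := by
    apply Finset.card_eq_sum_card_fiberwise
    intro t ht
    have : t ∈ F.RA := ht
    unfold RA at this
    rw [Finset.mem_filter, Finset.mem_product] at this
    exact this.1.1
  rw [h1]
  apply Finset.sum_le_sum
  intro v hv
  rw [mem_V] at hv
  obtain ⟨M, hM⟩ := F.exists_maxAt hv
  have hML : M ∈ F.L v := by rw [mem_L]; exact ⟨hM.1, hM.2.1⟩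
  rw [← Finset.card_erase_of_mem hML]
  have hex : ∀ k ∈ (F.L v).erase M, ∃ k', F.RAng v k k' := by
    intro k hk
    rw [Finset.mem_erase] at hk
    exact F.exists_succ hk.2 (fun h => hk.1 (F.maxAt_unique h hM))
  apply Finset.card_le_card_of_injOn (fun k => if h : ∃ k', F.RAng v k k' then (v, k, h.choose) else (v, k, k))
  · intro k hk
    have h := hex k hk
    simp only [dif_pos h]
    simp only [Finset.coe_filter, Set.mem_ofPred_eq, mem_RA]
    exact ⟨h.choose_spec, trivial⟩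
  · intro k hk k1 hk1 he
    have h := hex k hk
    have h' := hex k1 hk1
    simp only [dif_pos h, dif_pos h'] at he
    exact (Prod.ext_iff.1 (Prod.ext_iff.1 he).2).1

noncomputable def T2 : Finset (ℝ × ℝ) := F.V.filter (fun v => (F.L v).card = 2)

theorem two_le_L {v : ℝ × ℝ} (hv : F.IsV v) : 2 ≤ (F.L v).card := by
  obtain ⟨i, hi, j, hj, hij, h1, h2⟩ := hv
  have : ({i, j} : Finset ι) ⊆ F.L v := by
    intro x hx
    rw [Finset.mem_insert, Finset.mem_singleton] at hx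
    rw [mem_L]
    rcases hx with rfl | rfl
    · exact ⟨hi, h1⟩
    · exact ⟨hj, h2⟩
  calc 2 = ({i, j} : Finset ι).card := (Finset.card_pair hij).symm
    _ ≤ _ := Finset.card_le_card this

theorem two_V_le : 2 * F.V.card ≤ F.RA.card + F.T2.card := by
  have h := F.card_RA_ge
  have h2 : 2 * F.V.card ≤ ∑ v ∈ F.V, ((F.L v).card - 1) + F.T2.card := by
    unfold T2
    rw [Finset.card_filter, ← Finset.sum_add_distrib]
    have : 2 * F.V.card = ∑ v ∈ F.V, 2 := by rw [Finset.sum_const, smul_eq_mul, mul_comm]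
    rw [this]
    apply Finset.sum_le_sum
    intro v hv
    have := F.two_le_L ((F.mem_V v).1 hv)
    split_ifs with h' <;> omega
  omega

end Fam
end MP9b2b
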