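import Pool.Agent.Lib.MP_9b2b7a_co.Ang

set_option autoImplicit false
open scoped Classical

namespace MP9b2b
namespace Fam

variable {ι : Type} (F : Fam ι)

theorem exists_pr {p : ℝ × ℝ} (hp : F.IsV p) {d : ι × Bool} (hd : d.1 ∈ F.L p) :
    ∃ d', F.Su p d' d := by
  obtain ⟨d', h⟩ := F.my.exists_su ((F.isV_my p).2 hp) (d := d) (by rw [L_my]; exact hd)
  exact ⟨d', F.su_my.1 h⟩

theorem su_cs {p : ℝ × ℝ} {d d' : ι × Bool} (h : F.Su p d d') : F.CS p d.1 d'.1 := by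
  rcases h with ⟨-, h⟩ | ⟨-, h1, h2⟩
  · exact Or.inl h
  · exact Or.inr ⟨h1, h2⟩

theorem two_lines {c : ℝ × ℝ} (hc : (F.L c).card = 2) :
    ∃ l1 l2, F.MinAt l1 c ∧ F.MaxAt l2 c ∧ F.RAng c l1 l2 ∧ ∀ j ∈ F.L c, j = l1 ∨ j = l2 := by
  obtain ⟨a, b, hab, hL⟩ := Finset.card_eq_two.1 hc
  have ha : a ∈ F.S ∧ F.On a c := by rw [← mem_L, hL]; simp
  have hb : b ∈ F.S ∧ F.On b c := by rw [← mem_L, hL]; simp
  have key : ∀ j, j ∈ F.S → F.On j c → j = a ∨ j = b := by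
    intro j hj hjc
    have : j ∈ F.L c := by rw [mem_L]; exact ⟨hj, hjc⟩
    rw [hL] at this
    simpa using this
  have hne : F.s a ≠ F.s b := fun h => hab (F.inj _ ha.1 _ hb.1 h)
  rcases lt_or_gt_of_ne hne with h | h
  · refine ⟨a, b, ⟨ha.1, ha.2, ?_⟩, ⟨hb.1, hb.2, ?_⟩, ⟨ha.1, hb.1, ha.2, hb.2, h, ?_⟩, ?_⟩
    · intro j hj hjc
      rcases key j hj hjc with rfl | rfl
      · exact le_refl _
      · exact h.le
    · intro j hj hjc
      rcases key j hj hjc with rfl | rfl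
      · exact h.le
      · exact le_refl _
    · rintro j hj hjc ⟨x, y⟩
      rcases key j hj hjc with rfl | rfl
      · exact lt_irrefl _ x
      · exact lt_irrefl _ y
    · intro j hj
      rw [mem_L] at hj
      exact key j hj.1 hj.2
  · refine ⟨b, a, ⟨hb.1, hb.2, ?_⟩, ⟨ha.1, ha.2, ?_⟩, ⟨hb.1, ha.1, hb.2, ha.2, h, ?_⟩, ?_⟩
    · intro j hj hjc
      rcases key j hj hjc with rfl | rfl
      · exact h.le
      · exact le_refl _
    · intro j hj hjc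
      rcases key j hj hjc with rfl | rfl
      · exact le_refl _
      · exact h.le
    · rintro j hj hjc ⟨x, y⟩
      rcases key j hj hjc with rfl | rfl
      · exact lt_irrefl _ y
      · exact lt_irrefl _ x
    · intro j hj
      rw [mem_L] at hj
      rcases key j hj.1 hj.2 with h | h
      · exact Or.inr h
      · exact Or.inl h

theorem cyc2 {p : ℝ × ℝ} (hp : (F.L p).card = 2) {x0 x1 x2 : ι × Bool} (h0 : F.Su p x0 x1)
    (h1 : F.Su p x1 x2) : x2 = op x0 := by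
  obtain ⟨l1, l2, m1, m2, r, key⟩ := F.two_lines hp
  have s1 : ∀ b, F.Su p (l1, b) (l2, b) := fun b => Or.inl ⟨rfl, r⟩
  have s2 : ∀ b, F.Su p (l2, b) (l1, !b) := fun b => Or.inr ⟨rfl, m2, m1⟩
  obtain ⟨x, b⟩ := x0
  have hx := (F.su_data h0).1
  rcases key x hx with rfl | rfl
  · have e1 := F.su_unique h0 (s1 b)
    subst e1
    exact F.su_unique h1 (s2 b)
  · have e1 := F.su_unique h0 (s2 b)
    subst e1
    exact F.su_unique h1 (s1 (!b))

theorem cyc3 {p : ℝ × ℝ} (hp : (F.L p).card = 3) {x0 x1 x2 x3 : ι × Bool} (h0 : F.Su p x0 x1)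
    (h1 : F.Su p x1 x2) (h2 : F.Su p x2 x3) : x3 = op x0 := by
  obtain ⟨l1, l2, l3, m1, m3, r1, r2⟩ := F.three_lines hp
  have s1 : ∀ b, F.Su p (l1, b) (l2, b) := fun b => Or.inl ⟨rfl, r1⟩
  have s2 : ∀ b, F.Su p (l2, b) (l3, b) := fun b => Or.inl ⟨rfl, r2⟩
  have s3 : ∀ b, F.Su p (l3, b) (l1, !b) := fun b => Or.inr ⟨rfl, m3, m1⟩
  have key : ∀ j ∈ F.L p, j = l1 ∨ j = l2 ∨ j = l3 := by
    intro j hj
    rw [mem_L] at hj
    by_contra hc
    push Not at hc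
    have a1 := m1.2.2 j hj.1 hj.2
    have a3 := m3.2.2 j hj.1 hj.2
    have n1 : F.s l1 < F.s j := lt_of_le_of_ne a1 (fun h => hc.1 (F.inj _ m1.1 _ hj.1 h).symm)
    have n3 : F.s j < F.s l3 := lt_of_le_of_ne a3 (fun h => hc.2.2 (F.inj _ hj.1 _ m3.1 h))
    have n2 : F.s j ≠ F.s l2 := fun h => hc.2.1 (F.inj _ hj.1 _ r1.2.1 h)
    rcases lt_or_gt_of_ne n2 with h | h
    · exact r1.2.2.2.2.2 j hj.1 hj.2 ⟨n1, h⟩
    · exact r2.2.2.2.2.2 j hj.1 hj.2 ⟨h, n3⟩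
  obtain ⟨x, b⟩ := x0
  have hx := (F.su_data h0).1
  rcases key x hx with rfl | rfl | rfl
  · have e1 := F.su_unique h0 (s1 b)
    subst e1
    have e2 := F.su_unique h1 (s2 b)
    subst e2
    exact F.su_unique h2 (s3 b)
  · have e1 := F.su_unique h0 (s2 b)
    subst e1
    have e2 := F.su_unique h1 (s3 b)
    subst e2
    exact F.su_unique h2 (s1 (!b))
  · have e1 := F.su_unique h0 (s3 b)
    subst e1
    have e2 := F.su_unique h1 (s1 (!b))
    subst e2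
    exact F.su_unique h2 (s2 (!b))

/-- closing the cyclic order at a triple point -/
theorem su3_close {p : ℝ × ℝ} (hp : (F.L p).card = 3) {x0 x1 x2 : ι × Bool} (h0 : F.Su p x0 x1)
    (h1 : F.Su p x1 x2) : F.Su p x2 (op x0) := by
  have hV : F.IsV p := by
    obtain ⟨i, hi, j, hj, hij⟩ := Finset.one_lt_card.1 (by rw [hp]; norm_num : 1 < (F.L p).card)
    rw [mem_L] at hi hj
    exact ⟨i, hi.1, j, hj.1, hij, hi.2, hj.2⟩
  obtain ⟨x3, h⟩ := F.exists_su hV (F.su_data h1).2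
  rw [F.cyc3 hp h0 h1 h] at h
  exact h

theorem nx_side {d : ι × Bool} {p q : ℝ × ℝ} (h : F.Nx d p q) :
    (d.2 = true → p.1 < q.1) ∧ (d.2 = false → q.1 < p.1) := by
  rcases h with ⟨a, b⟩ | ⟨a, b⟩
  · exact ⟨fun _ => b.2.2.2.2.2.1, fun h => by rw [a] at h; exact absurd h (by decide)⟩
  · exact ⟨fun h => by rw [a] at h; exact absurd h (by decide), fun _ => b.2.2.2.2.2.1⟩

theorem chain2 {d : ι × Bool} {a b c : ℝ × ℝ} (h1 : F.Nx d a b) (h2 : F.Nx d b c) : a ≠ c := by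
  rintro rfl
  have x1 := F.nx_side h1
  have x2 := F.nx_side h2
  rcases h : d.2 with _ | _
  · linarith [x1.2 h, x2.2 h]
  · linarith [x1.1 h, x2.1 h]

theorem chain3 {d : ι × Bool} {a b c e : ℝ × ℝ} (h1 : F.Nx d a b) (h2 : F.Nx d b c) (h3 : F.Nx d c e) :
    a ≠ e := by
  rintro rfl
  have x1 := F.nx_side h1
  have x2 := F.nx_side h2
  have x3 := F.nx_side h3
  rcases h : d.2 with _ | _
  · linarith [x1.2 h, x2.2 h, x3.2 h]
  · linarith [x1.1 h, x2.1 h, x3.1 h]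

theorem line_eq {i j : ι} {p q : ℝ × ℝ} (hi : i ∈ F.S) (hj : j ∈ F.S) (hpq : p ≠ q) (h1 : F.On i p)
    (h2 : F.On i q) (h3 : F.On j p) (h4 : F.On j q) : i = j := by
  by_contra h
  exact hpq (F.eq_of_on hi hj h h1 h3 h2 h4)

/-- all angles at c belong to bounded triangles -/
def AG (c : ℝ × ℝ) : Prop := ∀ d d', F.Su c d d' → F.TA c d d'

/-- propagation along an edge -/
theorem prop_succ {p q : ℝ × ℝ} {d d' : ι × Bool} (hq : F.AG q) (hn : F.Nx d p q) (hs : F.Su p d d') :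
    F.TA p d d' := by
  obtain ⟨n1, n2, n3, n4, n5, n6⟩ := F.nx_data hn
  obtain ⟨e, he⟩ := F.exists_pr n5 (d := op d) (by rw [mem_L]; exact ⟨n1, n3⟩)
  obtain ⟨-, z, p', hz, hp', hc⟩ := hq e (op d) he
  have e1 : p' = p := F.nx_unique hp' (F.nx_op.2 hn)
  subst e1
  obtain ⟨g, g1, g2, g3⟩ := F.triD he hz hp' hc
  rw [op_op] at g3
  have e2 := F.su_unique hs g3
  subst e2
  have hz' := F.nx_data hz
  exact ⟨hs, q, z, hn, F.nx_op.2 g1, e.1, hz'.1, hz'.2.1, hz'.2.2.1⟩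

theorem prop_pred {p q : ℝ × ℝ} {d d' : ι × Bool} (hq : F.AG q) (hn : F.Nx d p q) (hs : F.Su p d' d) :
    F.TA p d' d := by
  obtain ⟨n1, n2, n3, n4, n5, n6⟩ := F.nx_data hn
  obtain ⟨f, hf⟩ := F.exists_su n5 (d := op d) (by rw [mem_L]; exact ⟨n1, n3⟩)
  obtain ⟨-, p', z, hp', hz, hc⟩ := hq (op d) f hf
  have e1 : p' = p := F.nx_unique hp' (F.nx_op.2 hn)
  subst e1
  obtain ⟨g, g1, g2, g3⟩ := F.triD hf hp' hz hc
  rw [op_op] at g2
  have e2 := F.su_inj hs g2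
  subst e2
  have hz' := F.nx_data hz
  exact ⟨hs, z, q, g1, hn, f.1, hz'.1, hz'.2.2.1, hz'.2.1⟩

end Fam
end MP9b2b
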