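import Pool.Agent.Lib.MP_9b2b7a_co.Exi

set_option autoImplicit false
open scoped Classical

namespace MP9b2b
namespace Fam

variable {ι : Type} (F : Fam ι)

/-- the next vertex in direction d = (line, side); side true = to the right -/
def Nx (d : ι × Bool) (p q : ℝ × ℝ) : Prop :=
  (d.2 = true ∧ F.Adj d.1 p q) ∨ (d.2 = false ∧ F.Adj d.1 q p)

def op (d : ι × Bool) : ι × Bool := (d.1, !d.2)

@[simp] theorem op_op (d : ι × Bool) : op (op d) = d := by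
  obtain ⟨l, b⟩ := d
  simp [op]

/-- counterclockwise successor of a direction at p -/
def Su (p : ℝ × ℝ) (d d' : ι × Bool) : Prop :=
  (d.2 = d'.2 ∧ F.RAng p d.1 d'.1) ∨ (d'.2 = !d.2 ∧ F.MaxAt d.1 p ∧ F.MinAt d'.1 p)

theorem nx_op {d : ι × Bool} {p q : ℝ × ℝ} : F.Nx (op d) q p ↔ F.Nx d p q := by
  obtain ⟨l, b⟩ := d
  unfold Nx op
  cases b <;> simp

theorem nx_unique {d : ι × Bool} {p q q' : ℝ × ℝ} (h : F.Nx d p q) (h' : F.Nx d p q') : q = q' := by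
  rcases h with ⟨a, b⟩ | ⟨a, b⟩ <;> rcases h' with ⟨a', b'⟩ | ⟨a', b'⟩
  · exact F.adj_next_unique b b'
  · rw [a] at a'; exact absurd a' (by decide)
  · rw [a] at a'; exact absurd a' (by decide)
  · exact F.adj_prev_unique b b'

theorem nx_inj {d : ι × Bool} {p p' q : ℝ × ℝ} (h : F.Nx d p q) (h' : F.Nx d p' q) : p = p' :=
  F.nx_unique (F.nx_op.2 h) (F.nx_op.2 h')

theorem nx_data {d : ι × Bool} {p q : ℝ × ℝ} (h : F.Nx d p q) :
    d.1 ∈ F.S ∧ F.On d.1 p ∧ F.On d.1 q ∧ F.IsV p ∧ F.IsV q ∧ p ≠ q := by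
  rcases h with ⟨a, b⟩ | ⟨a, b⟩
  · refine ⟨b.1, b.2.1, b.2.2.1, b.2.2.2.1, b.2.2.2.2.1, ?_⟩
    rintro rfl
    exact lt_irrefl _ b.2.2.2.2.2.1
  · refine ⟨b.1, b.2.2.1, b.2.1, b.2.2.2.2.1, b.2.2.2.1, ?_⟩
    rintro rfl
    exact lt_irrefl _ b.2.2.2.2.2.1

theorem su_op {p : ℝ × ℝ} {d d' : ι × Bool} : F.Su p (op d) (op d') ↔ F.Su p d d' := by
  obtain ⟨l, b⟩ := d
  obtain ⟨l', b'⟩ := d'
  unfold Su op
  cases b <;> cases b' <;> simp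

theorem minmax_ne {p : ℝ × ℝ} {a : ι} (hV : F.IsV p) (h1 : F.MinAt a p) (h2 : F.MaxAt a p) : False := by
  obtain ⟨i, hi, j, hj, hij, o1, o2⟩ := hV
  apply hij
  have a1 := h1.2.2 i hi o1
  have a2 := h1.2.2 j hj o2
  have b1 := h2.2.2 i hi o1
  have b2 := h2.2.2 j hj o2
  exact F.inj _ hi _ hj (by linarith)

theorem rang_isV {p : ℝ × ℝ} {a b : ι} (h : F.RAng p a b) : F.IsV p :=
  ⟨a, h.1, b, h.2.1, by rintro rfl; exact lt_irrefl _ h.2.2.2.2.1, h.2.2.1, h.2.2.2.1⟩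

theorem su_unique {p : ℝ × ℝ} {d d' d'' : ι × Bool} (h : F.Su p d d') (h' : F.Su p d d'') : d' = d'' := by
  obtain ⟨l, b⟩ := d
  obtain ⟨l', b'⟩ := d'
  obtain ⟨l'', b''⟩ := d''
  rcases h with ⟨a, r⟩ | ⟨a, r1, r2⟩ <;> rcases h' with ⟨a', r'⟩ | ⟨a', r1', r2'⟩
  · have := F.rang_succ_unique r r'
    simp only at a a' this
    rw [← this, ← a, ← a']
  · exfalso
    have h1 := r1'.2.2 _ r.2.1 r.2.2.2.1
    have h2 := r.2.2.2.2.1
    linarith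
  · exfalso
    have h1 := r1.2.2 _ r'.2.1 r'.2.2.2.1
    have h2 := r'.2.2.2.2.1
    linarith
  · have := F.minAt_unique r2 r2'
    simp only at a a' this
    rw [← this, a, a']

theorem su_inj {p : ℝ × ℝ} {d d' d'' : ι × Bool} (h : F.Su p d d'') (h' : F.Su p d' d'') : d = d' := by
  obtain ⟨l, b⟩ := d
  obtain ⟨l', b'⟩ := d'
  obtain ⟨l'', b''⟩ := d''
  rcases h with ⟨a, r⟩ | ⟨a, r1, r2⟩ <;> rcases h' with ⟨a', r'⟩ | ⟨a', r1', r2'⟩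
  · have := F.rang_pred_unique r r'
    simp only at a a' this
    rw [← this, a, ← a']
  · exfalso
    have h1 := r2'.2.2 _ r.1 r.2.2.1
    have h2 := r.2.2.2.2.1
    linarith
  · exfalso
    have h1 := r2.2.2 _ r'.1 r'.2.2.1
    have h2 := r'.2.2.2.2.1
    linarith
  · have := F.maxAt_unique r1 r1'
    simp only at a a' this
    rw [← this]
    congr 1
    cases b <;> cases b' <;> simp_all

theorem su_data {p : ℝ × ℝ} {d d' : ι × Bool} (h : F.Su p d d') :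
    d.1 ∈ F.L p ∧ d'.1 ∈ F.L p := by
  rw [mem_L, mem_L]
  rcases h with ⟨a, r⟩ | ⟨a, r1, r2⟩
  · exact ⟨⟨r.1, r.2.2.1⟩, r.2.1, r.2.2.2.1⟩
  · exact ⟨⟨r1.1, r1.2.1⟩, r2.1, r2.2.1⟩

theorem exists_su {p : ℝ × ℝ} (hp : F.IsV p) {d : ι × Bool} (hd : d.1 ∈ F.L p) :
    ∃ d', F.Su p d d' := by
  by_cases h : F.MaxAt d.1 p
  · obtain ⟨k, hk⟩ := F.exists_minAt hp
    exact ⟨(k, !d.2), Or.inr ⟨rfl, h, hk⟩⟩
  · obtain ⟨k, hk⟩ := F.exists_succ hd h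
    exact ⟨(k, d.2), Or.inl ⟨rfl, hk⟩⟩

/-- mirror x -> -x -/
theorem nx_mx {d : ι × Bool} {p q : ℝ × ℝ} : F.mx.Nx (op d) (tx p) (tx q) ↔ F.Nx d p q := by
  obtain ⟨l, b⟩ := d
  unfold Nx op
  cases b <;> simp [adj_mx]

theorem su_mx {d d' : ι × Bool} {p : ℝ × ℝ} : F.mx.Su (tx p) (op d') (op d) ↔ F.Su p d d' := by
  obtain ⟨l, b⟩ := d
  obtain ⟨l', b'⟩ := d'
  unfold Su op
  simp only [rang_mx, minAt_mx, maxAt_mx]
  cases b <;> cases b' <;> simp [and_comm]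

theorem nx_my {d : ι × Bool} {p q : ℝ × ℝ} : F.my.Nx d (ty p) (ty q) ↔ F.Nx d p q := by
  unfold Nx
  simp only [adj_my]

theorem su_my {d d' : ι × Bool} {p : ℝ × ℝ} : F.my.Su (ty p) d' d ↔ F.Su p d d' := by
  obtain ⟨l, b⟩ := d
  obtain ⟨l', b'⟩ := d'
  unfold Su
  simp only [rang_my, minAt_my, maxAt_my]
  cases b <;> cases b' <;> simp [and_comm]

end Fam
end MP9b2b
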