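import Pool.Agent.Lib.MP_9b2b7a_co.Dir

set_option autoImplicit false
open scoped Classical

namespace MP9b2b
namespace Fam

variable {ι : Type} (F : Fam ι)

theorem other_line {m : ι} {r : ℝ × ℝ} (h : F.IsV r) : ∃ j ∈ F.S, F.On j r ∧ j ≠ m := by
  obtain ⟨i, hi, i', hi', hii', h1, h2⟩ := h
  by_cases h : i = m
  · exact ⟨i', hi', h2, fun h' => hii' (h.trans h'.symm)⟩
  · exact ⟨i, hi, h1, h⟩

theorem right_adj {v u w : ℝ × ℝ} {k k' m : ι} (hr : F.RAng v k k') (hu : F.Adj k' v u) (hw : F.Adj k v w)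
    (hm : m ∈ F.S) (hmu : F.On m u) (hmw : F.On m w) (hlt : u.1 < w.1) : F.Adj m u w := by
  obtain ⟨t1, t2, t3⟩ := F.tri_lt hr hu hw hm hmu hmw hlt
  have hvu : v.1 < u.1 := hu.2.2.2.2.2.1
  have hvw : v.1 < w.1 := hw.2.2.2.2.2.1
  refine ⟨hm, hmu, hmw, hu.2.2.2.2.1, hw.2.2.2.2.1, hlt, ?_⟩
  rintro r hV hmr ⟨hr1, hr2⟩
  obtain ⟨j, hj, hjr, hjm⟩ := F.other_line (m := m) hV
  have emu : F.f m u.1 = F.f k' u.1 := by
    rw [(F.on_iff m u).1 hmu, (F.on_iff k' u).1 hu.2.2.1]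
  have emw : F.f m w.1 = F.f k w.1 := by
    rw [(F.on_iff m w).1 hmw, (F.on_iff k w).1 hw.2.2.1]
  have ejr : F.f j r.1 = F.f m r.1 := by
    rw [(F.on_iff j r).1 hjr, (F.on_iff m r).1 hmr]
  have ekm : F.f k r.1 < F.f m r.1 := F.lt_left hmw hw.2.2.1 hr2 t3.2.2.2.2.1
  have e8 : F.f k v.1 = F.f k' v.1 := by
    rw [(F.on_iff k v).1 hr.2.2.1, (F.on_iff k' v).1 hr.2.2.2.1]
  have hne : F.s m ≠ F.s j := fun h => hjm (F.inj _ hj _ hm h.symm)
  rcases lt_or_gt_of_ne hne with h | h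
  · have g1 : F.f j u.1 < F.f m u.1 := F.lt_left hmr hjr hr1 h
    have g2 : F.f j v.1 ≤ F.f k' v.1 :=
      F.adj_lt' hu hj (x1 := v.1) (x2 := u.1) (le_refl _) hvu (le_refl _) (by rw [← emu]; exact g1)
    have g3 : F.f k v.1 ≤ F.f j v.1 :=
      F.adj_gt' hw hj (x1 := v.1) (x2 := r.1) (le_refl _) (by linarith) hr2.le (by rw [ejr]; exact ekm)
    have hjv : F.On j v := by
      rw [F.on_iff, ← (F.on_iff k v).1 hr.2.2.1]
      linarith
    have s1 : F.s k < F.s j :=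
      F.s_lt_of_right hr.2.2.1 hjv (x := r.1) (by linarith) (by rw [ejr]; exact ekm)
    have s2 : F.s j < F.s k' :=
      F.s_lt_of_right hjv hr.2.2.2.1 hvu (by rw [← emu]; exact g1)
    exact hr.2.2.2.2.2 j hj hjv ⟨s1, s2⟩
  · have g1 : F.f j w.1 < F.f m w.1 := F.lt_right hjr hmr hr2 h
    have g2 := F.adj_gt hw hj (x1 := r.1) (x2 := w.1) (by linarith) hr2 (le_refl _) (by rw [ejr]; exact ekm)
    linarith

theorem top_facts {c R Lf : ℝ × ℝ} {k k' m : ι} (hk : F.MaxAt k c) (hk' : F.MinAt k' c)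
    (hR : F.Adj k c R) (hL : F.Adj k' Lf c) (hmL : F.On m Lf) (hmR : F.On m R) :
    F.s k' < F.s m ∧ F.s m < F.s k ∧ F.f k c.1 = F.f k' c.1 ∧ F.f m R.1 = F.f k R.1 ∧
      F.f m Lf.1 = F.f k' Lf.1 := by
  have h1 : c.1 < R.1 := hR.2.2.2.2.2.1
  have h2 : Lf.1 < c.1 := hL.2.2.2.2.2.1
  have hs : F.s k' < F.s k := by
    refine lt_of_le_of_ne (hk.2.2 k' hk'.1 hk'.2.1) (fun h => ?_)
    have : k' = k := F.inj _ hk'.1 _ hk.1 h
    rw [this] at hk'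
    exact F.minmax_ne hR.2.2.2.1 hk' hk
  have emR : F.f m R.1 = F.f k R.1 := by
    rw [(F.on_iff m R).1 hmR, (F.on_iff k R).1 hR.2.2.1]
  have emL : F.f m Lf.1 = F.f k' Lf.1 := by
    rw [(F.on_iff m Lf).1 hmL, (F.on_iff k' Lf).1 hL.2.1]
  have g1 : F.f k' R.1 < F.f k R.1 := F.lt_right hk'.2.1 hk.2.1 h1 hs
  have g2 : F.f k Lf.1 < F.f k' Lf.1 := F.lt_left hk'.2.1 hk.2.1 h2 hs
  refine ⟨F.s_lt_of_right hL.2.1 hmL (x := R.1) (by linarith) (by rw [emR]; exact g1),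
    F.s_lt_of_left hmR hR.2.2.1 (x := Lf.1) (by linarith) (by rw [emL]; exact g2), ?_, emR, emL⟩
  rw [(F.on_iff k c).1 hk.2.1, (F.on_iff k' c).1 hk'.2.1]

theorem top_rang {c R Lf : ℝ × ℝ} {k k' m : ι} (hk : F.MaxAt k c) (hk' : F.MinAt k' c)
    (hR : F.Adj k c R) (hL : F.Adj k' Lf c) (hm : m ∈ F.S) (hmL : F.On m Lf) (hmR : F.On m R) :
    F.RAng Lf k' m := by
  obtain ⟨s1, s2, e1, emR, emL⟩ := F.top_facts hk hk' hR hL hmL hmR
  have h1 : c.1 < R.1 := hR.2.2.2.2.2.1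
  have h2 : Lf.1 < c.1 := hL.2.2.2.2.2.1
  refine ⟨hk'.1, hm, hL.2.1, hmL, s1, ?_⟩
  rintro j hj hjL ⟨a, b⟩
  have g1 : F.f k' c.1 < F.f j c.1 := F.lt_right hL.2.1 hjL h2 a
  have g2 : F.f j R.1 < F.f m R.1 := F.lt_right hjL hmL (by linarith) b
  have g3 := F.adj_gt hR hj (x1 := c.1) (x2 := R.1) (le_refl _) h1 (le_refl _) (by rw [e1]; exact g1)
  linarith

theorem top_half {c R Lf r : ℝ × ℝ} {k k' m j : ι} (hk : F.MaxAt k c) (hk' : F.MinAt k' c)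
    (hR : F.Adj k c R) (hL : F.Adj k' Lf c) (hmL : F.On m Lf) (hmR : F.On m R)
    (hmr : F.On m r) (hj : j ∈ F.S) (hjr : F.On j r) (h1 : Lf.1 < r.1) (h2 : r.1 < R.1)
    (hs : F.s m < F.s j) : False := by
  obtain ⟨s1, s2, e1, emR, emL⟩ := F.top_facts hk hk' hR hL hmL hmR
  have hcR : c.1 < R.1 := hR.2.2.2.2.2.1
  have hLc : Lf.1 < c.1 := hL.2.2.2.2.2.1
  have ejr : F.f j r.1 = F.f m r.1 := by
    rw [(F.on_iff j r).1 hjr, (F.on_iff m r).1 hmr]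
  have g1 : F.f j Lf.1 < F.f m Lf.1 := F.lt_left hmr hjr h1 hs
  rcases le_or_gt r.1 c.1 with h | h
  · have g2 : F.f k' r.1 < F.f m r.1 := F.lt_right hL.2.1 hmL h1 s1
    have g3 := F.adj_lt hL hj (x1 := Lf.1) (x2 := r.1) (le_refl _) h1 h (by rw [← emL]; exact g1)
    linarith
  · have g3 := F.adj_lt hL hj (x1 := Lf.1) (x2 := c.1) (le_refl _) hLc (le_refl _)
      (by rw [← emL]; exact g1)
    have g2 : F.f k r.1 < F.f m r.1 := F.lt_left hmR hR.2.2.1 h2 s2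
    have g4 := F.adj_gt' hR hj (x1 := c.1) (x2 := r.1) (le_refl _) h h2.le (by rw [ejr]; exact g2)
    have hjc : F.On j c := by
      rw [F.on_iff, ← (F.on_iff k c).1 hk.2.1]
      linarith
    have := hk.2.2 j hj hjc
    have := F.s_lt_of_right hk.2.1 hjc h (by rw [ejr]; exact g2)
    linarith

theorem top_adj {c R Lf : ℝ × ℝ} {k k' m : ι} (hk : F.MaxAt k c) (hk' : F.MinAt k' c)
    (hR : F.Adj k c R) (hL : F.Adj k' Lf c) (hm : m ∈ F.S) (hmL : F.On m Lf) (hmR : F.On m R) :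
    F.Adj m Lf R := by
  have hcR : c.1 < R.1 := hR.2.2.2.2.2.1
  have hLc : Lf.1 < c.1 := hL.2.2.2.2.2.1
  refine ⟨hm, hmL, hmR, hL.2.2.2.1, hR.2.2.2.2.1, by linarith, ?_⟩
  rintro r hV hmr ⟨h1, h2⟩
  obtain ⟨j, hj, hjr, hjm⟩ := F.other_line (m := m) hV
  have hne : F.s m ≠ F.s j := fun h => hjm (F.inj _ hj _ hm h.symm)
  rcases lt_or_gt_of_ne hne with h | h
  · exact F.top_half hk hk' hR hL hmL hmR hmr hj hjr h1 h2 h
  · refine F.mx.top_half (c := tx c) (R := tx Lf) (Lf := tx R) (r := tx r) (k := k') (k' := k) (m := m)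
      (j := j) ((F.maxAt_mx k' c).2 hk') ((F.minAt_mx k c).2 hk) ((F.adj_mx k' Lf c).2 hL)
      ((F.adj_mx k c R).2 hR) ((F.on_mx m R).2 hmR) ((F.on_mx m Lf).2 hmL) ((F.on_mx m r).2 hmr) hj
      ((F.on_mx j r).2 hjr) ?_ ?_ ?_
    · simp only [tx_fst]; linarith
    · simp only [tx_fst]; linarith
    · show - F.s m < - F.s j
      linarith

/-- the conclusion of the triangle theorem -/
def TriD (d d' : ι × Bool) (q q' : ℝ × ℝ) : Prop :=
  ∃ e : ι × Bool, F.Nx e q q' ∧ F.Su q e (op d) ∧ F.Su q' (op d') (op e)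

theorem triD_of_my {d d' : ι × Bool} {q q' : ℝ × ℝ} (h : F.my.TriD d' d (ty q') (ty q)) :
    F.TriD d d' q q' := by
  obtain ⟨e, h1, h2, h3⟩ := h
  rw [nx_my] at h1
  rw [su_my] at h2 h3
  exact ⟨op e, F.nx_op.2 h1, h3, by rw [op_op]; exact h2⟩

theorem triD_of_mx {d d' : ι × Bool} {q q' : ℝ × ℝ} (h : F.mx.TriD (op d') (op d) (tx q') (tx q)) :
    F.TriD d d' q q' := by
  obtain ⟨e, h1, h2, h3⟩ := h
  rw [← op_op e, nx_mx, nx_op] at h1
  rw [← op_op e, su_mx] at h2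
  rw [su_mx] at h3
  exact ⟨e, h1, h3, h2⟩

theorem triD_right {p q q' : ℝ × ℝ} {k k' : ι} (hr : F.RAng p k k') (hq : F.Adj k p q)
    (hq' : F.Adj k' p q') (hc : F.Com q q') : F.TriD (k, true) (k', true) q q' := by
  obtain ⟨m, hm, hmq, hmq'⟩ := hc
  have base : ∀ (G : Fam ι) (p q q' : ℝ × ℝ) (k k' : ι), G.RAng p k k' → G.Adj k p q → G.Adj k' p q' →
      m ∈ G.S → G.On m q → G.On m q' → q'.1 < q.1 → G.TriD (k, true) (k', true) q q' := by
    intro G p q q' k k' hr hq hq' hm hmq hmq' hlt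
    obtain ⟨t1, t2, t3⟩ := G.tri_lt hr hq' hq hm hmq' hmq hlt
    have ha := G.right_adj hr hq' hq hm hmq' hmq hlt
    exact ⟨(m, false), Or.inr ⟨rfl, ha⟩, Or.inl ⟨rfl, t3⟩, Or.inr ⟨rfl, t1, t2⟩⟩
  rcases lt_trichotomy q'.1 q.1 with h | h | h
  · exact base F p q q' k k' hr hq hq' hm hmq hmq' h
  · exfalso
    have huw : q' = q := F.eq_of_on_fst hmq' hmq h
    have hkk : k ≠ k' := by
      rintro rfl
      exact lt_irrefl _ hr.2.2.2.2.1
    have := F.eq_of_on hr.1 hr.2.1 hkk hr.2.2.1 hr.2.2.2.1 hq.2.2.1 (huw ▸ hq'.2.2.1)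
    have h2 := hq.2.2.2.2.2.1
    rw [this] at h2
    exact lt_irrefl _ h2
  · apply F.triD_of_my
    exact base F.my (ty p) (ty q') (ty q) k' k ((F.rang_my p k k').2 hr) ((F.adj_my k' p q').2 hq')
      ((F.adj_my k p q).2 hq) hm ((F.on_my m q').2 hmq') ((F.on_my m q).2 hmq) h

theorem triD_top {p q q' : ℝ × ℝ} {k k' : ι} (hk : F.MaxAt k p) (hk' : F.MinAt k' p)
    (hq : F.Adj k p q) (hq' : F.Adj k' q' p) (hc : F.Com q q') :
    F.TriD (k, true) (k', false) q q' := by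
  obtain ⟨m, hm, hmq, hmq'⟩ := hc
  have a1 := F.top_rang hk hk' hq hq' hm hmq' hmq
  have a2 := F.mx.top_rang (c := tx p) (R := tx q') (Lf := tx q) (k := k') (k' := k) (m := m)
    ((F.maxAt_mx k' p).2 hk') ((F.minAt_mx k p).2 hk) ((F.adj_mx k' q' p).2 hq')
      ((F.adj_mx k p q).2 hq) hm ((F.on_mx m q).2 hmq) ((F.on_mx m q').2 hmq')
  rw [rang_mx] at a2
  have a3 := F.top_adj hk hk' hq hq' hm hmq' hmq
  exact ⟨(m, false), Or.inr ⟨rfl, a3⟩, Or.inl ⟨rfl, a2⟩, Or.inl ⟨rfl, a1⟩⟩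

/-- THE TRIANGLE THEOREM: the three corners of a triangular face see the same face. -/
theorem triD {p q q' : ℝ × ℝ} {d d' : ι × Bool} (hs : F.Su p d d') (hq : F.Nx d p q)
    (hq' : F.Nx d' p q') (hc : F.Com q q') : F.TriD d d' q q' := by
  obtain ⟨k, b⟩ := d
  obtain ⟨k', b'⟩ := d'
  rcases hs with ⟨a, r⟩ | ⟨a, r1, r2⟩
  · simp only at a r
    subst a
    rcases hq with ⟨x, y⟩ | ⟨x, y⟩ <;> rcases hq' with ⟨x', y'⟩ | ⟨x', y'⟩ <;> simp only at x x' y y'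
    · subst x
      exact F.triD_right r y y' hc
    · rw [x] at x'; exact absurd x' (by decide)
    · rw [x] at x'; exact absurd x' (by decide)
    · subst x
      apply F.triD_of_mx
      exact F.mx.triD_right ((F.rang_mx p k k').2 r) ((F.adj_mx k' q' p).2 y') ((F.adj_mx k q p).2 y)
        ((F.com_mx q' q).2 (F.com_symm hc))
  · simp only at a r1 r2
    rcases hq with ⟨x, y⟩ | ⟨x, y⟩ <;> rcases hq' with ⟨x', y'⟩ | ⟨x', y'⟩ <;> simp only at x x' y y'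
    · rw [x, x'] at a; exact absurd a (by decide)
    · subst x x'
      exact F.triD_top r1 r2 y y' hc
    · subst x x'
      apply F.triD_of_my
      exact F.my.triD_top ((F.maxAt_my k' p).2 r2) ((F.minAt_my k p).2 r1) ((F.adj_my k' p q').2 y')
        ((F.adj_my k q p).2 y) ((F.com_my q' q).2 (F.com_symm hc))
    · rw [x, x'] at a; exact absurd a (by decide)

end Fam
end MP9b2b
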