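import Pool.Agent.Lib.MP_9b2b7a_co.Exi

set_option autoImplicit false
open scoped Classical

namespace MP9b2b

/-- ten points on a cubic -/
def KOn (k : ℕ) (A : Finset (ℝ × ℝ)) : Prop :=
  ∃ B : Finset (ℝ × ℝ), B ⊆ A ∧ B.card = k ∧
    ∃ p : MvPolynomial (Fin 2) ℝ, p ≠ 0 ∧ p.totalDegree ≤ 3 ∧
      ∀ x ∈ B, MvPolynomial.eval ![x.1, x.2] p = 0

theorem kOn_of {k : ℕ} {A U : Finset (ℝ × ℝ)} (hU : U ⊆ A) (hk : k ≤ U.card)
    {p : MvPolynomial (Fin 2) ℝ} (hp : p ≠ 0) (hd : p.totalDegree ≤ 3)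
    (hv : ∀ x ∈ U, MvPolynomial.eval ![x.1, x.2] p = 0) : KOn k A := by
  obtain ⟨B, hB, hc⟩ := Finset.exists_subset_card_eq hk
  exact ⟨B, hB.trans hU, hc, p, hp, hd, fun x hx => hv x (hB hx)⟩

theorem exists_eps (A : Finset (ℝ × ℝ)) :
    ∃ ε : ℝ, ∀ p ∈ A, ∀ q ∈ A, p.1 + ε * p.2 = q.1 + ε * q.2 → p = q := by
  obtain ⟨ε, hε⟩ := Infinite.exists_notMem_finset
    ((A ×ˢ A).image (fun t => -(t.1.1 - t.2.1) / (t.1.2 - t.2.2)))
  refine ⟨ε, fun p hp q hq h => ?_⟩
  by_contra hne
  by_cases h2 : p.2 = q.2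
  · apply hne
    apply Prod.ext _ h2
    rw [h2] at h
    linarith
  · apply hε
    rw [Finset.mem_image]
    refine ⟨(p, q), Finset.mk_mem_product hp hq, ?_⟩
    show -(p.1 - q.1) / (p.2 - q.2) = ε
    rw [div_eq_iff (sub_ne_zero.2 h2)]
    linarith

/-- the dual arrangement -/
def dual (A : Finset (ℝ × ℝ)) (ε : ℝ)
    (h : ∀ p ∈ A, ∀ q ∈ A, p.1 + ε * p.2 = q.1 + ε * q.2 → p = q) : Fam (ℝ × ℝ) where
  S := A
  s := fun p => p.1 + ε * p.2
  b := fun p => p.2
  inj := h

/-- the linear form of a vertex -/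
noncomputable def lin (ε : ℝ) (v : ℝ × ℝ) : MvPolynomial (Fin 2) ℝ :=
  MvPolynomial.C v.1 * MvPolynomial.X 0 + MvPolynomial.C (ε * v.1 + 1) * MvPolynomial.X 1
    - MvPolynomial.C v.2

theorem eval_lin (ε : ℝ) (v x : ℝ × ℝ) :
    MvPolynomial.eval ![x.1, x.2] (lin ε v) = (x.1 + ε * x.2) * v.1 + x.2 - v.2 := by
  unfold lin
  simp
  ring

theorem deg_lin (ε : ℝ) (v : ℝ × ℝ) : (lin ε v).totalDegree ≤ 1 := by
  unfold lin
  refine (MvPolynomial.totalDegree_sub _ _).trans (max_le ?_ ?_)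
  · refine (MvPolynomial.totalDegree_add _ _).trans (max_le ?_ ?_)
    · refine (MvPolynomial.totalDegree_mul _ _).trans ?_
      rw [MvPolynomial.totalDegree_C, MvPolynomial.totalDegree_X]
    · refine (MvPolynomial.totalDegree_mul _ _).trans ?_
      rw [MvPolynomial.totalDegree_C, MvPolynomial.totalDegree_X]
  · rw [MvPolynomial.totalDegree_C]
    norm_num

theorem lin_ne (ε : ℝ) (v : ℝ × ℝ) : lin ε v ≠ 0 := by
  intro h
  have := eval_lin ε v (-ε * (v.2 + 1), v.2 + 1)
  rw [h] at this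
  simp at this

theorem deg_mul3 {a b c : MvPolynomial (Fin 2) ℝ} (ha : a.totalDegree ≤ 1) (hb : b.totalDegree ≤ 1)
    (hc : c.totalDegree ≤ 1) : (a * b * c).totalDegree ≤ 3 := by
  have h1 := MvPolynomial.totalDegree_mul (a * b) c
  have h2 := MvPolynomial.totalDegree_mul a b
  omega

variable {A : Finset (ℝ × ℝ)} {ε : ℝ}
  {h : ∀ p ∈ A, ∀ q ∈ A, p.1 + ε * p.2 = q.1 + ε * q.2 → p = q}

theorem on_dual (p v : ℝ × ℝ) : (dual A ε h).On p v ↔ MvPolynomial.eval ![p.1, p.2] (lin ε v) = 0 := by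
  rw [eval_lin, sub_eq_zero]
  rfl

/-- a grid gives ten points on a cubic -/
theorem grid_ten {g : Fin 3 → Fin 3 → ℝ × ℝ} (hg : (dual A ε h).Grid g) (hA : 10 ≤ A.card) :
    KOn 10 A := by
  obtain ⟨hinj, hS, row, col, hrow, hcol, hne⟩ := hg
  have hnine : ((Finset.univ : Finset (Fin 3 × Fin 3)).image (fun t => g t.1 t.2)).card = 9 := by
    rw [Finset.card_image_of_injective]
    · simp
    · intro t t' htt
      have := hinj _ _ _ _ htt
      exact Prod.ext this.1 this.2
  set N := (Finset.univ : Finset (Fin 3 × Fin 3)).image (fun t => g t.1 t.2) with hN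
  have hNA : N ⊆ A := by
    intro x hx
    rw [hN, Finset.mem_image] at hx
    obtain ⟨t, -, rfl⟩ := hx
    exact hS _ _
  obtain ⟨z, hzA, hzN⟩ : ∃ z ∈ A, z ∉ N := by
    by_contra hc
    push Not at hc
    have : A ⊆ N := fun x hx => hc x hx
    have := Finset.card_le_card this
    omega
  set R : MvPolynomial (Fin 2) ℝ := lin ε (row 0) * lin ε (row 1) * lin ε (row 2) with hR
  set C : MvPolynomial (Fin 2) ℝ := lin ε (col 0) * lin ε (col 1) * lin ε (col 2) with hC
  have hRd : R.totalDegree ≤ 3 := deg_mul3 (deg_lin _ _) (deg_lin _ _) (deg_lin _ _)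
  have hCd : C.totalDegree ≤ 3 := deg_mul3 (deg_lin _ _) (deg_lin _ _) (deg_lin _ _)
  have hR0 : R ≠ 0 := mul_ne_zero (mul_ne_zero (lin_ne _ _) (lin_ne _ _)) (lin_ne _ _)
  have hRg : ∀ x ∈ N, MvPolynomial.eval ![x.1, x.2] R = 0 := by
    intro x hx
    rw [hN, Finset.mem_image] at hx
    obtain ⟨⟨i, j⟩, -, rfl⟩ := hx
    have := (on_dual _ _).1 (hrow i j)
    rw [hR, map_mul, map_mul]
    fin_cases i
    · have h' : MvPolynomial.eval ![(g 0 j).1, (g 0 j).2] (lin ε (row 0)) = 0 := this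
      show MvPolynomial.eval ![(g 0 j).1, (g 0 j).2] (lin ε (row 0)) * _ * _ = 0
      rw [h']; ring
    · have h' : MvPolynomial.eval ![(g 1 j).1, (g 1 j).2] (lin ε (row 1)) = 0 := this
      show _ * MvPolynomial.eval ![(g 1 j).1, (g 1 j).2] (lin ε (row 1)) * _ = 0
      rw [h']; ring
    · have h' : MvPolynomial.eval ![(g 2 j).1, (g 2 j).2] (lin ε (row 2)) = 0 := this
      show _ * _ * MvPolynomial.eval ![(g 2 j).1, (g 2 j).2] (lin ε (row 2)) = 0
      rw [h']; ring
  have hCg : ∀ x ∈ N, MvPolynomial.eval ![x.1, x.2] C = 0 := by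
    intro x hx
    rw [hN, Finset.mem_image] at hx
    obtain ⟨⟨i, j⟩, -, rfl⟩ := hx
    have := (on_dual _ _).1 (hcol i j)
    rw [hC, map_mul, map_mul]
    fin_cases j
    · have h' : MvPolynomial.eval ![(g i 0).1, (g i 0).2] (lin ε (col 0)) = 0 := this
      show MvPolynomial.eval ![(g i 0).1, (g i 0).2] (lin ε (col 0)) * _ * _ = 0
      rw [h']; ring
    · have h' : MvPolynomial.eval ![(g i 1).1, (g i 1).2] (lin ε (col 1)) = 0 := this
      show _ * MvPolynomial.eval ![(g i 1).1, (g i 1).2] (lin ε (col 1)) * _ = 0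
      rw [h']; ring
    · have h' : MvPolynomial.eval ![(g i 2).1, (g i 2).2] (lin ε (col 2)) = 0 := this
      show _ * _ * MvPolynomial.eval ![(g i 2).1, (g i 2).2] (lin ε (col 2)) = 0
      rw [h']; ring
  have hUcard : 10 ≤ (insert z N).card := by
    rw [Finset.card_insert_of_notMem hzN, hnine]
  have hUA : insert z N ⊆ A := by
    intro x hx
    rw [Finset.mem_insert] at hx
    rcases hx with rfl | hx
    · exact hzA
    · exact hNA hx
  by_cases hz : MvPolynomial.eval ![z.1, z.2] R = 0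
  · refine kOn_of hUA hUcard hR0 hRd ?_
    intro x hx
    rw [Finset.mem_insert] at hx
    rcases hx with rfl | hx
    · exact hz
    · exact hRg x hx
  · -- a point on the first row off the columns
    obtain ⟨s, hs⟩ := Infinite.exists_notMem_finset
      ((Finset.univ : Finset (Fin 3)).image (fun j => -((row 0).2 - (col j).2) / ((col j).1 - (row 0).1)))
    have hsj : ∀ j, s * ((col j).1 - (row 0).1) + ((row 0).2 - (col j).2) ≠ 0 := by
      intro j hj
      by_cases hx : (col j).1 = (row 0).1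
      · rw [hx, sub_self, mul_zero, zero_add, sub_eq_zero] at hj
        exact hne 0 j (Prod.ext hx.symm hj)
      · apply hs
        rw [Finset.mem_image]
        refine ⟨j, Finset.mem_univ _, ?_⟩
        rw [div_eq_iff (sub_ne_zero.2 hx)]
        linarith
    set b := (row 0).2 - (row 0).1 * s with hb
    set x : ℝ × ℝ := (s - ε * b, b) with hx
    have ev : ∀ v : ℝ × ℝ, MvPolynomial.eval ![x.1, x.2] (lin ε v) = s * v.1 + b - v.2 := by
      intro v
      rw [eval_lin]
      show (s - ε * b + ε * b) * v.1 + b - v.2 = _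
      ring
    have hRx : MvPolynomial.eval ![x.1, x.2] R = 0 := by
      rw [hR, map_mul, map_mul, ev (row 0)]
      have : s * (row 0).1 + b - (row 0).2 = 0 := by rw [hb]; ring
      rw [this]; ring
    have hCx : MvPolynomial.eval ![x.1, x.2] C ≠ 0 := by
      have e : ∀ j, MvPolynomial.eval ![x.1, x.2] (lin ε (col j)) ≠ 0 := by
        intro j
        rw [ev]
        have := hsj j
        intro hc
        apply this
        rw [← hc, hb]; ring
      rw [hC, map_mul, map_mul]
      exact mul_ne_zero (mul_ne_zero (e 0) (e 1)) (e 2)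
    set P : MvPolynomial (Fin 2) ℝ := MvPolynomial.C (MvPolynomial.eval ![z.1, z.2] C) * R -
      MvPolynomial.C (MvPolynomial.eval ![z.1, z.2] R) * C with hP
    have hP0 : P ≠ 0 := by
      intro hc
      have : MvPolynomial.eval ![x.1, x.2] P = 0 := by rw [hc]; simp
      rw [hP] at this
      simp only [map_sub, map_mul, MvPolynomial.eval_C] at this
      rw [hRx, mul_zero, zero_sub, neg_eq_zero] at this
      rcases mul_eq_zero.1 this with h' | h'
      · exact hz h'
      · exact hCx h'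
    refine kOn_of hUA hUcard hP0 ?_ ?_
    · refine (MvPolynomial.totalDegree_sub _ _).trans (max_le ?_ ?_)
      · refine (MvPolynomial.totalDegree_mul _ _).trans ?_
        rw [MvPolynomial.totalDegree_C]
        omega
      · refine (MvPolynomial.totalDegree_mul _ _).trans ?_
        rw [MvPolynomial.totalDegree_C]
        omega
    · intro y hy
      rw [hP]
      simp only [map_sub, map_mul, MvPolynomial.eval_C]
      rw [Finset.mem_insert] at hy
      rcases hy with rfl | hy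
      · ring
      · rw [hRg y hy, hCg y hy]; ring

end MP9b2b
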