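import Pool.Agent.Lib.MP_9b2b7a_co.Hex

set_option autoImplicit false
open scoped Classical

namespace MP9b2b
namespace Fam

variable {ι : Type} (F : Fam ι)

noncomputable def T3 : Finset (ℝ × ℝ) := F.V.filter (fun v => (F.L v).card = 3)

theorem mx_T2_card : F.mx.T2.card = F.T2.card := by
  have : F.mx.T2 = F.T2.image tx := by
    ext v
    unfold T2
    rw [Finset.mem_filter, Finset.mem_image, mem_V]
    constructor
    · rintro ⟨h1, h2⟩
      refine ⟨tx v, ?_, tx_tx v⟩
      rw [Finset.mem_filter, mem_V]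
      rw [← tx_tx v, isV_mx] at h1
      rw [← tx_tx v, L_mx] at h2
      exact ⟨h1, h2⟩
    · rintro ⟨w, hw, rfl⟩
      rw [Finset.mem_filter, mem_V] at hw
      rw [isV_mx, L_mx]
      exact hw
  rw [this, Finset.card_image_of_injective]
  intro a b h
  rw [← tx_tx a, ← tx_tx b, h]

/-- vertices with a double neighbour -/
noncomputable def B4 : Finset (ℝ × ℝ) :=
  F.V.filter (fun c => ∃ l p, (F.Adj l c p ∨ F.Adj l p c) ∧ (F.L p).card < 3)

theorem card_B4 : F.B4.card ≤ 4 * F.T2.card := by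
  have h1 : ((F.T2.sigma (fun p => F.L p)) ×ˢ (Finset.univ : Finset Bool)).card = 4 * F.T2.card := by
    rw [Finset.card_product, Finset.card_sigma, Finset.card_univ, Fintype.card_bool]
    have : ∑ a ∈ F.T2, (F.L a).card = ∑ a ∈ F.T2, 2 := by
      apply Finset.sum_congr rfl
      intro a ha
      unfold T2 at ha
      rw [Finset.mem_filter] at ha
      exact ha.2
    rw [this, Finset.sum_const, smul_eq_mul]
    ring
  rw [← h1]
  apply Finset.card_le_card_of_forall_subsingleton
    (fun (c : ℝ × ℝ) (t : (Σ _ : ℝ × ℝ, ι) × Bool) =>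
      (t.2 = true ∧ F.Adj t.1.2 c t.1.1) ∨ (t.2 = false ∧ F.Adj t.1.2 t.1.1 c))
  · intro c hc
    unfold B4 at hc
    rw [Finset.mem_filter] at hc
    obtain ⟨-, l, p, h, h3⟩ := hc
    have hp : p ∈ F.T2 ∧ l ∈ F.L p := by
      rcases h with h | h
      · have hV := h.2.2.2.2.1
        have := F.two_le_L hV
        unfold T2
        rw [Finset.mem_filter, mem_V, mem_L]
        exact ⟨⟨hV, by omega⟩, h.1, h.2.2.1⟩
      · have hV := h.2.2.2.1
        have := F.two_le_L hV
        unfold T2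
        rw [Finset.mem_filter, mem_V, mem_L]
        exact ⟨⟨hV, by omega⟩, h.1, h.2.1⟩
    rcases h with h | h
    · refine ⟨(⟨p, l⟩, true), ?_, Or.inl ⟨rfl, h⟩⟩
      simp [hp.1, hp.2]
    · refine ⟨(⟨p, l⟩, false), ?_, Or.inr ⟨rfl, h⟩⟩
      simp [hp.1, hp.2]
  · intro t ht c hc c' hc'
    simp only [Set.mem_ofPred_eq] at hc hc'
    rcases hc.2 with ⟨a, b⟩ | ⟨a, b⟩ <;> rcases hc'.2 with ⟨a', b'⟩ | ⟨a', b'⟩
    · exact F.adj_prev_unique b b'
    · rw [a] at a'; exact absurd a' (by decide)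
    · rw [a] at a'; exact absurd a' (by decide)
    · exact F.adj_next_unique b b'

/-- many triple points give a grid -/
theorem exists_grid (h : 8 * F.T2.card + 12 * F.S.card < F.T3.card) :
    ∃ g : Fin 3 → Fin 3 → ι, F.Grid g := by
  by_contra hno
  have hsub : F.T3 ⊆ ((F.RA \ F.GT).image (fun t => t.1)) ∪
      ((F.mx.RA \ F.mx.GT).image (fun t => tx t.1)) ∪
      (((F.V ×ˢ (Finset.univ : Finset Bool)) \ F.PG).image (fun t => t.1)) ∪ F.B4 := by
    intro c hc
    unfold T3 at hc
    rw [Finset.mem_filter] at hc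
    obtain ⟨hV, h3⟩ := hc
    by_contra hc
    rw [Finset.mem_union, Finset.mem_union, Finset.mem_union] at hc
    push Not at hc
    obtain ⟨⟨⟨c1, c2⟩, c3⟩, c4⟩ := hc
    apply hno
    apply F.hex (c := c) h3
    · intro k k' hk
      by_contra hcc
      apply c1
      rw [Finset.mem_image]
      refine ⟨(c, k, k'), ?_, rfl⟩
      rw [Finset.mem_sdiff, mem_RA]
      exact ⟨hk, hcc⟩
    · intro k k' hk
      by_contra hcc
      apply c2
      rw [Finset.mem_image]
      refine ⟨(tx c, k, k'), ?_, tx_tx c⟩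
      rw [Finset.mem_sdiff, mem_RA]
      exact ⟨hk, hcc⟩
    · by_contra hcc
      apply c3
      rw [Finset.mem_image]
      refine ⟨(c, true), ?_, rfl⟩
      rw [Finset.mem_sdiff]
      exact ⟨by simp [hV], hcc⟩
    · by_contra hcc
      apply c3
      rw [Finset.mem_image]
      refine ⟨(c, false), ?_, rfl⟩
      rw [Finset.mem_sdiff]
      exact ⟨by simp [hV], hcc⟩
    · intro l p hlp
      by_contra hcc
      apply c4
      unfold B4
      rw [Finset.mem_filter]
      exact ⟨hV, l, p, hlp, by omega⟩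
  have h1 := Finset.card_le_card hsub
  have h2 := Finset.card_union_le (((F.RA \ F.GT).image (fun t => t.1)) ∪
      ((F.mx.RA \ F.mx.GT).image (fun t => tx t.1)) ∪
      (((F.V ×ˢ (Finset.univ : Finset Bool)) \ F.PG).image (fun t => t.1))) F.B4
  have h3 := Finset.card_union_le (((F.RA \ F.GT).image (fun t => t.1)) ∪
      ((F.mx.RA \ F.mx.GT).image (fun t => tx t.1)))
      (((F.V ×ˢ (Finset.univ : Finset Bool)) \ F.PG).image (fun t => t.1))
  have h4 := Finset.card_union_le ((F.RA \ F.GT).image (fun t => t.1))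
      ((F.mx.RA \ F.mx.GT).image (fun t => tx t.1))
  have h5 : ((F.RA \ F.GT).image (fun t => t.1)).card ≤ (F.RA \ F.GT).card := Finset.card_image_le
  have h6 : ((F.mx.RA \ F.mx.GT).image (fun t => tx t.1)).card ≤ (F.mx.RA \ F.mx.GT).card :=
    Finset.card_image_le
  have h7 : (((F.V ×ˢ (Finset.univ : Finset Bool)) \ F.PG).image (fun t => t.1)).card ≤
      ((F.V ×ˢ (Finset.univ : Finset Bool)) \ F.PG).card := Finset.card_image_le
  have h8 := F.card_bad
  have h9 := F.mx.card_bad
  have h10 := F.card_notPG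
  have h11 := F.card_B4
  have h12 := F.mx_T2_card
  have h13 : F.mx.S.card = F.S.card := rfl
  omega

end Fam
end MP9b2b
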