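import Pool.Agent.Lib.MP_9b2b7a_co.Fam

set_option autoImplicit false
open scoped Classical

namespace MP9b2b
namespace Fam

variable {ι : Type} (F : Fam ι)

/-- the first upper vertex is reached along its line of largest slope -/
theorem A1 {v u w : ℝ × ℝ} {k k' : ι} (hr : F.RAng v k k') (hu : F.Adj k' v u) (hw : F.Adj k v w)
    (huw : u.1 ≤ w.1) : F.MaxAt k' u := by
  obtain ⟨hk, hk', hkv, hk'v, hs, hcons⟩ := hr
  refine ⟨hk', hu.2.2.1, fun j hj hju => ?_⟩
  by_contra hc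
  push Not at hc
  have hvu : v.1 < u.1 := hu.2.2.2.2.2.1
  have e1 : F.f j v.1 < F.f k' v.1 := F.lt_left hu.2.2.1 hju hvu hc
  have e2 : F.f k v.1 = F.f k' v.1 := by
    rw [(F.on_iff k v).1 hkv, (F.on_iff k' v).1 hk'v]
  have e3 : F.f k u.1 < F.f k' u.1 := F.lt_right hkv hk'v hvu hs
  have e4 : F.f j u.1 = F.f k' u.1 := by
    rw [(F.on_iff j u).1 hju, (F.on_iff k' u).1 hu.2.2.1]
  have := F.adj_lt hw hj (le_refl _) hvu huw (by rw [e2]; exact e1)
  rw [e4] at this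
  linarith

/-- T: the two next vertices lie on a common line -/
def Com (u w : ℝ × ℝ) : Prop := ∃ m ∈ F.S, F.On m u ∧ F.On m w

/-- data of case A -/
def CaseA (v : ℝ × ℝ) (k k' : ι) (u w : ℝ × ℝ) : Prop :=
  F.RAng v k k' ∧ F.Adj k' v u ∧ F.Adj k v w ∧ u.1 ≤ w.1

theorem min_ne_max {v u w : ℝ × ℝ} {k k' M : ι} (h : F.CaseA v k k' u w) (hM : F.MinAt M u) :
    F.s M < F.s k' := by
  obtain ⟨hr, hu, hw, huw⟩ := h
  have hmax := F.A1 hr hu hw huw
  rcases lt_or_eq_of_le (hmax.2.2 M hM.1 hM.2.1) with h | h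
  · exact h
  · exfalso
    have hMk : M = k' := F.inj _ hM.1 _ hmax.1 h
    obtain ⟨i, hi, j, hj, hij, h1, h2⟩ := hu.2.2.2.2.1
    apply hij
    apply F.inj _ hi _ hj
    have a1 := hmax.2.2 i hi h1
    have a2 := hmax.2.2 j hj h2
    have a3 := hM.2.2 i hi h1
    have a4 := hM.2.2 j hj h2
    rw [hMk] at a3 a4
    linarith

/-- M (smallest slope at u) stays strictly above k on (u.1, w.1], if u, w have no common line -/
theorem M_above {v u w : ℝ × ℝ} {k k' M : ι} (h : F.CaseA v k k' u w) (hM : F.MinAt M u)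
    (hn : ¬ F.Com u w) {x : ℝ} (hx : u.1 ≤ x) (hx2 : x ≤ w.1) : F.f k x < F.f M x := by
  obtain ⟨hr, hu, hw, huw⟩ := h
  have hvu : v.1 < u.1 := hu.2.2.2.2.2.1
  have e3 : F.f k u.1 < F.f k' u.1 := F.lt_right hr.2.2.1 hr.2.2.2.1 hvu hr.2.2.2.2.1
  have e4 : F.f M u.1 = F.f k' u.1 := by
    rw [(F.on_iff M u).1 hM.2.1, (F.on_iff k' u).1 hu.2.2.1]
  have e5 : F.f k u.1 < F.f M u.1 := by rw [e4]; exact e3
  rcases eq_or_lt_of_le hx with h | hxlt
  · rw [← h]; exact e5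
  · have e6 := F.adj_gt hw hM.1 (x1 := u.1) (x2 := x) hvu.le hxlt hx2 e5
    rcases lt_or_eq_of_le e6 with h | h
    · exact h
    · exfalso
      -- crossing point
      have hne : M ≠ k := by rintro rfl; exact lt_irrefl _ e5
      have hon : F.On M (x, F.f k x) := h.symm
      have hV : F.IsV (x, F.f k x) := ⟨M, hM.1, k, hr.1, hne, hon, rfl⟩
      rcases lt_or_eq_of_le hx2 with h2 | h2
      · exact hw.2.2.2.2.2.2 (x, F.f k x) hV rfl ⟨by show v.1 < x; linarith, h2⟩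
      · apply hn
        have : ((x, F.f k x) : ℝ × ℝ) = w := by
          exact F.eq_of_on_fst (i := k) (p := (x, F.f k x)) (show F.On k (x, F.f k x) from rfl) hw.2.2.1 h2
        rw [this] at hon
        exact ⟨M, hM.1, hM.2.1, hon⟩

/-- A(i): the next vertex after u on M is reached along its line of largest slope -/
theorem A2 {v u w u' : ℝ × ℝ} {k k' M : ι} (h : F.CaseA v k k' u w) (hM : F.MinAt M u)
    (hn : ¬ F.Com u w) (hu' : F.Adj M u u') (hle : u'.1 ≤ w.1) : F.MaxAt M u' := by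
  refine ⟨hM.1, hu'.2.2.1, fun j hj hju' => ?_⟩
  by_contra hc
  push Not at hc
  have huu' : u.1 < u'.1 := hu'.2.2.2.2.2.1
  have hab := F.M_above h hM hn (x := u'.1) huu'.le hle
  obtain ⟨hr, hu, hw, huw⟩ := h
  have hvu : v.1 < u.1 := hu.2.2.2.2.2.1
  have e1 : F.f j u.1 < F.f M u.1 := F.lt_left hu'.2.2.1 hju' huu' hc
  have e4 : F.f M u.1 = F.f k' u.1 := by
    rw [(F.on_iff M u).1 hM.2.1, (F.on_iff k' u).1 hu.2.2.1]
  have e5 : F.f j u'.1 = F.f M u'.1 := by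
    rw [(F.on_iff j u').1 hju', (F.on_iff M u').1 hu'.2.2.1]
  have e6 : F.f k u'.1 < F.f j u'.1 := by rw [e5]; exact hab
  have e7 : F.f j v.1 ≤ F.f k' v.1 := F.adj_lt' hu hj (le_refl _) hvu (le_refl _) (by rw [← e4]; exact e1)
  have e8 : F.f k v.1 = F.f k' v.1 := by
    rw [(F.on_iff k v).1 hr.2.2.1, (F.on_iff k' v).1 hr.2.2.2.1]
  rcases lt_or_eq_of_le e7 with h | h
  · have := F.adj_lt hw hj (x1 := v.1) (x2 := u'.1) (le_refl _) (by linarith) hle (by rw [e8]; exact h)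
    linarith
  · have hjv : F.On j v := by
      rw [F.on_iff, h, (F.on_iff k' v).1 hr.2.2.2.1]
    have s1 : F.s j < F.s k' := F.s_lt_of_right hjv hr.2.2.2.1 hvu (by rw [← e4]; exact e1)
    have s2 : F.s k < F.s j := F.s_lt_of_right hr.2.2.1 hjv (x := u'.1) (by linarith) e6
    exact hr.2.2.2.2.2 j hj hjv ⟨s2, s1⟩

/-- A(ii): otherwise w is reached along its line of smallest slope -/
theorem A3 {v u w : ℝ × ℝ} {k k' M : ι} (h : F.CaseA v k k' u w) (hM : F.MinAt M u)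
    (hn : ¬ F.Com u w) (hno : ¬ ∃ u', F.Adj M u u' ∧ u'.1 ≤ w.1) : F.MinAt k w := by
  have hab := F.M_above h hM hn (x := w.1) h.2.2.2 (le_refl _)
  obtain ⟨hr, hu, hw, huw⟩ := h
  have hvu : v.1 < u.1 := hu.2.2.2.2.2.1
  refine ⟨hr.1, hw.2.2.1, fun j hj hjw => ?_⟩
  by_contra hc
  push Not at hc
  have e0 : F.f k v.1 < F.f j v.1 := F.lt_left hjw hw.2.2.1 hw.2.2.2.2.2.1 hc
  have e8 : F.f k v.1 = F.f k' v.1 := by
    rw [(F.on_iff k v).1 hr.2.2.1, (F.on_iff k' v).1 hr.2.2.2.1]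
  have e9 : F.f k' u.1 ≤ F.f j u.1 := F.adj_gt hu hj (le_refl _) hvu (le_refl _) (by rw [← e8]; exact e0)
  have e4 : F.f M u.1 = F.f k' u.1 := by
    rw [(F.on_iff M u).1 hM.2.1, (F.on_iff k' u).1 hu.2.2.1]
  have e5 : F.f j w.1 = F.f k w.1 := by
    rw [(F.on_iff j w).1 hjw, (F.on_iff k w).1 hw.2.2.1]
  have e6 : F.f j w.1 < F.f M w.1 := by rw [e5]; exact hab
  rcases eq_or_lt_of_le huw with he | hlt
  · rw [← he] at e6
    rw [e4] at e6
    linarith
  · rcases lt_or_eq_of_le e9 with h | h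
    · obtain ⟨r, hr1, hr2, hr3, hr4, hr5⟩ := F.cross hM.1 hj hlt (by rw [e4]; exact h) e6
      obtain ⟨u', hu', hle⟩ := F.exists_next hM.1 hM.2.1 hu.2.2.2.2.1 hr2 hr1 hr4
      exact hno ⟨u', hu', by linarith⟩
    · have hju : F.On j u := by
        rw [F.on_iff, ← h, (F.on_iff k' u).1 hu.2.2.1]
      have hle := hM.2.2 j hj hju
      rcases lt_or_eq_of_le hle with h' | h'
      · have := F.lt_right hM.2.1 hju hlt h'
        linarith
      · have : M = j := F.inj _ hM.1 _ hj h'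
        rw [this] at e6
        exact lt_irrefl _ e6

/-- the vertical angle at c above: if c is the first vertex of a triangular face on the lower side,
then the next vertex along the line of largest slope is the upper vertex of the face. -/
theorem A4 {v u c : ℝ × ℝ} {k k' l : ι} (hr : F.RAng v k k') (hu : F.Adj k' v u) (hc : F.Adj k v c)
    (hcu : c.1 < u.1) (hcom : F.Com u c) (hl : F.MaxAt l c) : F.Adj l c u := by
  obtain ⟨m, hm, hmu, hmc⟩ := hcom
  obtain ⟨hk, hk', hkv, hk'v, hs, hcons⟩ := hr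
  have hvc : v.1 < c.1 := hc.2.2.2.2.2.1
  have hvu : v.1 < u.1 := by linarith
  have ekk' : F.f k c.1 < F.f k' c.1 := F.lt_right hkv hk'v hvc hs
  have emc : F.f m c.1 = F.f k c.1 := by
    rw [(F.on_iff m c).1 hmc, (F.on_iff k c).1 hc.2.2.1]
  have emu : F.f m u.1 = F.f k' u.1 := by
    rw [(F.on_iff m u).1 hmu, (F.on_iff k' u).1 hu.2.2.1]
  -- m is the line of largest slope at c
  have hmmax : F.MaxAt m c := by
    refine ⟨hm, hmc, fun j hj hjc => ?_⟩
    by_contra hcc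
    push Not at hcc
    have e1 : F.f m u.1 < F.f j u.1 := F.lt_right hmc hjc hcu hcc
    have e2 : F.f j c.1 = F.f k c.1 := by
      rw [(F.on_iff j c).1 hjc, (F.on_iff k c).1 hc.2.2.1]
    have e3 := F.adj_lt hu hj (x1 := c.1) (x2 := u.1) hvc.le hcu (le_refl _) (by rw [e2]; exact ekk')
    rw [← emu] at e3
    linarith
  have hml : m = l := F.maxAt_unique hmmax hl
  subst hml
  -- m has larger slope than k
  have hmk : m ≠ k := by
    rintro rfl
    have : F.f m u.1 < F.f k' u.1 := F.lt_right hkv hk'v hvu hs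
    linarith
  have hsk : F.s k < F.s m :=
    lt_of_le_of_ne (hmmax.2.2 k hk hc.2.2.1) (fun h => hmk (F.inj _ hm _ hk h.symm))
  refine ⟨hm, hmc, hmu, hc.2.2.2.2.1, hu.2.2.2.2.1, hcu, ?_⟩
  rintro r ⟨i, hi, i', hi', hii', h1, h2⟩ hmr ⟨hr1, hr2⟩
  -- a line j ≠ m through r
  obtain ⟨j, hj, hjr, hjm⟩ : ∃ j ∈ F.S, F.On j r ∧ j ≠ m := by
    by_cases h : i = m
    · exact ⟨i', hi', h2, fun h' => hii' (h.trans h'.symm)⟩
    · exact ⟨i, hi, h1, h⟩
  have ejr : F.f j r.1 = F.f m r.1 := by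
    rw [(F.on_iff j r).1 hjr, (F.on_iff m r).1 hmr]
  have g1 : F.f k r.1 < F.f m r.1 := F.lt_right hc.2.2.1 hmc hr1 hsk
  -- m below k' before u
  have smk' : F.s k' < F.s m := by
    apply F.s_lt_of_left hu.2.2.1 hmu hcu
    rw [emc]; exact ekk'
  have g2 : F.f m r.1 < F.f k' r.1 := F.lt_left hu.2.2.1 hmu hr2 smk'
  have e1 : F.f j v.1 ≤ F.f k' v.1 :=
    F.adj_lt' hu hj (x1 := v.1) (x2 := r.1) (le_refl _) (by linarith) hr2.le (by rw [ejr]; exact g2)
  have e2 : F.f j u.1 ≤ F.f k' u.1 :=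
    F.adj_lt hu hj (x1 := r.1) (x2 := u.1) (by linarith) hr2 (le_refl _) (by rw [ejr]; exact g2)
  have hne : F.s j ≠ F.s m := fun h => hjm (F.inj _ hj _ hm h)
  have e3 : F.f j u.1 < F.f m u.1 := by
    rcases lt_or_eq_of_le e2 with h | h
    · rw [emu]; exact h
    · exfalso
      have hju : F.On j u := by
        rw [F.on_iff, h, (F.on_iff k' u).1 hu.2.2.1]
      have := F.eq_of_on hj hm hjm hjr hmr hju hmu
      rw [this] at hr2
      exact lt_irrefl _ hr2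
  have s1 : F.s j < F.s m := F.s_lt_of_right hjr hmr hr2 e3
  have e4 : F.f m c.1 < F.f j c.1 := F.lt_left hjr hmr hr1 s1
  have e5 : F.f k v.1 ≤ F.f j v.1 :=
    F.adj_gt' hc hj (x1 := v.1) (x2 := c.1) (le_refl _) hvc (le_refl _) (by rw [← emc]; exact e4)
  have e8 : F.f k v.1 = F.f k' v.1 := by
    rw [(F.on_iff k v).1 hkv, (F.on_iff k' v).1 hk'v]
  have hjv : F.On j v := by
    rw [F.on_iff, ← (F.on_iff k v).1 hkv]
    linarith
  have t1 : F.s k < F.s j := by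
    apply F.s_lt_of_right hkv hjv hvc
    rw [← emc]; exact e4
  have t2 : F.s j < F.s k' := by
    apply F.s_lt_of_right hjv hk'v (x := r.1) (by linarith)
    rw [ejr]; exact g2
  exact hcons j hj hjv ⟨t1, t2⟩

end Fam
end MP9b2b
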