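import Mathlib

set_option autoImplicit false
open scoped Classical

namespace MP9b2b

/-- a finite family of non-parallel lines y = s i x + b i -/
structure Fam (ι : Type) where
  S : Finset ι
  s : ι → ℝ
  b : ι → ℝ
  inj : ∀ i ∈ S, ∀ j ∈ S, s i = s j → i = j

variable {ι : Type}

namespace Fam

variable (F : Fam ι)

def f (i : ι) (x : ℝ) : ℝ := F.s i * x + F.b i

def On (i : ι) (p : ℝ × ℝ) : Prop := F.s i * p.1 + F.b i = p.2

/-- vertices: points on at least two lines -/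
def IsV (p : ℝ × ℝ) : Prop := ∃ i ∈ F.S, ∃ j ∈ F.S, i ≠ j ∧ F.On i p ∧ F.On j p

noncomputable def X (i j : ι) : ℝ := (F.b j - F.b i) / (F.s i - F.s j)

noncomputable def V : Finset (ℝ × ℝ) :=
  F.S.offDiag.image (fun t => (F.X t.1 t.2, F.f t.1 (F.X t.1 t.2)))

theorem on_iff (i : ι) (p : ℝ × ℝ) : F.On i p ↔ F.f i p.1 = p.2 := Iff.rfl

theorem mem_V (p : ℝ × ℝ) : p ∈ F.V ↔ F.IsV p := by
  unfold V IsV
  rw [Finset.mem_image]
  constructor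
  · rintro ⟨t, ht, rfl⟩
    rw [Finset.mem_offDiag] at ht
    obtain ⟨h1, h2, h3⟩ := ht
    refine ⟨t.1, h1, t.2, h2, h3, rfl, ?_⟩
    have hs : F.s t.1 - F.s t.2 ≠ 0 := fun h => h3 (F.inj _ h1 _ h2 (by linarith))
    show F.s t.2 * F.X t.1 t.2 + F.b t.2 = F.s t.1 * F.X t.1 t.2 + F.b t.1
    unfold X
    field_simp
    ring
  · rintro ⟨i, hi, j, hj, hij, h1, h2⟩
    refine ⟨(i, j), by simp [Finset.mem_offDiag, hi, hj, hij], ?_⟩
    have hs : F.s i - F.s j ≠ 0 := fun h => hij (F.inj _ hi _ hj (by linarith))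
    have h1' : F.s i * p.1 + F.b i = p.2 := h1
    have h2' : F.s j * p.1 + F.b j = p.2 := h2
    have hx : F.X i j = p.1 := by
      unfold X
      rw [div_eq_iff hs]
      linarith
    show (F.X i j, F.f i (F.X i j)) = p
    rw [hx]
    exact Prod.ext rfl h1'

theorem eq_of_on {i j : ι} (hi : i ∈ F.S) (hj : j ∈ F.S) (hij : i ≠ j) {p q : ℝ × ℝ}
    (h1 : F.On i p) (h2 : F.On j p) (h3 : F.On i q) (h4 : F.On j q) : p = q := by
  have hs : F.s i - F.s j ≠ 0 := fun h => hij (F.inj _ hi _ hj (by linarith))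
  unfold On at h1 h2 h3 h4
  have : (F.s i - F.s j) * (p.1 - q.1) = 0 := by linarith
  have h5 : p.1 = q.1 := by
    rcases mul_eq_zero.mp this with h | h
    · exact absurd h hs
    · linarith
  exact Prod.ext h5 (by rw [← h1, ← h3, h5])

theorem eq_of_on_fst {i : ι} {p q : ℝ × ℝ} (h1 : F.On i p) (h3 : F.On i q) (h : p.1 = q.1) :
    p = q := Prod.ext h (by rw [← h1, ← h3, h])

/-- two lines through p: comparison to the right -/
theorem lt_right {i j : ι} {p : ℝ × ℝ} (h1 : F.On i p) (h2 : F.On j p) {x : ℝ} (hx : p.1 < x)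
    (hs : F.s i < F.s j) : F.f i x < F.f j x := by
  unfold On at h1 h2
  unfold f
  nlinarith

theorem lt_left {i j : ι} {p : ℝ × ℝ} (h1 : F.On i p) (h2 : F.On j p) {x : ℝ} (hx : x < p.1)
    (hs : F.s i < F.s j) : F.f j x < F.f i x := by
  unfold On at h1 h2
  unfold f
  nlinarith

theorem s_lt_of_right {i j : ι} {p : ℝ × ℝ} (h1 : F.On i p) (h2 : F.On j p) {x : ℝ} (hx : p.1 < x)
    (h : F.f i x < F.f j x) : F.s i < F.s j := by
  unfold On at h1 h2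
  unfold f at h
  by_contra hc
  push Not at hc
  nlinarith

theorem s_lt_of_left {i j : ι} {p : ℝ × ℝ} (h1 : F.On i p) (h2 : F.On j p) {x : ℝ} (hx : x < p.1)
    (h : F.f j x < F.f i x) : F.s i < F.s j := by
  unfold On at h1 h2
  unfold f at h
  by_contra hc
  push Not at hc
  nlinarith

/-- crossing: sign change gives a vertex -/
theorem cross {i j : ι} (hi : i ∈ F.S) (hj : j ∈ F.S) {x1 x2 : ℝ} (hx : x1 < x2)
    (h1 : F.f i x1 < F.f j x1) (h2 : F.f j x2 < F.f i x2) :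
    ∃ r : ℝ × ℝ, F.IsV r ∧ F.On i r ∧ F.On j r ∧ x1 < r.1 ∧ r.1 < x2 := by
  have hij : i ≠ j := by rintro rfl; exact lt_irrefl _ h1
  have hs : F.s i - F.s j ≠ 0 := fun h => hij (F.inj _ hi _ hj (by linarith))
  unfold f at h1 h2
  have hspos : 0 < F.s i - F.s j := by
    rcases lt_or_gt_of_ne hs with h | h
    · nlinarith
    · exact h
  have hon : F.On j (F.X i j, F.f i (F.X i j)) := by
    show F.s j * F.X i j + F.b j = F.s i * F.X i j + F.b i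
    unfold X
    field_simp
    ring
  refine ⟨(F.X i j, F.f i (F.X i j)), ⟨i, hi, j, hj, hij, rfl, hon⟩, rfl, hon, ?_, ?_⟩
  · show x1 < (F.b j - F.b i) / (F.s i - F.s j)
    rw [lt_div_iff₀ hspos]
    nlinarith
  · show (F.b j - F.b i) / (F.s i - F.s j) < x2
    rw [div_lt_iff₀ hspos]
    nlinarith

/-- consecutive vertices on a line -/
def Adj (i : ι) (p q : ℝ × ℝ) : Prop :=
  i ∈ F.S ∧ F.On i p ∧ F.On i q ∧ F.IsV p ∧ F.IsV q ∧ p.1 < q.1 ∧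
    ∀ r : ℝ × ℝ, F.IsV r → F.On i r → ¬ (p.1 < r.1 ∧ r.1 < q.1)

theorem exists_next {i : ι} (hi : i ∈ F.S) {p r : ℝ × ℝ} (hp : F.On i p) (hpV : F.IsV p)
    (hr : F.On i r) (hrV : F.IsV r) (hlt : p.1 < r.1) : ∃ q, F.Adj i p q ∧ q.1 ≤ r.1 := by
  have hne : (F.V.filter (fun q => F.On i q ∧ p.1 < q.1)).Nonempty :=
    ⟨r, by simp [F.mem_V, hrV, hr, hlt]⟩
  obtain ⟨q, hq, hmin⟩ := Finset.exists_min_image _ (fun q => q.1) hne
  simp only [Finset.mem_filter, F.mem_V] at hq hmin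
  refine ⟨q, ⟨hi, hp, hq.2.1, hpV, hq.1, hq.2.2, fun t ht1 ht2 ht3 => ?_⟩, hmin r ⟨hrV, hr, hlt⟩⟩
  have := hmin t ⟨ht1, ht2, ht3.1⟩
  linarith [ht3.2]

theorem adj_next_unique {i : ι} {p q q' : ℝ × ℝ} (h : F.Adj i p q) (h' : F.Adj i p q') : q = q' := by
  obtain ⟨_, _, h1, _, h2, h3, h4⟩ := h
  obtain ⟨_, _, h1', _, h2', h3', h4'⟩ := h'
  apply F.eq_of_on_fst h1 h1'
  rcases lt_trichotomy q.1 q'.1 with h | h | h
  · exact absurd ⟨h3, h⟩ (h4' q h2 h1)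
  · exact h
  · exact absurd ⟨h3', h⟩ (h4 q' h2' h1')

theorem adj_prev_unique {i : ι} {p p' q : ℝ × ℝ} (h : F.Adj i p q) (h' : F.Adj i p' q) : p = p' := by
  obtain ⟨_, h1, _, h2, _, h3, h4⟩ := h
  obtain ⟨_, h1', _, h2', _, h3', h4'⟩ := h'
  apply F.eq_of_on_fst h1 h1'
  rcases lt_trichotomy p.1 p'.1 with h | h | h
  · exact absurd ⟨h, h3'⟩ (h4 p' h2' h1')
  · exact h
  · exact absurd ⟨h, h3⟩ (h4' p h2 h1)

/-- no crossing strictly between consecutive vertices -/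
theorem adj_lt {i j : ι} {p q : ℝ × ℝ} (h : F.Adj i p q) (hj : j ∈ F.S) {x1 x2 : ℝ}
    (h1 : p.1 ≤ x1) (h12 : x1 < x2) (h2 : x2 ≤ q.1) (hlt : F.f j x1 < F.f i x1) :
    F.f j x2 ≤ F.f i x2 := by
  by_contra hc
  push Not at hc
  obtain ⟨r, hr1, hr2, hr3, hr4, hr5⟩ := F.cross hj h.1 h12 hlt hc
  exact h.2.2.2.2.2.2 r hr1 hr3 ⟨by linarith, by linarith⟩

theorem adj_gt {i j : ι} {p q : ℝ × ℝ} (h : F.Adj i p q) (hj : j ∈ F.S) {x1 x2 : ℝ}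
    (h1 : p.1 ≤ x1) (h12 : x1 < x2) (h2 : x2 ≤ q.1) (hlt : F.f i x1 < F.f j x1) :
    F.f i x2 ≤ F.f j x2 := by
  by_contra hc
  push Not at hc
  obtain ⟨r, hr1, hr2, hr3, hr4, hr5⟩ := F.cross h.1 hj h12 hlt hc
  exact h.2.2.2.2.2.2 r hr1 hr2 ⟨by linarith, by linarith⟩

theorem adj_lt' {i j : ι} {p q : ℝ × ℝ} (h : F.Adj i p q) (hj : j ∈ F.S) {x1 x2 : ℝ}
    (h1 : p.1 ≤ x1) (h12 : x1 < x2) (h2 : x2 ≤ q.1) (hlt : F.f j x2 < F.f i x2) :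
    F.f j x1 ≤ F.f i x1 := by
  by_contra hc
  push Not at hc
  obtain ⟨r, hr1, hr2, hr3, hr4, hr5⟩ := F.cross h.1 hj h12 hc hlt
  exact h.2.2.2.2.2.2 r hr1 hr2 ⟨by linarith, by linarith⟩

theorem adj_gt' {i j : ι} {p q : ℝ × ℝ} (h : F.Adj i p q) (hj : j ∈ F.S) {x1 x2 : ℝ}
    (h1 : p.1 ≤ x1) (h12 : x1 < x2) (h2 : x2 ≤ q.1) (hlt : F.f i x2 < F.f j x2) :
    F.f i x1 ≤ F.f j x1 := by
  by_contra hc
  push Not at hc
  obtain ⟨r, hr1, hr2, hr3, hr4, hr5⟩ := F.cross hj h.1 h12 hc hlt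
  exact h.2.2.2.2.2.2 r hr1 hr3 ⟨by linarith, by linarith⟩

/-- right-opening angle at v between the lines k (below) and k' (above), consecutive slopes -/
def RAng (v : ℝ × ℝ) (k k' : ι) : Prop :=
  k ∈ F.S ∧ k' ∈ F.S ∧ F.On k v ∧ F.On k' v ∧ F.s k < F.s k' ∧
    ∀ j ∈ F.S, F.On j v → ¬ (F.s k < F.s j ∧ F.s j < F.s k')

def MaxAt (k : ι) (p : ℝ × ℝ) : Prop :=
  k ∈ F.S ∧ F.On k p ∧ ∀ j ∈ F.S, F.On j p → F.s j ≤ F.s k

def MinAt (k : ι) (p : ℝ × ℝ) : Prop :=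
  k ∈ F.S ∧ F.On k p ∧ ∀ j ∈ F.S, F.On j p → F.s k ≤ F.s j

theorem maxAt_unique {k k' : ι} {p : ℝ × ℝ} (h : F.MaxAt k p) (h' : F.MaxAt k' p) : k = k' :=
  F.inj _ h.1 _ h'.1 (le_antisymm (h'.2.2 _ h.1 h.2.1) (h.2.2 _ h'.1 h'.2.1))

theorem minAt_unique {k k' : ι} {p : ℝ × ℝ} (h : F.MinAt k p) (h' : F.MinAt k' p) : k = k' :=
  F.inj _ h.1 _ h'.1 (le_antisymm (h.2.2 _ h'.1 h'.2.1) (h'.2.2 _ h.1 h.2.1))

theorem exists_minAt {p : ℝ × ℝ} (h : F.IsV p) : ∃ k, F.MinAt k p := by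
  obtain ⟨i, hi, j, hj, hij, h1, h2⟩ := h
  have hne : (F.S.filter (fun i => F.On i p)).Nonempty := ⟨i, by simp [hi, h1]⟩
  obtain ⟨k, hk, hmin⟩ := Finset.exists_min_image _ F.s hne
  simp only [Finset.mem_filter] at hk hmin
  exact ⟨k, hk.1, hk.2, fun j hj hj' => hmin j ⟨hj, hj'⟩⟩

theorem exists_maxAt {p : ℝ × ℝ} (h : F.IsV p) : ∃ k, F.MaxAt k p := by
  obtain ⟨i, hi, j, hj, hij, h1, h2⟩ := h
  have hne : (F.S.filter (fun i => F.On i p)).Nonempty := ⟨i, by simp [hi, h1]⟩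
  obtain ⟨k, hk, hmin⟩ := Finset.exists_max_image _ F.s hne
  simp only [Finset.mem_filter] at hk hmin
  exact ⟨k, hk.1, hk.2, fun j hj hj' => hmin j ⟨hj, hj'⟩⟩

theorem rang_pred_unique {v : ℝ × ℝ} {k l k' : ι} (h : F.RAng v k k') (h' : F.RAng v l k') : k = l := by
  obtain ⟨h1, h2, h3, h4, h5, h6⟩ := h
  obtain ⟨h1', h2', h3', h4', h5', h6'⟩ := h'
  apply F.inj _ h1 _ h1'
  rcases lt_trichotomy (F.s k) (F.s l) with h | h | h
  · exact absurd ⟨h, h5'⟩ (h6 l h1' h3')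
  · exact h
  · exact absurd ⟨h, h5⟩ (h6' k h1 h3)

theorem rang_succ_unique {v : ℝ × ℝ} {k l l' : ι} (h : F.RAng v k l) (h' : F.RAng v k l') : l = l' := by
  obtain ⟨h1, h2, h3, h4, h5, h6⟩ := h
  obtain ⟨h1', h2', h3', h4', h5', h6'⟩ := h'
  apply F.inj _ h2 _ h2'
  rcases lt_trichotomy (F.s l) (F.s l') with h | h | h
  · exact absurd ⟨h5, h⟩ (h6' l h2 h4)
  · exact h
  · exact absurd ⟨h5', h⟩ (h6 l' h2' h4')

/-- mirror x -> -x -/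
def mx : Fam ι where
  S := F.S
  s := fun i => - F.s i
  b := F.b
  inj := fun i hi j hj h => F.inj i hi j hj (by linarith)

/-- mirror y -> -y -/
def my : Fam ι where
  S := F.S
  s := fun i => - F.s i
  b := fun i => - F.b i
  inj := fun i hi j hj h => F.inj i hi j hj (by linarith)

def tx (p : ℝ × ℝ) : ℝ × ℝ := (-p.1, p.2)
def ty (p : ℝ × ℝ) : ℝ × ℝ := (p.1, -p.2)

@[simp] theorem tx_tx (p : ℝ × ℝ) : tx (tx p) = p := by simp [tx]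
@[simp] theorem ty_ty (p : ℝ × ℝ) : ty (ty p) = p := by simp [ty]
@[simp] theorem tx_fst (p : ℝ × ℝ) : (tx p).1 = -p.1 := rfl
@[simp] theorem ty_fst (p : ℝ × ℝ) : (ty p).1 = p.1 := rfl

theorem on_mx (i : ι) (p : ℝ × ℝ) : F.mx.On i (tx p) ↔ F.On i p := by
  unfold On mx tx
  simp

theorem on_my (i : ι) (p : ℝ × ℝ) : F.my.On i (ty p) ↔ F.On i p := by
  unfold On my ty
  simp only
  constructor
  · intro h; linarith
  · intro h; linarith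

theorem isV_mx (p : ℝ × ℝ) : F.mx.IsV (tx p) ↔ F.IsV p := by
  unfold IsV
  simp only [on_mx]
  rfl

theorem isV_my (p : ℝ × ℝ) : F.my.IsV (ty p) ↔ F.IsV p := by
  unfold IsV
  simp only [on_my]
  rfl

theorem adj_mx (i : ι) (p q : ℝ × ℝ) : F.mx.Adj i (tx q) (tx p) ↔ F.Adj i p q := by
  unfold Adj
  simp only [on_mx, isV_mx, tx_fst]
  constructor
  · rintro ⟨h1, h2, h3, h4, h5, h6, h7⟩
    refine ⟨h1, h3, h2, h5, h4, by linarith, fun r hr1 hr2 hr3 => ?_⟩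
    exact h7 (tx r) (by rwa [isV_mx]) (by rwa [on_mx]) ⟨by simp; linarith [hr3.2], by simp; linarith [hr3.1]⟩
  · rintro ⟨h1, h2, h3, h4, h5, h6, h7⟩
    refine ⟨h1, h3, h2, h5, h4, by linarith, fun r hr1 hr2 hr3 => ?_⟩
    have e : r = tx (tx r) := by simp
    rw [e, isV_mx] at hr1
    rw [e, on_mx] at hr2
    exact h7 (tx r) hr1 hr2 ⟨by simp; linarith [hr3.2], by simp; linarith [hr3.1]⟩

theorem adj_my (i : ι) (p q : ℝ × ℝ) : F.my.Adj i (ty p) (ty q) ↔ F.Adj i p q := by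
  unfold Adj
  simp only [on_my, isV_my, ty_fst]
  constructor
  · rintro ⟨h1, h2, h3, h4, h5, h6, h7⟩
    refine ⟨h1, h2, h3, h4, h5, by linarith, fun r hr1 hr2 hr3 => ?_⟩
    exact h7 (ty r) (by rwa [isV_my]) (by rwa [on_my]) ⟨by simp; linarith [hr3.1], by simp; linarith [hr3.2]⟩
  · rintro ⟨h1, h2, h3, h4, h5, h6, h7⟩
    refine ⟨h1, h2, h3, h4, h5, by linarith, fun r hr1 hr2 hr3 => ?_⟩
    have e : r = ty (ty r) := by simp
    rw [e, isV_my] at hr1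
    rw [e, on_my] at hr2
    exact h7 (ty r) hr1 hr2 ⟨by simp; linarith [hr3.1], by simp; linarith [hr3.2]⟩

theorem rang_my (v : ℝ × ℝ) (k k' : ι) : F.my.RAng (ty v) k' k ↔ F.RAng v k k' := by
  unfold RAng
  simp only [on_my]
  show (k' ∈ F.S ∧ k ∈ F.S ∧ F.On k' v ∧ F.On k v ∧ -F.s k' < -F.s k ∧
    ∀ j ∈ F.S, F.On j v → ¬ (-F.s k' < -F.s j ∧ -F.s j < -F.s k)) ↔ _
  constructor
  · rintro ⟨h1, h2, h3, h4, h5, h6⟩
    exact ⟨h2, h1, h4, h3, by linarith, fun j hj hj' h => h6 j hj hj' ⟨by linarith [h.2], by linarith [h.1]⟩⟩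
  · rintro ⟨h1, h2, h3, h4, h5, h6⟩
    exact ⟨h2, h1, h4, h3, by linarith, fun j hj hj' h => h6 j hj hj' ⟨by linarith [h.2], by linarith [h.1]⟩⟩

theorem minAt_my (k : ι) (p : ℝ × ℝ) : F.my.MinAt k (ty p) ↔ F.MaxAt k p := by
  unfold MinAt MaxAt
  simp only [on_my]
  show (k ∈ F.S ∧ F.On k p ∧ ∀ j ∈ F.S, F.On j p → -F.s k ≤ -F.s j) ↔ _
  simp only [neg_le_neg_iff]

theorem maxAt_my (k : ι) (p : ℝ × ℝ) : F.my.MaxAt k (ty p) ↔ F.MinAt k p := by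
  unfold MinAt MaxAt
  simp only [on_my]
  show (k ∈ F.S ∧ F.On k p ∧ ∀ j ∈ F.S, F.On j p → -F.s j ≤ -F.s k) ↔ _
  simp only [neg_le_neg_iff]

end Fam
end MP9b2b
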