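import Pool.Agent.Lib.MP_9b2b7a_co.Dual

set_option autoImplicit false
open scoped Classical

namespace MP9b2b

namespace Fam
variable {ι : Type} (F : Fam ι)

/-- pairs -/
theorem pairs : 2 * F.T2.card + 6 * F.T3.card ≤ F.S.card * (F.S.card - 1) := by
  have hdisj : ∀ v ∈ F.V, ∀ w ∈ F.V, v ≠ w → Disjoint ((F.L v).offDiag) ((F.L w).offDiag) := by
    intro v _ w _ hvw
    rw [Finset.disjoint_left]
    rintro ⟨p, q⟩ h1 h2
    rw [Finset.mem_offDiag] at h1 h2
    simp only [mem_L] at h1 h2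
    exact hvw (F.eq_of_on h1.1.1 h1.2.1.1 h1.2.2 h1.1.2 h1.2.1.2 h2.1.2 h2.2.1.2)
  have h1 : (F.V.biUnion (fun v => (F.L v).offDiag)).card = ∑ v ∈ F.V, ((F.L v).offDiag).card :=
    Finset.card_biUnion hdisj
  have h2 : (F.V.biUnion (fun v => (F.L v).offDiag)).card ≤ F.S.offDiag.card := by
    apply Finset.card_le_card
    intro t ht
    rw [Finset.mem_biUnion] at ht
    obtain ⟨v, -, ht⟩ := ht
    rw [Finset.mem_offDiag] at ht ⊢
    simp only [mem_L] at ht
    exact ⟨ht.1.1, ht.2.1.1, ht.2.2⟩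
  have h3 : F.S.offDiag.card = F.S.card * (F.S.card - 1) := by
    rw [Finset.offDiag_card, Nat.mul_sub_one]
  have h4 : 2 * F.T2.card + 6 * F.T3.card ≤ ∑ v ∈ F.V, ((F.L v).offDiag).card := by
    unfold T2 T3
    rw [Finset.card_filter, Finset.card_filter, Finset.mul_sum, Finset.mul_sum,
      ← Finset.sum_add_distrib]
    apply Finset.sum_le_sum
    intro v _
    rw [Finset.offDiag_card]
    by_cases h : (F.L v).card = 2
    · rw [h]; simp
    · by_cases h' : (F.L v).card = 3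
      · rw [h']; simp
      · simp [h, h']
  omega

theorem L_eq {v w : ℝ × ℝ} (hvw : v ≠ w) {a b : ι} (h1 : a ∈ F.L v) (h2 : a ∈ F.L w)
    (h3 : b ∈ F.L v) (h4 : b ∈ F.L w) : a = b := by
  rw [mem_L] at h1 h2 h3 h4
  by_contra hab
  exact hvw (F.eq_of_on h1.1 h3.1 hab h1.2 h3.2 h2.2 h4.2)

noncomputable def V4 : Finset (ℝ × ℝ) := F.V.filter (fun v => 4 ≤ (F.L v).card)

end Fam

variable {A : Finset (ℝ × ℝ)} {ε : ℝ}
  {h : ∀ p ∈ A, ∀ q ∈ A, p.1 + ε * p.2 = q.1 + ε * q.2 → p = q}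

theorem L_inter {v w : ℝ × ℝ} (hvw : v ≠ w) :
    (((dual A ε h).L v) ∩ ((dual A ε h).L w)).card ≤ 1 := by
  rw [Finset.card_le_one]
  intro a ha b hb
  rw [Finset.mem_inter] at ha hb
  exact (dual A ε h).L_eq hvw ha.1 ha.2 hb.1 hb.2

theorem three_union (hno : ¬ KOn 10 A) (v1 v2 v3 : ℝ × ℝ) :
    ((dual A ε h).L v1 ∪ (dual A ε h).L v2 ∪ (dual A ε h).L v3).card ≤ 9 := by
  by_contra hc
  apply hno
  refine kOn_of (U := (dual A ε h).L v1 ∪ (dual A ε h).L v2 ∪ (dual A ε h).L v3) ?_ (by omega)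
    (p := lin ε v1 * lin ε v2 * lin ε v3)
    (mul_ne_zero (mul_ne_zero (lin_ne _ _) (lin_ne _ _)) (lin_ne _ _))
    (deg_mul3 (deg_lin _ _) (deg_lin _ _) (deg_lin _ _)) ?_
  · intro x hx
    rw [Finset.mem_union, Finset.mem_union] at hx
    rcases hx with (hx | hx) | hx <;> exact ((Fam.mem_L _ _ _).1 hx).1
  · intro x hx
    rw [map_mul, map_mul]
    rw [Finset.mem_union, Finset.mem_union] at hx
    rcases hx with (hx | hx) | hx
    · rw [(on_dual x v1).1 ((Fam.mem_L _ _ _).1 hx).2]; ring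
    · rw [(on_dual x v2).1 ((Fam.mem_L _ _ _).1 hx).2]; ring
    · rw [(on_dual x v3).1 ((Fam.mem_L _ _ _).1 hx).2]; ring

theorem three_four (hno : ¬ KOn 10 A) {v1 v2 v3 : ℝ × ℝ} (h12 : v1 ≠ v2) (h13 : v1 ≠ v3) (h23 : v2 ≠ v3)
    (h1 : v1 ∈ (dual A ε h).V4) (h2 : v2 ∈ (dual A ε h).V4) (h3 : v3 ∈ (dual A ε h).V4) :
    ((dual A ε h).L v1).card = 4 ∧ ((dual A ε h).L v1 ∩ (dual A ε h).L v2).card = 1 ∧
    ((dual A ε h).L v1 ∩ (dual A ε h).L v2 ∩ (dual A ε h).L v3) = ∅ := by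
  have hu := three_union (h := h) hno v1 v2 v3
  unfold Fam.V4 at h1 h2 h3
  rw [Finset.mem_filter] at h1 h2 h3
  have i12 := L_inter (h := h) h12
  have i13 := L_inter (h := h) h13
  have i23 := L_inter (h := h) h23
  have e1 := Finset.card_union_add_card_inter ((dual A ε h).L v1) ((dual A ε h).L v2)
  have e2 := Finset.card_union_add_card_inter ((dual A ε h).L v1 ∪ (dual A ε h).L v2) ((dual A ε h).L v3)
  have e3 : ((dual A ε h).L v1 ∪ (dual A ε h).L v2) ∩ (dual A ε h).L v3 =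
      ((dual A ε h).L v1 ∩ (dual A ε h).L v3) ∪ ((dual A ε h).L v2 ∩ (dual A ε h).L v3) :=
    Finset.union_inter_distrib_right _ _ _
  have e4 := Finset.card_union_add_card_inter ((dual A ε h).L v1 ∩ (dual A ε h).L v3)
    ((dual A ε h).L v2 ∩ (dual A ε h).L v3)
  have e5 : ((dual A ε h).L v1 ∩ (dual A ε h).L v2 ∩ (dual A ε h).L v3) ⊆
    ((dual A ε h).L v1 ∩ (dual A ε h).L v3) ∩ ((dual A ε h).L v2 ∩ (dual A ε h).L v3) := by
    intro x hx
    simp only [Finset.mem_inter] at hx ⊢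
    exact ⟨⟨hx.1.1, hx.2⟩, hx.1.2, hx.2⟩
  have e6 := Finset.card_le_card e5
  rw [e3] at e2
  refine ⟨by omega, by omega, ?_⟩
  rw [← Finset.card_eq_zero]
  omega

theorem V4_card (hno : ¬ KOn 10 A) : ((dual A ε h).V4).card ≤ 5 := by
  by_contra hc
  push Not at hc
  obtain ⟨v1, hv1⟩ : ((dual A ε h).V4).Nonempty := by
    rw [← Finset.card_pos]; omega
  have hE : 5 ≤ (((dual A ε h).V4).erase v1).card := by
    rw [Finset.card_erase_of_mem hv1]; omega
  -- the point of intersection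
  have hex : ∀ w ∈ ((dual A ε h).V4).erase v1, ∃ x, x ∈ (dual A ε h).L v1 ∩ (dual A ε h).L w := by
    intro w hw
    rw [Finset.mem_erase] at hw
    obtain ⟨w', hw'⟩ : ((((dual A ε h).V4).erase v1).erase w).Nonempty := by
      rw [← Finset.card_pos, Finset.card_erase_of_mem (by rw [Finset.mem_erase]; exact hw)]
      omega
    rw [Finset.mem_erase, Finset.mem_erase] at hw'
    have := (three_four hno (Ne.symm hw.1) (Ne.symm hw'.2.1) (Ne.symm hw'.1) hv1 hw.2 hw'.2.2).2.1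
    obtain ⟨x, hx⟩ := Finset.card_eq_one.1 this
    exact ⟨x, by rw [hx]; exact Finset.mem_singleton_self _⟩
  have h4 : ((dual A ε h).L v1).card = 4 := by
    obtain ⟨w, hw⟩ : (((dual A ε h).V4).erase v1).Nonempty := by
      rw [← Finset.card_pos]; omega
    obtain ⟨w', hw'⟩ : ((((dual A ε h).V4).erase v1).erase w).Nonempty := by
      rw [← Finset.card_pos, Finset.card_erase_of_mem hw]
      omega
    rw [Finset.mem_erase] at hw
    rw [Finset.mem_erase, Finset.mem_erase] at hw'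
    exact (three_four hno (Ne.symm hw.1) (Ne.symm hw'.2.1) (Ne.symm hw'.1) hv1 hw.2 hw'.2.2).1
  have : (((dual A ε h).V4).erase v1).card ≤ ((dual A ε h).L v1).card := by
    apply Finset.card_le_card_of_injOn
      (fun w => if hw : ∃ x, x ∈ (dual A ε h).L v1 ∩ (dual A ε h).L w then hw.choose else v1)
    · intro w hw
      have hw' := hex w hw
      simp only [dif_pos hw']
      exact (Finset.mem_inter.1 hw'.choose_spec).1
    · intro w hw w' hw' he
      have g1 := hex w hw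
      have g2 := hex w' hw'
      simp only [dif_pos g1, dif_pos g2] at he
      by_contra hne
      have hw := Finset.mem_erase.1 (Finset.mem_coe.1 hw)
      have hw' := Finset.mem_erase.1 (Finset.mem_coe.1 hw')
      have := (three_four hno (Ne.symm hw.1) (Ne.symm hw'.1) hne hv1 hw.2 hw'.2).2.2
      have s1 := g1.choose_spec
      have s2 := g2.choose_spec
      rw [← he] at s2
      have : g1.choose ∈ (∅ : Finset (ℝ × ℝ)) := by
        rw [← this, Finset.mem_inter]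
        exact ⟨s1, (Finset.mem_inter.1 s2).2⟩
      exact absurd this (Finset.notMem_empty _)
  omega

/-- a collinear subset lies on a vertex -/
theorem collinear_vertex {s : Finset (ℝ × ℝ)} (hs : s ⊆ A) (h2 : 2 ≤ s.card)
    (hc : Collinear ℝ (s : Set (ℝ × ℝ))) : ∃ v ∈ (dual A ε h).V, s ⊆ (dual A ε h).L v := by
  obtain ⟨p, hp, q, hq, hpq⟩ := Finset.one_lt_card.1 (by omega : 1 < s.card)
  rw [collinear_iff_exists_forall_eq_smul_vadd] at hc
  obtain ⟨p0, d, hd⟩ := hc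
  have key : ∀ x ∈ s, ∃ r : ℝ, x.1 = p0.1 + r * d.1 ∧ x.2 = p0.2 + r * d.2 := by
    intro x hx
    obtain ⟨r, hr⟩ := hd x (Finset.mem_coe.2 hx)
    refine ⟨r, ?_, ?_⟩
    · rw [hr]; simp [add_comm]
    · rw [hr]; simp [add_comm]
  have hsd : d.1 + ε * d.2 ≠ 0 := by
    intro h0
    apply hpq
    obtain ⟨r, hr1, hr2⟩ := key p hp
    obtain ⟨r', hr1', hr2'⟩ := key q hq
    apply h p (hs hp) q (hs hq)
    rw [hr1, hr2, hr1', hr2']
    have e1 : p0.1 + r * d.1 + ε * (p0.2 + r * d.2) = p0.1 + ε * p0.2 + r * (d.1 + ε * d.2) := by ring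
    have e2 : p0.1 + r' * d.1 + ε * (p0.2 + r' * d.2) = p0.1 + ε * p0.2 + r' * (d.1 + ε * d.2) := by ring
    rw [e1, e2, h0]; ring
  set x0 : ℝ := -d.2 / (d.1 + ε * d.2) with hx0
  have hx0' : x0 * (d.1 + ε * d.2) = -d.2 := by rw [hx0]; exact div_mul_cancel₀ _ hsd
  set y0 : ℝ := (p0.1 + ε * p0.2) * x0 + p0.2 with hy0
  have hon : ∀ x ∈ s, (dual A ε h).On x (x0, y0) := by
    intro x hx
    obtain ⟨r, hr1, hr2⟩ := key x hx
    show (x.1 + ε * x.2) * x0 + x.2 = y0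
    rw [hr1, hr2, hy0]
    linear_combination r * hx0'
  refine ⟨(x0, y0), ?_, ?_⟩
  · rw [Fam.mem_V]
    exact ⟨p, hs hp, q, hs hq, hpq, hon p hp, hon q hq⟩
  · intro x hx
    rw [Fam.mem_L]
    exact ⟨hs hx, hon x hx⟩

theorem triples_le (hno : ¬ KOn 10 A) :
    ((A.powersetCard 3).filter (fun s : Finset (ℝ × ℝ) => Collinear ℝ (s : Set (ℝ × ℝ)))).card ≤
      (dual A ε h).T3.card + 420 := by
  have h1 : ((A.powersetCard 3).filter (fun s : Finset (ℝ × ℝ) => Collinear ℝ (s : Set (ℝ × ℝ)))) ⊆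
      (dual A ε h).V.biUnion (fun v => ((dual A ε h).L v).powersetCard 3) := by
    intro s hs
    rw [Finset.mem_filter, Finset.mem_powersetCard] at hs
    obtain ⟨v, hv, hsv⟩ := collinear_vertex (h := h) hs.1.1 (by omega) hs.2
    rw [Finset.mem_biUnion]
    exact ⟨v, hv, by rw [Finset.mem_powersetCard]; exact ⟨hsv, hs.1.2⟩⟩
  have h9 : ∀ v, ((dual A ε h).L v).card ≤ 9 := by
    intro v
    have := three_union (h := h) hno v v v
    rwa [Finset.union_self, Finset.union_self] at this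
  have h2 : ∑ v ∈ (dual A ε h).V, (((dual A ε h).L v).powersetCard 3).card ≤
      (dual A ε h).T3.card + 84 * (dual A ε h).V4.card := by
    unfold Fam.T3 Fam.V4
    rw [Finset.card_filter, Finset.card_filter, Finset.mul_sum, ← Finset.sum_add_distrib]
    apply Finset.sum_le_sum
    intro v hv
    rw [Finset.card_powersetCard]
    have := h9 v
    have h2L := (dual A ε h).two_le_L (((dual A ε h).mem_V v).1 hv)
    interval_cases hc : ((dual A ε h).L v).card <;> simp [Nat.choose] 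
  have h3 := V4_card (h := h) hno
  calc _ ≤ _ := Finset.card_le_card h1
    _ ≤ _ := Finset.card_biUnion_le
    _ ≤ _ := h2
    _ ≤ _ := by omega

/-- the near maximal case -/
theorem near_maximal (c : ℝ) (hc : 4 / 25 < c) :
    ∃ N : ℕ, ∀ A : Finset (ℝ × ℝ), N ≤ A.card →
      c * ((A.card : ℝ) ^ 2) ≤
        (((A.powersetCard 3).filter (fun s : Finset (ℝ × ℝ) => Collinear ℝ (s : Set (ℝ × ℝ)))).card : ℝ) →
      ∃ B : Finset (ℝ × ℝ), B ⊆ A ∧ B.card = 10 ∧
        ∃ p : MvPolynomial (Fin 2) ℝ, p ≠ 0 ∧ p.totalDegree ≤ 3 ∧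
          ∀ x ∈ B, MvPolynomial.eval ![x.1, x.2] p = 0 := by
  obtain ⟨N, hN⟩ := exists_nat_gt (max 10 (422 / (c - 4 / 25)))
  refine ⟨N, fun A hA hT => ?_⟩
  by_contra hno
  have hno : ¬ KOn 10 A := hno
  obtain ⟨ε, h⟩ := exists_eps A
  have hn : (N : ℝ) ≤ A.card := by exact_mod_cast hA
  have hn10 : (10 : ℝ) < A.card := lt_of_lt_of_le (lt_of_le_of_lt (le_max_left _ _) hN) hn
  have hnc : 422 / (c - 4 / 25) < A.card := lt_of_lt_of_le (lt_of_le_of_lt (le_max_right _ _) hN) hn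
  have hA10 : 10 ≤ A.card := by
    have : (10 : ℝ) ≤ A.card := hn10.le
    exact_mod_cast this
  have hT3 : (dual A ε h).T3.card ≤ 8 * (dual A ε h).T2.card + 12 * A.card := by
    by_contra hlt
    push Not at hlt
    obtain ⟨g, hg⟩ := (dual A ε h).exists_grid hlt
    exact hno (grid_ten hg hA10)
  have hp := (dual A ε h).pairs
  have hS : (dual A ε h).S.card = A.card := rfl
  rw [hS] at hp
  have htr := triples_le (h := h) hno
  have hp' : 2 * ((dual A ε h).T2.card : ℝ) + 6 * ((dual A ε h).T3.card : ℝ) ≤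
      (A.card : ℝ) * ((A.card : ℝ) - 1) := by
    have : ((A.card * (A.card - 1) : ℕ) : ℝ) = (A.card : ℝ) * ((A.card : ℝ) - 1) := by
      rw [Nat.cast_mul, Nat.cast_sub (by omega)]
      simp
    rw [← this]
    exact_mod_cast hp
  have hT3' : ((dual A ε h).T3.card : ℝ) ≤ 8 * ((dual A ε h).T2.card : ℝ) + 12 * (A.card : ℝ) := by
    exact_mod_cast hT3
  have htr' : (((A.powersetCard 3).filter (fun s : Finset (ℝ × ℝ) => Collinear ℝ (s : Set (ℝ × ℝ)))).card : ℝ) ≤
      ((dual A ε h).T3.card : ℝ) + 420 := by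
    exact_mod_cast htr
  rw [div_lt_iff₀ (by linarith)] at hnc
  set n : ℝ := (A.card : ℝ) with hndef
  have e1 : 25 * ((dual A ε h).T3.card : ℝ) ≤ 4 * n ^ 2 + 8 * n := by nlinarith
  have e2 : (c - 4 / 25) * n ^ 2 ≤ 8 / 25 * n + 420 := by nlinarith
  nlinarith

end MP9b2b
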