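import Pool.Agent.Lib.MP_9b2b7a_co.Need

set_option autoImplicit false
open scoped Classical

namespace MP9b2b
namespace Fam

variable {ι : Type} (F : Fam ι)

theorem mem_GT_of {v u w : ℝ × ℝ} {k k' : ι} (hr : F.RAng v k k') (hu : F.Adj k' v u)
    (hw : F.Adj k v w) (hc : F.Com u w) : (v, k, k') ∈ F.GT := by
  unfold GT
  rw [Finset.mem_filter, mem_RA]
  exact ⟨hr, u, w, hu, hw, hc⟩

theorem mem_PG_of {v u w : ℝ × ℝ} {k k' : ι} (hr : F.RAng v k k') (hu : F.Adj k' v u)
    (hw : F.Adj k v w) (hc : F.Com u w) :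
    (u.1 ≤ w.1 → (u, false) ∈ F.PG) ∧ (w.1 < u.1 → (w, true) ∈ F.PG) := by
  have hG := F.mem_GT_of hr hu hw hc
  have h := F.ch_true hr hu hw
  constructor
  · intro h1
    rcases h with ⟨-, h⟩ | ⟨h, -⟩
    · unfold PG
      rw [Finset.mem_filter]
      exact ⟨by simp [mem_V, hu.2.2.2.2.1], _, hG, h⟩
    · linarith
  · intro h1
    rcases h with ⟨h, -⟩ | ⟨-, h⟩
    · linarith
    · unfold PG
      rw [Finset.mem_filter]
      exact ⟨by simp [mem_V, hw.2.2.2.2.1], _, hG, h⟩

theorem ag_hex {c : ℝ × ℝ} (hc : (F.L c).card = 3) (hA : F.AG c)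
    (hN : ∀ d p, F.Nx d c p → 3 ≤ (F.L p).card) : ∃ g : Fin 3 → Fin 3 → ι, F.Grid g := by
  have hV : F.IsV c := F.card_L_isV (by omega)
  obtain ⟨l1, hm⟩ := F.exists_minAt hV
  obtain ⟨l3, hM⟩ := F.exists_maxAt hV
  apply F.hex hc
  · intro k k' hr
    obtain ⟨-, q, q', h1, h2, h3⟩ := hA (k, true) (k', true) (Or.inl ⟨rfl, hr⟩)
    rcases h1 with ⟨-, h1⟩ | ⟨h1, -⟩
    · rcases h2 with ⟨-, h2⟩ | ⟨h2, -⟩
      · exact F.mem_GT_of hr h2 h1 (F.com_symm h3)
      · exact absurd h2 (by simp)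
    · exact absurd h1 (by simp)
  · intro k k' hr
    have hr' := (F.rang_mx c k' k).1 hr
    obtain ⟨-, q, q', h1, h2, h3⟩ := hA (k', false) (k, false) (Or.inl ⟨rfl, hr'⟩)
    rcases h1 with ⟨h1, -⟩ | ⟨-, h1⟩
    · exact absurd h1 (by simp)
    · rcases h2 with ⟨h2, -⟩ | ⟨-, h2⟩
      · exact absurd h2 (by simp)
      · exact F.mx.mem_GT_of hr ((F.adj_mx k' q c).2 h1) ((F.adj_mx k q' c).2 h2) ((F.com_mx q q').2 h3)
  · obtain ⟨-, q, q', h1, h2, h3⟩ := hA (l3, true) (l1, false) (Or.inr ⟨rfl, hM, hm⟩)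
    rcases h1 with ⟨-, h1⟩ | ⟨h1, -⟩
    · rcases h2 with ⟨h2, -⟩ | ⟨-, h2⟩
      · exact absurd h2 (by simp)
      · obtain ⟨m, hmS, hmq, hmq'⟩ := h3
        have a1 := F.top_rang hM hm h1 h2 hmS hmq' hmq
        have a3 := F.top_adj hM hm h1 h2 hmS hmq' hmq
        exact (F.mem_PG_of a1 a3 h2 ⟨l3, h1.1, h1.2.2.1, h1.2.1⟩).2 h1.2.2.2.2.2.1
    · exact absurd h1 (by simp)
  · obtain ⟨-, q, q', h1, h2, h3⟩ := hA (l3, false) (l1, true) (Or.inr ⟨rfl, hM, hm⟩)
    rcases h1 with ⟨h1, -⟩ | ⟨-, h1⟩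
    · exact absurd h1 (by simp)
    · rcases h2 with ⟨-, h2⟩ | ⟨h2, -⟩
      · obtain ⟨m, hmS, hmq, hmq'⟩ := h3
        have a1 := F.my.top_rang ((F.maxAt_my l1 c).2 hm) ((F.minAt_my l3 c).2 hM)
          ((F.adj_my l1 c q').2 h2) ((F.adj_my l3 q c).2 h1) hmS ((F.on_my m q).2 hmq)
          ((F.on_my m q').2 hmq')
        have a3 := F.my.top_adj ((F.maxAt_my l1 c).2 hm) ((F.minAt_my l3 c).2 hM)
          ((F.adj_my l1 c q').2 h2) ((F.adj_my l3 q c).2 h1) hmS ((F.on_my m q).2 hmq)
          ((F.on_my m q').2 hmq')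
        rw [rang_my] at a1
        rw [adj_my] at a3
        exact (F.mem_PG_of a1 h1 a3 ⟨l1, h2.1, h2.2.1, h2.2.2.1⟩).1 h2.2.2.2.2.2.1.le
      · exact absurd h2 (by simp)
  · intro l p h
    rcases h with h | h
    · exact hN (l, true) p (Or.inl ⟨rfl, h⟩)
    · exact hN (l, false) p (Or.inr ⟨rfl, h⟩)

noncomputable def badN (p : ℝ × ℝ) : ℕ := (F.Bad.filter (fun t => t.1 = p)).card

noncomputable def GG : Finset (ℝ × ℝ) := F.T3.filter (fun c => F.AG c)

noncomputable def ND (p : ℝ × ℝ) : Finset (ι × Bool) :=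
  (F.S ×ˢ (Finset.univ : Finset Bool)).filter (fun d => ∃ c ∈ F.GG, F.Nx d p c)

def Tame (p : ℝ × ℝ) : Prop := ∀ d q, F.Nx d p q → (F.L q).card ≤ 3

theorem sum_badN : ∑ p ∈ F.V, F.badN p = F.Bad.card := by
  unfold badN
  symm
  apply Finset.card_eq_sum_card_fiberwise
  intro t ht
  rw [Finset.mem_coe, mem_V]
  exact (F.mem_Bad ht).1

theorem badN_pos {c : ℝ × ℝ} (hV : F.IsV c) {d d' : ι × Bool} (hs : F.Su c d d') (hT : ¬ F.TA c d d') :
    1 ≤ F.badN c := by
  unfold badN
  rw [Nat.succ_le_iff, Finset.card_pos]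
  refine ⟨(c, d, d'), ?_⟩
  rw [Finset.mem_filter]
  unfold Bad
  rw [Finset.mem_filter]
  exact ⟨⟨F.su_isV hs hV, hT⟩, rfl⟩

theorem badN_ag {c : ℝ × ℝ} (hV : F.IsV c) (h : ¬ F.AG c) : 1 ≤ F.badN c := by
  unfold AG at h
  push Not at h
  obtain ⟨d, d', h1, h2⟩ := h
  exact F.badN_pos hV h1 h2

theorem ND_sub (p : ℝ × ℝ) : F.ND p ⊆ (F.L p) ×ˢ (Finset.univ : Finset Bool) := by
  intro d hd
  unfold ND at hd
  rw [Finset.mem_filter] at hd
  obtain ⟨-, c, -, h⟩ := hd
  have := F.nx_data h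
  rw [Finset.mem_product, mem_L]
  exact ⟨⟨this.1, this.2.1⟩, Finset.mem_univ _⟩

theorem ND_le4 {p : ℝ × ℝ} (hp : (F.L p).card = 2) : (F.ND p).card ≤ 4 := by
  have := Finset.card_le_card (F.ND_sub p)
  rw [Finset.card_product, hp, Finset.card_univ, Fintype.card_bool] at this
  exact this

theorem ND_le {p : ℝ × ℝ} (hp : (F.L p).card = 2) (ht : F.Tame p) : (F.ND p).card ≤ 1 + F.badN p := by
  have hV : F.IsV p := F.card_L_isV (by omega)
  by_cases hA : F.AG p
  · have : (F.ND p).card ≤ 1 := by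
      rw [Finset.card_le_one]
      intro d hd d' hd'
      have s1 := F.ND_sub p hd
      have s2 := F.ND_sub p hd'
      rw [Finset.mem_product] at s1 s2
      unfold ND at hd hd'
      rw [Finset.mem_filter] at hd hd'
      obtain ⟨-, c, hc, hn⟩ := hd
      obtain ⟨-, c', hc', hn'⟩ := hd'
      unfold GG T3 at hc hc'
      rw [Finset.mem_filter, Finset.mem_filter] at hc hc'
      by_contra hne
      -- successors of d
      obtain ⟨d2, s⟩ := F.exists_su hV s1.1
      obtain ⟨d3, s'⟩ := F.exists_su hV (F.su_data s).2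
      have e := F.cyc2 hp s s'
      subst e
      have s3 : F.Su p (op d2) d := by
        have := F.su_op.2 s'
        rwa [op_op] at this
      have hl : d.1 ≠ d2.1 := F.su_ne hV s
      have hd'l : d'.1 = d.1 ∨ d'.1 = d2.1 := by
        by_contra hcon
        push Not at hcon
        have h3 : ({d.1, d2.1, d'.1} : Finset ι).card = 3 := by
          rw [Finset.card_insert_of_notMem, Finset.card_pair hcon.2.symm]
          simp [hl, hcon.1.symm]
        have h4 : ({d.1, d2.1, d'.1} : Finset ι) ⊆ F.L p := by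
          intro x hx
          rw [Finset.mem_insert, Finset.mem_insert, Finset.mem_singleton] at hx
          rcases hx with rfl | rfl | rfl
          · exact s1.1
          · exact (F.su_data s).2
          · exact s2.1
        have := Finset.card_le_card h4
        omega
      rcases hd'l with h | h
      · have hop : d' = op d := by
          obtain ⟨x, b⟩ := d
          obtain ⟨x', b'⟩ := d'
          simp only at h
          subst h
          unfold op
          cases b <;> cases b' <;> simp_all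
        subst hop
        exact F.need_opp hp hA ht s hn hn' hc.1.2 hc.2 hc'.1.2 hc'.2
      · by_cases hb : d' = d2
        · subst hb
          exact F.need_adj hp hA ht s hn hn' hc.1.2 hc.2 hc'.1.2 hc'.2
        · have hop : d' = op d2 := by
            obtain ⟨x, b⟩ := d2
            obtain ⟨x', b'⟩ := d'
            simp only at h
            subst h
            unfold op
            cases b <;> cases b' <;> simp_all
          subst hop
          exact F.need_adj hp hA ht s3 hn' hn hc'.1.2 hc'.2 hc.1.2 hc.2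
    omega
  · have h1 := F.badN_ag hV hA
    unfold AG at hA
    push Not at hA
    obtain ⟨d, d', hs, hT⟩ := hA
    have hsub : F.ND p ⊆ ((F.L p) ×ˢ (Finset.univ : Finset Bool)) \ {d, d'} := by
      intro x hx
      rw [Finset.mem_sdiff]
      refine ⟨F.ND_sub p hx, fun hc => ?_⟩
      unfold ND at hx
      rw [Finset.mem_filter] at hx
      obtain ⟨-, c, hcG, hn⟩ := hx
      unfold GG at hcG
      rw [Finset.mem_filter] at hcG
      rw [Finset.mem_insert, Finset.mem_singleton] at hc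
      rcases hc with rfl | rfl
      · exact hT (F.prop_succ hcG.2 hn hs)
      · exact hT (F.prop_pred hcG.2 hn hs)
    have h2 := Finset.card_le_card hsub
    have hdd : d ≠ d' := by
      rintro rfl
      exact F.su_ne hV hs rfl
    have h3 : ({d, d'} : Finset (ι × Bool)) ⊆ (F.L p) ×ˢ (Finset.univ : Finset Bool) := by
      intro x hx
      rw [Finset.mem_insert, Finset.mem_singleton] at hx
      rw [Finset.mem_product]
      rcases hx with rfl | rfl
      · exact ⟨(F.su_data hs).1, Finset.mem_univ _⟩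
      · exact ⟨(F.su_data hs).2, Finset.mem_univ _⟩
    have h4 := Finset.card_sdiff_add_card_eq_card h3
    rw [Finset.card_pair hdd, Finset.card_product, hp, Finset.card_univ, Fintype.card_bool] at h4
    omega

theorem GG_le (hno : ¬ ∃ g : Fin 3 → Fin 3 → ι, F.Grid g) : F.GG.card ≤ ∑ p ∈ F.T2, (F.ND p).card := by
  rw [← Finset.card_sigma]
  apply Finset.card_le_card_of_forall_subsingleton
    (fun (c : ℝ × ℝ) (t : Σ _ : ℝ × ℝ, ι × Bool) => F.Nx t.2 t.1 c)
  · intro c hc
    have hc' := hc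
    unfold GG T3 at hc
    rw [Finset.mem_filter, Finset.mem_filter] at hc
    by_contra hcon
    apply hno
    apply F.ag_hex hc.1.2 hc.2
    intro d p hn
    by_contra h3
    apply hcon
    have D := F.nx_data hn
    have h2 := F.two_le_L D.2.2.2.2.1
    have hn' := F.nx_op.2 hn
    refine ⟨⟨p, op d⟩, ?_, hn'⟩
    rw [Finset.mem_sigma]
    unfold T2 ND
    rw [Finset.mem_filter, Finset.mem_filter, mem_V]
    refine ⟨⟨D.2.2.2.2.1, show (F.L p).card = 2 by omega⟩, ?_, c, hc', hn'⟩
    simp [op, D.1]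
  · intro t _ c hc c' hc'
    simp only [Set.mem_ofPred_eq] at hc hc'
    exact F.nx_unique hc.2 hc'.2

theorem NT_le : (F.T2.filter (fun p => ¬ F.Tame p)).card ≤ ∑ v ∈ F.Q4, 2 * (F.L v).card := by
  have : ∑ v ∈ F.Q4, 2 * (F.L v).card =
      (F.Q4.sigma (fun v => (F.L v) ×ˢ (Finset.univ : Finset Bool))).card := by
    rw [Finset.card_sigma]
    apply Finset.sum_congr rfl
    intro v _
    rw [Finset.card_product, Finset.card_univ, Fintype.card_bool, mul_comm]
  rw [this]
  apply Finset.card_le_card_of_forall_subsingleton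
    (fun (p : ℝ × ℝ) (t : Σ _ : ℝ × ℝ, ι × Bool) => F.Nx t.2 t.1 p)
  · intro p hp
    rw [Finset.mem_filter] at hp
    unfold Tame at hp
    push Not at hp
    obtain ⟨-, d, q, hn, h3⟩ := hp
    have D := F.nx_data hn
    refine ⟨⟨q, op d⟩, ?_, F.nx_op.2 hn⟩
    rw [Finset.mem_sigma]
    unfold Q4
    rw [Finset.mem_filter, mem_V, Finset.mem_product, mem_L]
    exact ⟨⟨D.2.2.2.2.1, show 4 ≤ (F.L q).card by omega⟩, ⟨D.1, D.2.2.1⟩, Finset.mem_univ _⟩
  · intro t _ c hc c' hc'
    simp only [Set.mem_ofPred_eq] at hc hc'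
    exact F.nx_unique hc.2 hc'.2

/-- without a grid there are at most 5 t_2 + O(n) triple points -/
theorem T3_le (hno : ¬ ∃ g : Fin 3 → Fin 3 → ι, F.Grid g) :
    F.T3.card ≤ 5 * F.T2.card + 12 * F.S.card + 6 * ∑ v ∈ F.Q4, (F.L v).card := by
  have h1 := F.card_Bad
  have h2 := F.sum_badN
  have h3 := F.GG_le hno
  have h4 := F.NT_le
  have hsplit : F.T3.card ≤ ∑ c ∈ F.T3, F.badN c + F.GG.card := by
    have e : F.T3.card = (F.T3.filter (fun c => ¬ F.AG c)).card + (F.T3.filter (fun c => F.AG c)).card := by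
      rw [add_comm]
      exact (Finset.card_filter_add_card_filter_not _).symm
    have e2 : (F.T3.filter (fun c => ¬ F.AG c)).card ≤ ∑ c ∈ F.T3, F.badN c := by
      rw [Finset.card_filter]
      apply Finset.sum_le_sum
      intro c hc
      unfold T3 at hc
      rw [Finset.mem_filter, mem_V] at hc
      split_ifs with h
      · exact Nat.zero_le _
      · exact F.badN_ag hc.1 h
    unfold GG
    omega
  have hsum : ∑ c ∈ F.T3, F.badN c + ∑ c ∈ F.T2, F.badN c ≤ ∑ c ∈ F.V, F.badN c := by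
    rw [← Finset.sum_union]
    · apply Finset.sum_le_sum_of_subset
      intro x hx
      rw [Finset.mem_union] at hx
      unfold T3 T2 at hx
      rcases hx with hx | hx <;> exact (Finset.mem_filter.1 hx).1
    · rw [Finset.disjoint_left]
      intro x hx hx'
      unfold T3 at hx
      unfold T2 at hx'
      rw [Finset.mem_filter] at hx hx'
      omega
  have hND : ∑ p ∈ F.T2, (F.ND p).card ≤ ∑ p ∈ F.T2, (1 + F.badN p) +
      3 * (F.T2.filter (fun p => ¬ F.Tame p)).card := by
    rw [Finset.card_filter, Finset.mul_sum, ← Finset.sum_add_distrib]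
    apply Finset.sum_le_sum
    intro p hp
    unfold T2 at hp
    rw [Finset.mem_filter] at hp
    split_ifs with h
    · have := F.ND_le hp.2 h
      omega
    · have := F.ND_le4 hp.2
      omega
  rw [Finset.sum_add_distrib, Finset.sum_const, smul_eq_mul, mul_one] at hND
  rw [← Finset.mul_sum] at h4
  omega

end Fam
end MP9b2b
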