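import Pool.Agent.Lib.MP_9b2b7a_co.Final
import Pool.Agent.Lib.MP_9b2b7a_co.Sharp

set_option autoImplicit false
open scoped Classical

namespace MP9b2b

variable {A : Finset (ℝ × ℝ)} {ε : ℝ}
  {h : ∀ p ∈ A, ∀ q ∈ A, p.1 + ε * p.2 = q.1 + ε * q.2 → p = q}

theorem sumQ4_le (hno : ¬ KOn 10 A) :
    ∑ v ∈ (dual A ε h).Q4, ((dual A ε h).L v).card ≤ 45 := by
  have h1 : (dual A ε h).Q4 = (dual A ε h).V4 := rfl
  have h2 := V4_card (h := h) hno
  have h9 : ∀ v ∈ (dual A ε h).Q4, ((dual A ε h).L v).card ≤ 9 := by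
    intro v _
    have := three_union (h := h) hno v v v
    rwa [Finset.union_self, Finset.union_self] at this
  have h3 := Finset.sum_le_card_nsmul _ _ _ h9
  rw [h1] at h3 ⊢
  rw [smul_eq_mul] at h3
  omega

/-- the near maximal case, c > 5/32 -/
theorem near_maximal' (c : ℝ) (hc : 5 / 32 < c) :
    ∃ N : ℕ, ∀ A : Finset (ℝ × ℝ), N ≤ A.card →
      c * ((A.card : ℝ) ^ 2) ≤
        (((A.powersetCard 3).filter
          (fun s : Finset (ℝ × ℝ) => Collinear ℝ (s : Set (ℝ × ℝ)))).card : ℝ) →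
      ∃ B : Finset (ℝ × ℝ), B ⊆ A ∧ B.card = 10 ∧
        ∃ p : MvPolynomial (Fin 2) ℝ, p ≠ 0 ∧ p.totalDegree ≤ 3 ∧
          ∀ x ∈ B, MvPolynomial.eval ![x.1, x.2] p = 0 := by
  obtain ⟨N, hN⟩ := exists_nat_gt (max 10 (440 / (c - 5 / 32)))
  refine ⟨N, fun A hA hT => ?_⟩
  by_contra hno
  have hno : ¬ KOn 10 A := hno
  obtain ⟨ε, h⟩ := exists_eps A
  have hn : (N : ℝ) ≤ A.card := by exact_mod_cast hA
  have hn10 : (10 : ℝ) < A.card := lt_of_lt_of_le (lt_of_le_of_lt (le_max_left _ _) hN) hn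
  have hnc : 440 / (c - 5 / 32) < A.card := lt_of_lt_of_le (lt_of_le_of_lt (le_max_right _ _) hN) hn
  have hA10 : 10 ≤ A.card := by
    have : (10 : ℝ) ≤ A.card := hn10.le
    exact_mod_cast this
  have hT3 : (dual A ε h).T3.card ≤ 5 * (dual A ε h).T2.card + 12 * A.card + 270 := by
    have h1 := (dual A ε h).T3_le (by
      rintro ⟨g, hg⟩
      exact hno (grid_ten hg hA10))
    have h2 := sumQ4_le (h := h) hno
    have hS : (dual A ε h).S.card = A.card := rfl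
    omega
  have hp := (dual A ε h).pairs
  have hS : (dual A ε h).S.card = A.card := rfl
  rw [hS] at hp
  have htr := triples_le (h := h) hno
  have hp' : 2 * ((dual A ε h).T2.card : ℝ) + 6 * ((dual A ε h).T3.card : ℝ) ≤
      (A.card : ℝ) * ((A.card : ℝ) - 1) := by
    have : ((A.card * (A.card - 1) : ℕ) : ℝ) = (A.card : ℝ) * ((A.card : ℝ) - 1) := by
      rw [Nat.cast_mul, Nat.cast_sub (by omega)]
      simp
    rw [← this]
    exact_mod_cast hp
  have hT3' : ((dual A ε h).T3.card : ℝ) ≤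
      5 * ((dual A ε h).T2.card : ℝ) + 12 * (A.card : ℝ) + 270 := by
    exact_mod_cast hT3
  have htr' : (((A.powersetCard 3).filter
      (fun s : Finset (ℝ × ℝ) => Collinear ℝ (s : Set (ℝ × ℝ)))).card : ℝ) ≤
      ((dual A ε h).T3.card : ℝ) + 420 := by
    exact_mod_cast htr
  rw [div_lt_iff₀ (by linarith)] at hnc
  set n : ℝ := (A.card : ℝ) with hndef
  have e1 : 32 * ((dual A ε h).T3.card : ℝ) ≤ 5 * n ^ 2 + 19 * n + 540 := by nlinarith
  have e2 : (c - 5 / 32) * n ^ 2 ≤ 19 / 32 * n + 437 := by nlinarith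
  nlinarith

end MP9b2b
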