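import Pool.Agent.Lib.MP_9b2b7a_co.Rel

set_option autoImplicit false
open scoped Classical

namespace MP9b2b
namespace Fam

variable {ι : Type} (F : Fam ι)

/-- a 3 x 3 grid of lines: rows and columns are concurrent -/
def Grid (g : Fin 3 → Fin 3 → ι) : Prop :=
  (∀ i j i' j', g i j = g i' j' → i = i' ∧ j = j') ∧ (∀ i j, g i j ∈ F.S) ∧
  ∃ row col : Fin 3 → ℝ × ℝ, (∀ i j, F.On (g i j) (row i)) ∧ (∀ i j, F.On (g i j) (col j)) ∧
    ∀ i j, row i ≠ col j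

theorem grid_of (g : Fin 3 → Fin 3 → ι) (row col : Fin 3 → ℝ × ℝ) (hS : ∀ i j, g i j ∈ F.S)
    (hrow : ∀ i j, F.On (g i j) (row i)) (hcol : ∀ i j, F.On (g i j) (col j))
    (hne : ∀ i j, row i ≠ col j) (hr : ∀ i j j', j ≠ j' → g i j ≠ g i j')
    (hc : ∀ i i' j, i ≠ i' → g i j ≠ g i' j) : F.Grid g := by
  refine ⟨?_, hS, row, col, hrow, hcol, hne⟩
  intro i j i' j' h
  by_cases hi : i = i'
  · subst hi
    refine ⟨rfl, ?_⟩
    by_contra hj
    exact hr i j j' hj h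
  · exfalso
    by_cases hj : j = j'
    · subst hj
      exact hc i i' j hi h
    · have h1 : F.On (g i j) (col j') := by rw [h]; exact hcol i' j'
      exact hne i j' (F.eq_of_on (hS i j) (hS i j') (hr i j j' hj) (hrow i j) (hrow i j') h1 (hcol i j'))

theorem cs_ne2 {p : ℝ × ℝ} {a b : ι} (h : F.CS p a b) (h3 : 3 ≤ (F.L p).card) : a ≠ b := by
  rintro rfl
  rcases h with h | ⟨h1, h2⟩
  · exact lt_irrefl _ h.2.2.2.2.1
  · have key : F.L p ⊆ {a} := by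
      intro j hj
      rw [mem_L] at hj
      rw [Finset.mem_singleton]
      exact F.inj _ hj.1 _ h1.1 (le_antisymm (h1.2.2 j hj.1 hj.2) (h2.2.2 j hj.1 hj.2))
    have := Finset.card_le_card key
    rw [Finset.card_singleton] at this
    omega

theorem cs_on1 {p : ℝ × ℝ} {a b : ι} (h : F.CS p a b) : a ∈ F.S ∧ F.On a p := by
  rcases h with h | ⟨h1, h2⟩
  · exact ⟨h.1, h.2.2.1⟩
  · exact ⟨h1.1, h1.2.1⟩

theorem cs_on2 {p : ℝ × ℝ} {a b : ι} (h : F.CS p a b) : b ∈ F.S ∧ F.On b p := by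
  rcases h with h | ⟨h1, h2⟩
  · exact ⟨h.2.1, h.2.2.2.1⟩
  · exact ⟨h2.1, h2.2.1⟩

theorem vert {v u c : ℝ × ℝ} {k k' l3 : ι} (hr : F.RAng v k k') (hu : F.Adj k' v u) (hc : F.Adj k v c)
    (hcu : c.1 < u.1) (hcom : F.Com u c) (hl : F.MaxAt l3 c) :
    F.Adj l3 c u ∧ F.CS u k' l3 ∧ F.CS v k k' := by
  have h4 := F.A4 hr hu hc hcu hcom hl
  obtain ⟨m, hm, hmu, hmc⟩ := hcom
  obtain ⟨h1, h2⟩ := F.tri hr hu hc hm hmu hmc
  have hml : m = l3 := by
    by_contra hne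
    have := F.eq_of_on hm hl.1 hne hmu h4.2.2.1 hmc h4.2.1
    rw [this] at hcu
    exact lt_irrefl _ hcu
  rw [hml] at h1
  exact ⟨h4, h1, Or.inl hr⟩

theorem upper {c : ℝ × ℝ} {l1 l3 : ι} (h : (c, true) ∈ F.PG) (h1 : F.MinAt l1 c) (h3 : F.MaxAt l3 c) :
    ∃ s1 r3 e61, F.Adj l1 s1 c ∧ F.Adj l3 c r3 ∧ F.CS s1 l1 e61 ∧ F.CS r3 e61 l3 := by
  unfold PG at h
  rw [Finset.mem_filter] at h
  obtain ⟨-, ⟨v, k, k'⟩, hGT, hch⟩ := h
  rcases hch with ⟨hc, -⟩ | ⟨-, hr, hlo⟩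
  · exact absurd (show true = false from hc) (by decide)
  · rcases hlo with ⟨-, ha, hb, w, hw, hlt⟩ | ⟨hc, -⟩ | ⟨hc, -⟩
    · have hk : F.MinAt k c := (F.maxAt_my k c).1 hb
      have hkl : k = l1 := F.minAt_unique hk h1
      subst hkl
      have hr' : F.RAng v k k' := (F.rang_my v k k').1 hr
      have ha' : F.Adj k v c := (F.adj_my k v c).1 ha
      have hw' : F.Adj k' v (ty w) := by
        rw [← adj_my, ty_ty]; exact hw
      have hcom : F.Com (ty w) c := by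
        unfold GT at hGT
        rw [Finset.mem_filter] at hGT
        obtain ⟨-, u1, w1, hu1, hw1, hcom⟩ := hGT
        have e1 := F.adj_next_unique hu1 hw'
        have e2 := F.adj_next_unique hw1 ha'
        rw [e1, e2] at hcom
        exact hcom
      obtain ⟨g1, g2, g3⟩ := F.vert hr' hw' ha' hlt hcom h3
      exact ⟨v, ty w, k', ha', g1, g3, g2⟩
    · exact absurd hc (by decide)
    · exact absurd hc (by decide)

theorem lower {c : ℝ × ℝ} {l1 l3 : ι} (h : (c, false) ∈ F.PG) (h1 : F.MinAt l1 c) (h3 : F.MaxAt l3 c) :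
    ∃ s3 r1 e34, F.Adj l3 s3 c ∧ F.Adj l1 c r1 ∧ F.CS s3 e34 l3 ∧ F.CS r1 l1 e34 := by
  unfold PG at h
  rw [Finset.mem_filter] at h
  obtain ⟨-, ⟨v, k, k'⟩, hGT, hch⟩ := h
  rcases hch with ⟨-, hr, hlo⟩ | ⟨hc, -⟩
  · rcases hlo with ⟨-, ha, hb, w, hw, hle⟩ | ⟨hc, -⟩ | ⟨hc, -⟩
    · simp only at hr ha hb hw hle
      have hkl : k' = l3 := F.maxAt_unique hb h3
      subst hkl
      have hcom : F.Com c w := by
        unfold GT at hGT
        rw [Finset.mem_filter] at hGT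
        obtain ⟨-, u1, w1, hu1, hw1, hcom⟩ := hGT
        have e1 := F.adj_next_unique hu1 ha
        have e2 := F.adj_next_unique hw1 hw
        rw [e1, e2] at hcom
        exact hcom
      have hlt : c.1 < w.1 := by
        rcases lt_or_eq_of_le hle with h | h
        · exact h
        · exfalso
          obtain ⟨m, hm, hmc, hmw⟩ := hcom
          have hcw : c = w := F.eq_of_on_fst hmc hmw h
          have hkk : k ≠ k' := by
            rintro rfl
            exact lt_irrefl _ hr.2.2.2.2.1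
          have := F.eq_of_on hr.1 hr.2.1 hkk hr.2.2.1 hr.2.2.2.1 (hcw ▸ hw.2.2.1) ha.2.2.1
          have h2 := ha.2.2.2.2.2.1
          rw [this] at h2
          exact lt_irrefl _ h2
      obtain ⟨g1, g2, g3⟩ := F.my.vert ((F.rang_my v k k').2 hr) ((F.adj_my k v w).2 hw)
        ((F.adj_my k' v c).2 ha) hlt ((F.com_my w c).2 (F.com_symm hcom)) ((F.maxAt_my l1 c).2 h1)
      exact ⟨v, w, k, ha, (F.adj_my _ _ _).1 g1, (F.cs_my _ _ _).1 g3, (F.cs_my _ _ _).1 g2⟩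
    · exact absurd hc (by decide)
    · exact absurd hc (by decide)
  · exact absurd (show false = true from hc) (by decide)

/-- the right faces -/
theorem right_face {c : ℝ × ℝ} {k k' : ι} (h : (c, k, k') ∈ F.GT) :
    ∃ u w m, F.Adj k' c u ∧ F.Adj k c w ∧ F.CS u k' m ∧ F.CS w m k := by
  unfold GT at h
  rw [Finset.mem_filter, mem_RA] at h
  obtain ⟨hr, u, w, hu, hw, m, hm, hmu, hmw⟩ := h
  obtain ⟨h1, h2⟩ := F.tri hr hu hw hm hmu hmw
  exact ⟨u, w, m, hu, hw, h1, h2⟩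

theorem left_face {c : ℝ × ℝ} {k k' : ι} (h : (tx c, k', k) ∈ F.mx.GT) :
    ∃ u w m, F.Adj k u c ∧ F.Adj k' w c ∧ F.CS u m k ∧ F.CS w k' m := by
  obtain ⟨u, w, m, h1, h2, h3, h4⟩ := F.mx.right_face h
  refine ⟨tx u, tx w, m, ?_, ?_, ?_, ?_⟩
  · rw [← adj_mx, tx_tx]; exact h1
  · rw [← adj_mx, tx_tx]; exact h2
  · rw [← cs_mx, tx_tx]; exact h3
  · rw [← cs_mx, tx_tx]; exact h4

theorem three_lines {c : ℝ × ℝ} (hc : (F.L c).card = 3) :
    ∃ l1 l2 l3, F.MinAt l1 c ∧ F.MaxAt l3 c ∧ F.RAng c l1 l2 ∧ F.RAng c l2 l3 := by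
  have hV : F.IsV c := by
    obtain ⟨i, hi, j, hj, hij⟩ := Finset.one_lt_card.1 (by rw [hc]; norm_num : 1 < (F.L c).card)
    rw [mem_L] at hi hj
    exact ⟨i, hi.1, j, hj.1, hij, hi.2, hj.2⟩
  obtain ⟨l1, h1⟩ := F.exists_minAt hV
  obtain ⟨l3, h3⟩ := F.exists_maxAt hV
  have m1 : l1 ∈ F.L c := by rw [mem_L]; exact ⟨h1.1, h1.2.1⟩
  have m3 : l3 ∈ F.L c := by rw [mem_L]; exact ⟨h3.1, h3.2.1⟩
  have h13 : l1 ≠ l3 := by
    rintro rfl
    have : F.L c ⊆ {l1} := by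
      intro j hj
      rw [mem_L] at hj
      rw [Finset.mem_singleton]
      exact F.inj _ hj.1 _ h1.1 (le_antisymm (h3.2.2 j hj.1 hj.2) (h1.2.2 j hj.1 hj.2))
    have := Finset.card_le_card this
    rw [hc, Finset.card_singleton] at this
    omega
  have hcard : (((F.L c).erase l1).erase l3).card = 1 := by
    rw [Finset.card_erase_of_mem (by rw [Finset.mem_erase]; exact ⟨h13.symm, m3⟩),
      Finset.card_erase_of_mem m1, hc]
  obtain ⟨l2, hl2⟩ := Finset.card_eq_one.1 hcard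
  have key : ∀ j, j ∈ F.L c → j = l1 ∨ j = l2 ∨ j = l3 := by
    intro j hj
    by_cases a : j = l1
    · exact Or.inl a
    · by_cases b : j = l3
      · exact Or.inr (Or.inr b)
      · have : j ∈ (((F.L c).erase l1).erase l3) := by
          rw [Finset.mem_erase, Finset.mem_erase]; exact ⟨b, a, hj⟩
        rw [hl2, Finset.mem_singleton] at this
        exact Or.inr (Or.inl this)
  have m2 : l2 ∈ (((F.L c).erase l1).erase l3) := by rw [hl2]; exact Finset.mem_singleton_self _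
  rw [Finset.mem_erase, Finset.mem_erase, mem_L] at m2
  obtain ⟨n3, n1, m2, o2⟩ := m2
  have s12 : F.s l1 < F.s l2 :=
    lt_of_le_of_ne (h1.2.2 l2 m2 o2) (fun h => n1 (F.inj _ h1.1 _ m2 h).symm)
  have s23 : F.s l2 < F.s l3 :=
    lt_of_le_of_ne (h3.2.2 l2 m2 o2) (fun h => n3 (F.inj _ m2 _ h3.1 h))
  refine ⟨l1, l2, l3, h1, h3, ⟨h1.1, m2, h1.2.1, o2, s12, ?_⟩, ⟨m2, h3.1, o2, h3.2.1, s23, ?_⟩⟩
  · rintro j hj hjc ⟨a, b⟩
    rcases key j (by rw [mem_L]; exact ⟨hj, hjc⟩) with rfl | rfl | rfl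
    · exact lt_irrefl _ a
    · exact lt_irrefl _ b
    · linarith
  · rintro j hj hjc ⟨a, b⟩
    rcases key j (by rw [mem_L]; exact ⟨hj, hjc⟩) with rfl | rfl | rfl
    · linarith
    · exact lt_irrefl _ a
    · exact lt_irrefl _ b

/-- a good triple point gives a grid -/
theorem hex {c : ℝ × ℝ} (hc : (F.L c).card = 3)
    (hR : ∀ k k', F.RAng c k k' → (c, k, k') ∈ F.GT)
    (hL : ∀ k k', F.mx.RAng (tx c) k k' → (tx c, k, k') ∈ F.mx.GT)
    (hU : (c, true) ∈ F.PG) (hD : (c, false) ∈ F.PG)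
    (hN : ∀ l p, (F.Adj l c p ∨ F.Adj l p c) → 3 ≤ (F.L p).card) :
    ∃ g : Fin 3 → Fin 3 → ι, F.Grid g := by
  obtain ⟨l1, l2, l3, h1, h3, h12, h23⟩ := F.three_lines hc
  obtain ⟨s1, r3, e61, as1, ar3, cs1, cr3⟩ := F.upper hU h1 h3
  obtain ⟨s3, r1, e34, as3, ar1, cs3, cr1⟩ := F.lower hD h1 h3
  obtain ⟨u, r2, e12, a1, ar2, c1, cr2⟩ := F.right_face (hR l2 l3 h23)
  have e1 := F.adj_next_unique a1 ar3
  subst e1
  obtain ⟨u', w', e23, a2, a3, c2, c3⟩ := F.right_face (hR l1 l2 h12)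
  have e2 := F.adj_next_unique a2 ar2
  have e3 := F.adj_next_unique a3 ar1
  subst e2 e3
  obtain ⟨s2, w'', e45, as2, a5, c4, c5⟩ := F.left_face (hL l3 l2 ((F.rang_mx c l2 l3).2 h23))
  have e4 := F.adj_prev_unique a5 as3
  subst e4
  obtain ⟨u3, w3, e56, a6, a7, c6, c7⟩ := F.left_face (hL l2 l1 ((F.rang_mx c l1 l2).2 h12))
  have e5 := F.adj_prev_unique a6 as1
  have e6 := F.adj_prev_unique a7 as2
  subst e5 e6
  -- names: u = r3, u' = r2, w' = r1, w'' = s3, w3 = s2, u3 = s1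
  have nr3 := hN l3 u (Or.inl a1)
  have nr2 := hN l2 u' (Or.inl ar2)
  have nr1 := hN l1 w' (Or.inl ar1)
  have ns3 := hN l3 w'' (Or.inr as3)
  have ns2 := hN l2 w3 (Or.inr as2)
  have ns1 := hN l1 u3 (Or.inr as1)
  have d_r3 := F.cs_ne cr3 c1 nr3
  have d_r3a := F.cs_ne2 cr3 nr3
  have d_r3b := F.cs_ne2 c1 nr3
  have d_r2 := F.cs_ne cr2 c2 nr2
  have d_r2a := F.cs_ne2 cr2 nr2
  have d_r2b := F.cs_ne2 c2 nr2
  have d_r1 := F.cs_ne c3 cr1 nr1
  have d_r1a := F.cs_ne2 c3 nr1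
  have d_r1b := F.cs_ne2 cr1 nr1
  have d_s3 := F.cs_ne cs3 c5 ns3
  have d_s3a := F.cs_ne2 cs3 ns3
  have d_s3b := F.cs_ne2 c5 ns3
  have d_s2 := F.cs_ne c4 c7 ns2
  have d_s2a := F.cs_ne2 c4 ns2
  have d_s2b := F.cs_ne2 c7 ns2
  have d_s1 := F.cs_ne c6 cs1 ns1
  have d_s1a := F.cs_ne2 c6 ns1
  have d_s1b := F.cs_ne2 cs1 ns1
  have l12 : l1 ≠ l2 := by rintro rfl; exact lt_irrefl _ h12.2.2.2.2.1
  have l23 : l2 ≠ l3 := by rintro rfl; exact lt_irrefl _ h23.2.2.2.2.1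
  -- neighbours on different lines are different
  have key : ∀ (a b : ι) (p q : ℝ × ℝ), a ≠ b → (F.Adj a c p ∨ F.Adj a p c) →
      (F.Adj b c q ∨ F.Adj b q c) → p ≠ q := by
    rintro a b p q hab hp hq rfl
    have hp' : a ∈ F.S ∧ F.On a c ∧ F.On a p ∧ p.1 ≠ c.1 := by
      rcases hp with h | h
      · exact ⟨h.1, h.2.1, h.2.2.1, h.2.2.2.2.2.1.ne'⟩
      · exact ⟨h.1, h.2.2.1, h.2.1, h.2.2.2.2.2.1.ne⟩
    have hq' : b ∈ F.S ∧ F.On b c ∧ F.On b p := by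
      rcases hq with h | h
      · exact ⟨h.1, h.2.1, h.2.2.1⟩
      · exact ⟨h.1, h.2.2.1, h.2.1⟩
    have := F.eq_of_on hp'.1 hq'.1 hab hp'.2.2.1 hq'.2.2 hp'.2.1 hq'.2.1
    exact hp'.2.2.2 (by rw [this])
  have x_r3 := a1.2.2.2.2.2.1
  have x_r2 := ar2.2.2.2.2.2.1
  have x_r1 := ar1.2.2.2.2.2.1
  have x_s3 := as3.2.2.2.2.2.1
  have x_s2 := as2.2.2.2.2.2.1
  have x_s1 := as1.2.2.2.2.2.1
  refine ⟨![![e12, l3, e61], ![e23, e34, l1], ![l2, e45, e56]],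
    F.grid_of _ ![u, w', w3] ![u', w'', u3] ?_ ?_ ?_ ?_ ?_ ?_⟩
  · intro i j
    fin_cases i <;> fin_cases j
    · exact (F.cs_on2 c1).1
    · exact (F.cs_on1 c1).1
    · exact (F.cs_on1 cr3).1
    · exact (F.cs_on1 c3).1
    · exact (F.cs_on2 cr1).1
    · exact (F.cs_on1 cr1).1
    · exact (F.cs_on2 c4).1
    · exact (F.cs_on1 c4).1
    · exact (F.cs_on2 c7).1
  · intro i j
    fin_cases i <;> fin_cases j
    · exact (F.cs_on2 c1).2
    · exact (F.cs_on1 c1).2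
    · exact (F.cs_on1 cr3).2
    · exact (F.cs_on1 c3).2
    · exact (F.cs_on2 cr1).2
    · exact (F.cs_on1 cr1).2
    · exact (F.cs_on2 c4).2
    · exact (F.cs_on1 c4).2
    · exact (F.cs_on2 c7).2
  · intro i j
    fin_cases i <;> fin_cases j
    · exact (F.cs_on1 cr2).2
    · exact (F.cs_on1 c5).2
    · exact (F.cs_on2 cs1).2
    · exact (F.cs_on2 c2).2
    · exact (F.cs_on1 cs3).2
    · exact (F.cs_on1 cs1).2
    · exact (F.cs_on1 c2).2
    · exact (F.cs_on2 c5).2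
    · exact (F.cs_on1 c6).2
  · intro i j
    fin_cases i <;> fin_cases j
    · exact key l3 l2 _ _ l23.symm (Or.inl a1) (Or.inl ar2)
    · intro h; have h' : u = w'' := h; rw [h'] at x_r3; linarith
    · intro h; have h' : u = u3 := h; rw [h'] at x_r3; linarith
    · exact key l1 l2 _ _ l12 (Or.inl ar1) (Or.inl ar2)
    · intro h; have h' : w' = w'' := h; rw [h'] at x_r1; linarith
    · intro h; have h' : w' = u3 := h; rw [h'] at x_r1; linarith
    · intro h; have h' : w3 = u' := h; rw [h'] at x_s2; linarith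
    · exact key l2 l3 _ _ l23 (Or.inr as2) (Or.inr as3)
    · exact key l2 l1 _ _ l12.symm (Or.inr as2) (Or.inr as1)
  · intro i j j' hj
    fin_cases i <;> fin_cases j <;> fin_cases j'
    all_goals first
      | exact absurd rfl hj
      | exact d_r3 | exact d_r3.symm | exact d_r3a | exact d_r3a.symm | exact d_r3b | exact d_r3b.symm
      | exact d_r1 | exact d_r1.symm | exact d_r1a | exact d_r1a.symm | exact d_r1b | exact d_r1b.symm
      | exact d_s2 | exact d_s2.symm | exact d_s2a | exact d_s2a.symm | exact d_s2b | exact d_s2b.symm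
  · intro i i' j hi
    fin_cases i <;> fin_cases i' <;> fin_cases j
    all_goals first
      | exact absurd rfl hi
      | exact d_r2 | exact d_r2.symm | exact d_r2a | exact d_r2a.symm | exact d_r2b | exact d_r2b.symm
      | exact d_s3 | exact d_s3.symm | exact d_s3a | exact d_s3a.symm | exact d_s3b | exact d_s3b.symm
      | exact d_s1 | exact d_s1.symm | exact d_s1a | exact d_s1a.symm | exact d_s1b | exact d_s1b.symm

end Fam
end MP9b2b
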