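import Pool.Agent.Lib.MP_9b2b7a_co.Cyc

set_option autoImplicit false
open scoped Classical

namespace MP9b2b
namespace Fam

variable {ι : Type} (F : Fam ι)

theorem su_ne {p : ℝ × ℝ} (hV : F.IsV p) {d d' : ι × Bool} (h : F.Su p d d') : d.1 ≠ d'.1 := by
  intro he
  rcases h with ⟨-, h⟩ | ⟨-, h1, h2⟩
  · rw [he] at h
    exact lt_irrefl _ h.2.2.2.2.1
  · rw [he] at h1
    exact F.minmax_ne hV h2 h1

theorem card_L_isV {p : ℝ × ℝ} (h : 2 ≤ (F.L p).card) : F.IsV p := by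
  obtain ⟨i, hi, j, hj, hij⟩ := Finset.one_lt_card.1 (by omega : 1 < (F.L p).card)
  rw [mem_L] at hi hj
  exact ⟨i, hi.1, j, hj.1, hij, hi.2, hj.2⟩

/-- the four neighbours of a double point all of whose angles are triangular -/
theorem ring4 {p : ℝ × ℝ} (hp : (F.L p).card = 2) (hpA : F.AG p) {d1 d2 : ι × Bool}
    (hs : F.Su p d1 d2) : ∃ q1 q2 q3 q4 e1 e2 e3 e4,
      F.Nx d1 p q1 ∧ F.Nx d2 p q2 ∧ F.Nx (op d1) p q3 ∧ F.Nx (op d2) p q4 ∧
      (F.Nx e1 q1 q2 ∧ F.Su q1 e1 (op d1) ∧ F.Su q2 (op d2) (op e1)) ∧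
      (F.Nx e2 q2 q3 ∧ F.Su q2 e2 (op d2) ∧ F.Su q3 d1 (op e2)) ∧
      (F.Nx e3 q3 q4 ∧ F.Su q3 e3 d1 ∧ F.Su q4 d2 (op e3)) ∧
      (F.Nx e4 q4 q1 ∧ F.Su q4 e4 d2 ∧ F.Su q1 (op d1) (op e4)) := by
  have hV : F.IsV p := F.card_L_isV (by omega)
  obtain ⟨d3, s23⟩ := F.exists_su hV (F.su_data hs).2
  have e := F.cyc2 hp hs s23
  subst e
  have s34 : F.Su p (op d1) (op d2) := F.su_op.2 hs
  have s41 : F.Su p (op d2) d1 := by
    have := F.su_op.2 s23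
    rwa [op_op] at this
  obtain ⟨-, q1, q2, n1, n2, c12⟩ := hpA d1 d2 hs
  obtain ⟨-, q2', q3, m2, n3, c23⟩ := hpA _ _ s23
  obtain ⟨-, q3', q4, m3, n4, c34⟩ := hpA _ _ s34
  obtain ⟨-, q4', q1', m4, m1, c41⟩ := hpA _ _ s41
  have i2 := F.nx_unique m2 n2
  have i3 := F.nx_unique m3 n3
  have i4 := F.nx_unique m4 n4
  have i1 := F.nx_unique m1 n1
  subst i1 i2 i3 i4
  obtain ⟨e1, f1, g1, k1⟩ := F.triD hs m1 m2 c12
  obtain ⟨e2, f2, g2, k2⟩ := F.triD s23 m2 m3 c23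
  obtain ⟨e3, f3, g3, k3⟩ := F.triD s34 m3 m4 c34
  obtain ⟨e4, f4, g4, k4⟩ := F.triD s41 m4 m1 c41
  rw [op_op] at k2 g3 k3 g4
  exact ⟨q1', q2', q3', q4', e1, e2, e3, e4, m1, m2, m3, m4, ⟨f1, g1, k1⟩, ⟨f2, g2, k2⟩,
    ⟨f3, g3, k3⟩, ⟨f4, g4, k4⟩⟩

theorem need_adj {p : ℝ × ℝ} (hp : (F.L p).card = 2) (hpA : F.AG p)
    (ht : ∀ d q, F.Nx d p q → (F.L q).card ≤ 3) {d1 d2 : ι × Bool} (hs : F.Su p d1 d2)
    {q1 q2 : ℝ × ℝ} (h1 : F.Nx d1 p q1) (h2 : F.Nx d2 p q2) (c1 : (F.L q1).card = 3) (a1 : F.AG q1)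
    (c2 : (F.L q2).card = 3) (a2 : F.AG q2) : False := by
  obtain ⟨q1', q2', q3, q4, e1, e2, e3, e4, m1, m2, m3, m4, ⟨f1, g1, k1⟩, ⟨f2, g2, k2⟩,
    ⟨f3, g3, k3⟩, ⟨f4, g4, k4⟩⟩ := F.ring4 hp hpA hs
  have i1 := F.nx_unique h1 m1
  have i2 := F.nx_unique h2 m2
  subst i1 i2
  have r4 := ht _ _ m4
  have r3 := ht _ _ m3
  have v3 := F.two_le_L (F.nx_data m3).2.2.2.2.1
  have v4 := F.two_le_L (F.nx_data m4).2.2.2.2.1
  -- lines at q1, q2
  have l1 : e1.1 ≠ d1.1 := by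
    have h := F.cs_ne2 (F.su_cs g1) (by omega)
    exact h
  have l2 : d2.1 ≠ e1.1 := by
    have h := F.cs_ne2 (F.su_cs k1) (by omega)
    exact h
  have D1 := F.nx_data h1
  have D2 := F.nx_data h2
  have D3 := F.nx_data m3
  have D4 := F.nx_data m4
  have E1 := F.nx_data f1
  have E3 := F.nx_data f3
  -- outer face at q1 next to q4
  have t1 := F.su3_close c1 g1 k4
  obtain ⟨-, x, z, nx, nz, cz⟩ := a1 _ _ t1
  have ix : x = q4 := F.nx_unique nx (F.nx_op.2 f4)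
  subst ix
  obtain ⟨g, u1, u2, u3⟩ := F.triD t1 nx nz cz
  rw [op_op] at u2
  have nz1 : F.Nx e1 z q1 := by
    have := F.nx_op.2 nz
    rwa [op_op] at this
  have Z := F.nx_data nz1
  have G := F.nx_data u1
  -- outer face at q2 next to q3
  have t2 := F.su_op.1 (F.su3_close c2 g2 k1)
  obtain ⟨-, z', y, nz', ny, cz'⟩ := a2 _ _ t2
  have iy : y = q3 := F.nx_unique ny f2
  subst iy
  obtain ⟨g', u1', u2', u3'⟩ := F.triD t2 nz' ny cz'
  have Z' := F.nx_data nz'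
  have G' := F.nx_data u1'
  have zz' : z ≠ z' := F.chain3 nz1 f1 nz'
  have zq2 : z ≠ q2 := F.chain2 nz1 f1
  have q1z' : q1 ≠ z' := F.chain2 f1 nz'
  have hz : F.On e3.1 z := by
    rcases (by omega : (F.L x).card = 2 ∨ (F.L x).card = 3) with hc | hc
    · exfalso
      have := F.cyc2 hc u2 g4
      have hg : g.1 = d2.1 := by rw [this]; rfl
      have o := G.2.2.1
      rw [hg] at o
      exact l2 (F.line_eq D2.1 E1.1 zq2 o D2.2.2.1 Z.2.1 E1.2.2.1)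
    · have := F.cyc3 hc u2 g4 k3
      have hg : e3.1 = g.1 := by
        have h := congrArg Prod.fst this
        exact h
      rw [hg]
      exact G.2.2.1
  have hz' : F.On e3.1 z' := by
    rcases (by omega : (F.L y).card = 2 ∨ (F.L y).card = 3) with hc | hc
    · exfalso
      have := F.cyc2 hc k2 u3'
      have hg : g'.1 = d1.1 := by
        have h := congrArg Prod.fst this
        exact h
      have o := G'.2.1
      rw [hg] at o
      exact l1 (F.line_eq E1.1 D1.1 q1z' E1.2.1 Z'.2.2.1 D1.2.2.1 o)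
    · have := F.cyc3 hc g3 k2 u3'
      have hg : g'.1 = e3.1 := by
        have h := congrArg Prod.fst this
        exact h
      rw [← hg]
      exact G'.2.1
  have e13 : e1.1 = e3.1 := F.line_eq E1.1 E3.1 zz' Z.2.1 Z'.2.2.1 hz hz'
  have q13 : y ≠ q1 := by
    have := F.nx_op.2 m3
    rw [op_op] at this
    exact F.chain2 this h1
  apply l1
  refine F.line_eq E1.1 D1.1 q13 ?_ E1.2.1 D3.2.2.1 D1.2.2.1
  rw [e13]
  exact E3.2.1

theorem need_opp {p : ℝ × ℝ} (hp : (F.L p).card = 2) (hpA : F.AG p)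
    (ht : ∀ d q, F.Nx d p q → (F.L q).card ≤ 3) {d1 d2 : ι × Bool} (hs : F.Su p d1 d2)
    {q1 q3 : ℝ × ℝ} (h1 : F.Nx d1 p q1) (h3 : F.Nx (op d1) p q3) (c1 : (F.L q1).card = 3) (a1 : F.AG q1)
    (c3 : (F.L q3).card = 3) (a3 : F.AG q3) : False := by
  obtain ⟨q1', q2, q3', q4, e1, e2, e3, e4, m1, m2, m3, m4, ⟨f1, g1, k1⟩, ⟨f2, g2, k2⟩,
    ⟨f3, g3, k3⟩, ⟨f4, g4, k4⟩⟩ := F.ring4 hp hpA hs
  have i1 := F.nx_unique h1 m1
  have i3 := F.nx_unique h3 m3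
  subst i1 i3
  have r4 := ht _ _ m4
  have r2 := ht _ _ m2
  have v2 := F.two_le_L (F.nx_data m2).2.2.2.2.1
  have v4 := F.two_le_L (F.nx_data m4).2.2.2.2.1
  have hV : F.IsV p := F.card_L_isV (by omega)
  have l12 : d1.1 ≠ d2.1 := F.su_ne hV hs
  have D1 := F.nx_data h1
  have D2 := F.nx_data m2
  have D3 := F.nx_data h3
  have D4 := F.nx_data m4
  have E1 := F.nx_data f1
  have E2 := F.nx_data f2
  have E3 := F.nx_data f3
  have E4 := F.nx_data f4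
  -- outer face at q1 over the edge q1 q2
  have t1 := F.su_op.1 (F.su3_close c1 g1 k4)
  obtain ⟨-, z, x, nz, nx, cz⟩ := a1 _ _ t1
  have ix : x = q2 := F.nx_unique nx f1
  subst ix
  obtain ⟨g, u1, u2, u3⟩ := F.triD t1 nz nx cz
  have Z := F.nx_data nz
  have G := F.nx_data u1
  -- outer face at q3 over the edge q3 q4
  have t3 := F.su_op.1 (F.su3_close c3 g3 k2)
  obtain ⟨-, z', y, nz', ny, cz'⟩ := a3 _ _ t3
  have iy : y = q4 := F.nx_unique ny f3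
  subst iy
  obtain ⟨g', u1', u2', u3'⟩ := F.triD t3 nz' ny cz'
  have Z' := F.nx_data nz'
  have G' := F.nx_data u1'
  have zq4 : y ≠ z := F.chain2 f4 nz
  have zq2 : x ≠ z' := F.chain2 f2 nz'
  have hg : g = e2 := by
    rcases (by omega : (F.L x).card = 2 ∨ (F.L x).card = 3) with hc | hc
    · exfalso
      have := F.cyc2 hc k1 u3
      have hg : g.1 = d2.1 := by
        have h := congrArg Prod.fst this
        exact h
      have o := G.2.1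
      rw [hg] at o
      have e42 : e4.1 = d2.1 := F.line_eq E4.1 D2.1 zq4 E4.2.1 Z.2.2.1 D4.2.2.1 o
      apply l12
      refine F.line_eq D1.1 D2.1 D1.2.2.2.2.2 D1.2.1 D1.2.2.1 D2.2.1 ?_
      rw [← e42]; exact E4.2.2.1
    · have := F.cyc3 hc g2 k1 u3
      rw [← op_op g, this, op_op]
  have hg' : g' = e4 := by
    rcases (by omega : (F.L y).card = 2 ∨ (F.L y).card = 3) with hc | hc
    · exfalso
      have := F.cyc2 hc k3 u3'
      have hg : g'.1 = d2.1 := by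
        have h := congrArg Prod.fst this
        exact h
      have o := G'.2.1
      rw [hg] at o
      have e22 : e2.1 = d2.1 := F.line_eq E2.1 D2.1 zq2 E2.2.1 Z'.2.2.1 D2.2.2.1 o
      apply l12
      refine F.line_eq D1.1 D2.1 D3.2.2.2.2.2 D1.2.1 D3.2.2.1 D2.2.1 ?_
      rw [← e22]; exact E2.2.2.1
    · have := F.cyc3 hc g4 k3 u3'
      rw [← op_op g', this, op_op]
  subst hg hg'
  have zz' : z ≠ z' := F.chain3 u1 f2 nz'
  have e24 : g.1 = g'.1 := F.line_eq E2.1 E4.1 zz' G.2.1 Z'.2.2.1 Z.2.2.1 G'.2.1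
  have q13 : q3 ≠ q1 := by
    have := F.nx_op.2 h3
    rw [op_op] at this
    exact F.chain2 this h1
  have e21 : g.1 = d1.1 := by
    refine F.line_eq E2.1 D1.1 q13 E2.2.2.1 ?_ D3.2.2.1 D1.2.2.1
    rw [e24]; exact E4.2.2.1
  apply l12
  refine F.line_eq D1.1 D2.1 D2.2.2.2.2.2 D1.2.1 ?_ D2.2.1 D2.2.2.1
  rw [← e21]; exact E2.2.1

end Fam
end MP9b2b
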