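import Pool.Agent.Lib.MP_9b2b7a_co.Count

set_option autoImplicit false
open scoped Classical

namespace MP9b2b
namespace Fam

variable {ι : Type} (F : Fam ι)

/-- the vertex `p` is a lower side vertex charged to the face `t` -/
def Lo (c : ℝ → ℝ → Prop) (b : Bool) (t : (ℝ × ℝ) × ι × ι) (p : ℝ × ℝ) : Prop :=
  F.RAng t.1 t.2.1 t.2.2 ∧
  ((b = true ∧ F.Adj t.2.2 t.1 p ∧ F.MaxAt t.2.2 p ∧ ∃ w, F.Adj t.2.1 t.1 w ∧ c p.1 w.1) ∨
   (b = false ∧ F.Adj t.2.2 t.1 p ∧ F.MaxAt t.2.2 p ∧ ∃ w, F.Adj t.2.1 t.1 w ∧ ¬ c p.1 w.1) ∨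
   (b = false ∧ ∃ u M, F.Adj M u p ∧ F.MaxAt M p ∧ F.MinAt M u ∧ F.Adj t.2.2 t.1 u ∧ F.MaxAt t.2.2 u))

theorem lo_aux1 {t t' : (ℝ × ℝ) × ι × ι} {p : ℝ × ℝ} (hr : F.RAng t.1 t.2.1 t.2.2)
    (hr' : F.RAng t'.1 t'.2.1 t'.2.2) (h1 : F.Adj t.2.2 t.1 p) (h2 : F.MaxAt t.2.2 p)
    (h1' : F.Adj t'.2.2 t'.1 p) (h2' : F.MaxAt t'.2.2 p) : t = t' := by
  obtain ⟨v, k, k'⟩ := t
  obtain ⟨v1, k1, k1'⟩ := t'
  simp only at hr hr' h1 h2 h1' h2'
  have e1 := F.maxAt_unique h2 h2'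
  subst e1
  have e2 := F.adj_prev_unique h1 h1'
  subst e2
  have e3 := F.rang_pred_unique hr hr'
  subst e3
  rfl

theorem lo_aux2 {t : (ℝ × ℝ) × ι × ι} {p u : ℝ × ℝ} {M : ι} (hr : F.RAng t.1 t.2.1 t.2.2)
    (h1 : F.Adj t.2.2 t.1 p) (h2 : F.MaxAt t.2.2 p)
    (h3 : F.Adj M u p) (h4 : F.MaxAt M p) (h5 : F.MinAt M u) : False := by
  have e1 := F.maxAt_unique h2 h4
  subst e1
  have e2 := F.adj_prev_unique h1 h3
  rw [← e2] at h5
  have := h5.2.2 _ hr.1 hr.2.2.1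
  have := hr.2.2.2.2.1
  linarith

theorem lo_unique {c : ℝ → ℝ → Prop} {b b' : Bool} {t t' : (ℝ × ℝ) × ι × ι} {p : ℝ × ℝ}
    (h : F.Lo c b t p) (h' : F.Lo c b' t' p) : b = b' ∧ t = t' := by
  obtain ⟨hr, h⟩ := h
  obtain ⟨hr', h'⟩ := h'
  rcases h with ⟨hb, h1, h2, w, h3, h4⟩ | ⟨hb, h1, h2, w, h3, h4⟩ | ⟨hb, u, M, h1, h2, h3, h4, h5⟩ <;>
  rcases h' with ⟨hb', h1', h2', w', h3', h4'⟩ | ⟨hb', h1', h2', w', h3', h4'⟩ |
    ⟨hb', u', M', h1', h2', h3', h4', h5'⟩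
  · exact ⟨by rw [hb, hb'], F.lo_aux1 hr hr' h1 h2 h1' h2'⟩
  · exfalso
    have e := F.lo_aux1 hr hr' h1 h2 h1' h2'
    subst e
    have := F.adj_next_unique h3 h3'
    subst this
    exact h4' h4
  · exact (F.lo_aux2 hr h1 h2 h1' h2' h3').elim
  · exfalso
    have e := F.lo_aux1 hr hr' h1 h2 h1' h2'
    subst e
    have := F.adj_next_unique h3 h3'
    subst this
    exact h4 h4'
  · exact ⟨by rw [hb, hb'], F.lo_aux1 hr hr' h1 h2 h1' h2'⟩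
  · exact (F.lo_aux2 hr h1 h2 h1' h2' h3').elim
  · exact (F.lo_aux2 hr' h1' h2' h1 h2 h3).elim
  · exact (F.lo_aux2 hr' h1' h2' h1 h2 h3).elim
  · refine ⟨by rw [hb, hb'], ?_⟩
    have e1 := F.maxAt_unique h2 h2'
    subst e1
    have e2 := F.adj_prev_unique h1 h1'
    subst e2
    exact F.lo_aux1 hr hr' h4 h5 h4' h5'

/-- swapping a right angle by the mirror `my` -/
def tm (t : (ℝ × ℝ) × ι × ι) : (ℝ × ℝ) × ι × ι := (ty t.1, t.2.2, t.2.1)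

theorem tm_inj {t t' : (ℝ × ℝ) × ι × ι} (h : tm t = tm t') : t = t' := by
  obtain ⟨v, k, k'⟩ := t
  obtain ⟨v1, k1, k1'⟩ := t'
  unfold tm at h
  simp only [Prod.mk.injEq] at h
  obtain ⟨h1, h2, h3⟩ := h
  have : v = v1 := by
    rw [← ty_ty v, ← ty_ty v1, h1]
  rw [this, h2, h3]

/-- the charging relation; side `false` = lower, `true` = upper -/
def Ch (b : Bool) (t : (ℝ × ℝ) × ι × ι) (q : (ℝ × ℝ) × Bool) : Prop :=
  (q.2 = false ∧ F.Lo (fun x y => x ≤ y) b t q.1) ∨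
  (q.2 = true ∧ F.my.Lo (fun x y => x < y) b (tm t) (ty q.1))

theorem ch_unique {b b' : Bool} {t t' : (ℝ × ℝ) × ι × ι} {q : (ℝ × ℝ) × Bool}
    (h : F.Ch b t q) (h' : F.Ch b' t' q) : b = b' ∧ t = t' := by
  rcases h with ⟨h0, h⟩ | ⟨h0, h⟩ <;> rcases h' with ⟨h0', h'⟩ | ⟨h0', h'⟩
  · exact F.lo_unique h h'
  · rw [h0] at h0'; exact absurd h0' (by decide)
  · rw [h0] at h0'; exact absurd h0' (by decide)
  · have := F.my.lo_unique h h'
    exact ⟨this.1, tm_inj this.2⟩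

theorem ch_true {v u w : ℝ × ℝ} {k k' : ι} (hr : F.RAng v k k') (hu : F.Adj k' v u) (hw : F.Adj k v w) :
    (u.1 ≤ w.1 ∧ F.Ch true (v, k, k') (u, false)) ∨ (w.1 < u.1 ∧ F.Ch true (v, k, k') (w, true)) := by
  rcases le_or_gt u.1 w.1 with h | h
  · left
    refine ⟨h, Or.inl ⟨rfl, hr, Or.inl ⟨rfl, hu, F.A1 hr hu hw h, w, hw, h⟩⟩⟩
  · right
    have hr' := (F.rang_my v k k').2 hr
    have hu' := (F.adj_my k' v u).2 hu
    have hw' := (F.adj_my k v w).2 hw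
    exact ⟨h, Or.inr ⟨rfl, hr', Or.inl ⟨rfl, hw', F.my.A1 hr' hw' hu' h.le, ty u, hu', h⟩⟩⟩

theorem ch_false_aux {v u w : ℝ × ℝ} {k k' : ι} (h : F.CaseA v k k' u w) (hn : ¬ F.Com u w) :
    (∃ p, F.IsV p ∧ ∃ M, F.Adj M u p ∧ F.MaxAt M p ∧ F.MinAt M u ∧ F.MaxAt k' u) ∨ F.MinAt k w := by
  obtain ⟨M, hM⟩ := F.exists_minAt h.2.1.2.2.2.2.1
  by_cases hex : ∃ u', F.Adj M u u' ∧ u'.1 ≤ w.1
  · left
    obtain ⟨u', hu', hle⟩ := hex
    exact ⟨u', hu'.2.2.2.2.1, M, hu', F.A2 h hM hn hu' hle, hM, F.A1 h.1 h.2.1 h.2.2.1 h.2.2.2⟩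
  · right
    exact F.A3 h hM hn hex

theorem ch_false {v u w : ℝ × ℝ} {k k' : ι} (hr : F.RAng v k k') (hu : F.Adj k' v u) (hw : F.Adj k v w)
    (hn : ¬ F.Com u w) : ∃ q : (ℝ × ℝ) × Bool, F.IsV q.1 ∧ F.Ch false (v, k, k') q := by
  have hr' := (F.rang_my v k k').2 hr
  have hu' := (F.adj_my k' v u).2 hu
  have hw' := (F.adj_my k v w).2 hw
  rcases le_or_gt u.1 w.1 with h | h
  · rcases F.ch_false_aux ⟨hr, hu, hw, h⟩ hn with ⟨p, hp, M, h1, h2, h3, h4⟩ | h1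
    · exact ⟨(p, false), hp, Or.inl ⟨rfl, hr, Or.inr (Or.inr ⟨rfl, u, M, h1, h2, h3, hu, h4⟩)⟩⟩
    · refine ⟨(w, true), hw.2.2.2.2.1, Or.inr ⟨rfl, hr', Or.inr (Or.inl ⟨rfl, hw', ?_, ty u, hu', ?_⟩)⟩⟩
      · exact (F.maxAt_my k w).2 h1
      · exact not_lt.2 h
  · have hn' : ¬ F.my.Com (ty w) (ty u) := by
      rw [com_my]
      exact fun h => hn (F.com_symm h)
    rcases F.my.ch_false_aux ⟨hr', hw', hu', h.le⟩ hn' with ⟨p, hp, M, h1, h2, h3, h4⟩ | h1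
    · refine ⟨(ty p, true), ?_, Or.inr ⟨rfl, hr', Or.inr (Or.inr ⟨rfl, ty w, M, ?_, ?_, h3, hw', h4⟩)⟩⟩
      · rw [← isV_my, ty_ty]; exact hp
      · rw [ty_ty]; exact h1
      · rw [ty_ty]; exact h2
    · refine ⟨(u, false), hu.2.2.2.2.1, Or.inl ⟨rfl, hr, Or.inr (Or.inl ⟨rfl, hu, ?_, w, hw, ?_⟩)⟩⟩
      · exact (F.minAt_my k' u).1 h1
      · exact not_le.2 h

theorem card_NE_add : F.NE.card + (F.NE \ F.GT).card ≤ 2 * F.V.card := by
  have h1 : F.NE.card + (F.NE \ F.GT).card = (F.NE.disjSum (F.NE \ F.GT)).card := by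
    rw [Finset.card_disjSum]
  have h2 : 2 * F.V.card = (F.V ×ˢ (Finset.univ : Finset Bool)).card := by
    rw [Finset.card_product, Finset.card_univ, Fintype.card_bool, mul_comm]
  rw [h1, h2]
  apply Finset.card_le_card_of_forall_subsingleton
    (fun (a : ((ℝ × ℝ) × ι × ι) ⊕ ((ℝ × ℝ) × ι × ι)) q =>
      Sum.elim (fun t => F.Ch true t q) (fun t => F.Ch false t q) a)
  · intro a ha
    rcases a with t | t
    · rw [Finset.inl_mem_disjSum] at ha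
      unfold NE at ha
      rw [Finset.mem_filter, mem_RA] at ha
      obtain ⟨hr, ⟨u, hu⟩, w, hw⟩ := ha
      rcases F.ch_true hr hu hw with ⟨-, h⟩ | ⟨-, h⟩
      · exact ⟨(u, false), by simp [mem_V, hu.2.2.2.2.1], h⟩
      · exact ⟨(w, true), by simp [mem_V, hw.2.2.2.2.1], h⟩
    · rw [Finset.inr_mem_disjSum] at ha
      unfold NE GT at ha
      rw [Finset.mem_sdiff, Finset.mem_filter, Finset.mem_filter, mem_RA] at ha
      obtain ⟨⟨hr, ⟨u, hu⟩, w, hw⟩, hn⟩ := ha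
      have hn' : ¬ F.Com u w := fun h => hn ⟨hr, u, w, hu, hw, h⟩
      obtain ⟨q, hq, h⟩ := F.ch_false hr hu hw hn'
      exact ⟨q, by simp [mem_V, hq], h⟩
  · intro q hq a ha a' ha'
    simp only [Set.mem_ofPred_eq] at ha ha'
    have ha := ha.2
    have ha' := ha'.2
    rcases a with t | t <;> rcases a' with t' | t' <;> simp only [Sum.elim_inl, Sum.elim_inr] at ha ha'
    · rw [(F.ch_unique ha ha').2]
    · exact absurd (F.ch_unique ha ha').1 (by decide)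
    · exact absurd (F.ch_unique ha ha').1 (by decide)
    · rw [(F.ch_unique ha ha').2]

/-- few faces are not triangles -/
theorem card_bad : (F.RA \ F.GT).card ≤ F.T2.card + 4 * F.S.card := by
  have h1 := F.card_RA_sdiff
  have h2 := F.card_NE_add
  have h3 := F.two_V_le
  have h4 : (F.RA \ F.NE).card + F.NE.card = F.RA.card :=
    Finset.card_sdiff_add_card_eq_card F.NE_sub_RA
  have h5 : (F.NE \ F.GT).card + F.GT.card = F.NE.card :=
    Finset.card_sdiff_add_card_eq_card F.GT_sub_NE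
  have h6 : (F.RA \ F.GT).card + F.GT.card = F.RA.card :=
    Finset.card_sdiff_add_card_eq_card (F.GT_sub_NE.trans F.NE_sub_RA)
  omega

/-- side positions charged by triangles -/
noncomputable def PG : Finset ((ℝ × ℝ) × Bool) :=
  (F.V ×ˢ (Finset.univ : Finset Bool)).filter (fun q => ∃ t ∈ F.GT, F.Ch true t q)

theorem GT_le_PG : F.GT.card ≤ F.PG.card := by
  apply Finset.card_le_card_of_forall_subsingleton (fun t q => F.Ch true t q)
  · intro t ht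
    have ht' := ht
    unfold GT at ht
    rw [Finset.mem_filter, mem_RA] at ht
    obtain ⟨hr, u, w, hu, hw, -⟩ := ht
    rcases F.ch_true hr hu hw with ⟨-, h⟩ | ⟨-, h⟩
    · refine ⟨(u, false), ?_, h⟩
      unfold PG
      rw [Finset.mem_filter]
      exact ⟨by simp [mem_V, hu.2.2.2.2.1], t, ht', h⟩
    · refine ⟨(w, true), ?_, h⟩
      unfold PG
      rw [Finset.mem_filter]
      exact ⟨by simp [mem_V, hw.2.2.2.2.1], t, ht', h⟩
  · intro q hq t ht t' ht'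
    simp only [Set.mem_ofPred_eq] at ht ht'
    exact (F.ch_unique ht.2 ht'.2).2

theorem card_notPG : ((F.V ×ˢ (Finset.univ : Finset Bool)) \ F.PG).card ≤
    2 * F.T2.card + 4 * F.S.card := by
  have h1 := F.card_bad
  have h2 := F.GT_le_PG
  have h3 := F.two_V_le
  have h6 : (F.RA \ F.GT).card + F.GT.card = F.RA.card :=
    Finset.card_sdiff_add_card_eq_card (F.GT_sub_NE.trans F.NE_sub_RA)
  have h7 : ((F.V ×ˢ (Finset.univ : Finset Bool)) \ F.PG).card + F.PG.card =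
      (F.V ×ˢ (Finset.univ : Finset Bool)).card :=
    Finset.card_sdiff_add_card_eq_card (Finset.filter_subset _ _)
  have h8 : (F.V ×ˢ (Finset.univ : Finset Bool)).card = 2 * F.V.card := by
    rw [Finset.card_product, Finset.card_univ, Fintype.card_bool, mul_comm]
  omega

end Fam
end MP9b2b
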