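import Pool.Agent.Lib.MP_9b2b7a_co.Face

set_option autoImplicit false
open scoped Classical

namespace MP9b2b
namespace Fam

variable {ι : Type} (F : Fam ι)

/-- `b` follows `a` in the cyclic order (by slope) of the lines through `p` -/
def CS (p : ℝ × ℝ) (a b : ι) : Prop := F.RAng p a b ∨ (F.MaxAt a p ∧ F.MinAt b p)

theorem cs_my (p : ℝ × ℝ) (a b : ι) : F.my.CS (ty p) b a ↔ F.CS p a b := by
  unfold CS
  rw [rang_my, minAt_my, maxAt_my, and_comm (a := F.MinAt b p)]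

theorem rang_mx (v : ℝ × ℝ) (k k' : ι) : F.mx.RAng (tx v) k' k ↔ F.RAng v k k' := by
  unfold RAng
  simp only [on_mx]
  show (k' ∈ F.S ∧ k ∈ F.S ∧ F.On k' v ∧ F.On k v ∧ -F.s k' < -F.s k ∧
    ∀ j ∈ F.S, F.On j v → ¬ (-F.s k' < -F.s j ∧ -F.s j < -F.s k)) ↔ _
  constructor
  · rintro ⟨h1, h2, h3, h4, h5, h6⟩
    exact ⟨h2, h1, h4, h3, by linarith, fun j hj hj' h => h6 j hj hj' ⟨by linarith [h.2], by linarith [h.1]⟩⟩
  · rintro ⟨h1, h2, h3, h4, h5, h6⟩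
    exact ⟨h2, h1, h4, h3, by linarith, fun j hj hj' h => h6 j hj hj' ⟨by linarith [h.2], by linarith [h.1]⟩⟩

theorem minAt_mx (k : ι) (p : ℝ × ℝ) : F.mx.MinAt k (tx p) ↔ F.MaxAt k p := by
  unfold MinAt MaxAt
  simp only [on_mx]
  show (k ∈ F.S ∧ F.On k p ∧ ∀ j ∈ F.S, F.On j p → -F.s k ≤ -F.s j) ↔ _
  simp only [neg_le_neg_iff]

theorem maxAt_mx (k : ι) (p : ℝ × ℝ) : F.mx.MaxAt k (tx p) ↔ F.MinAt k p := by
  unfold MinAt MaxAt
  simp only [on_mx]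
  show (k ∈ F.S ∧ F.On k p ∧ ∀ j ∈ F.S, F.On j p → -F.s j ≤ -F.s k) ↔ _
  simp only [neg_le_neg_iff]

theorem cs_mx (p : ℝ × ℝ) (a b : ι) : F.mx.CS (tx p) b a ↔ F.CS p a b := by
  unfold CS
  rw [rang_mx, minAt_mx, maxAt_mx, and_comm (a := F.MinAt b p)]

theorem com_my (u w : ℝ × ℝ) : F.my.Com (ty u) (ty w) ↔ F.Com u w := by
  unfold Com
  simp only [on_my]
  rfl

theorem com_mx (u w : ℝ × ℝ) : F.mx.Com (tx u) (tx w) ↔ F.Com u w := by
  unfold Com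
  simp only [on_mx]
  rfl

theorem com_symm {u w : ℝ × ℝ} (h : F.Com u w) : F.Com w u := by
  obtain ⟨m, h1, h2, h3⟩ := h
  exact ⟨m, h1, h3, h2⟩

theorem tri_lt {v u w : ℝ × ℝ} {k k' m : ι} (hr : F.RAng v k k') (hu : F.Adj k' v u) (hw : F.Adj k v w)
    (hm : m ∈ F.S) (hmu : F.On m u) (hmw : F.On m w) (hlt : u.1 < w.1) :
    F.MaxAt k' u ∧ F.MinAt m u ∧ F.RAng w m k := by
  have hmax := F.A1 hr hu hw hlt.le
  obtain ⟨hk, hk', hkv, hk'v, hs, hcons⟩ := hr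
  have hvu : v.1 < u.1 := hu.2.2.2.2.2.1
  have hvw : v.1 < w.1 := hw.2.2.2.2.2.1
  have e3 : F.f k u.1 < F.f k' u.1 := F.lt_right hkv hk'v hvu hs
  have emu : F.f m u.1 = F.f k' u.1 := by
    rw [(F.on_iff m u).1 hmu, (F.on_iff k' u).1 hu.2.2.1]
  have emw : F.f m w.1 = F.f k w.1 := by
    rw [(F.on_iff m w).1 hmw, (F.on_iff k w).1 hw.2.2.1]
  have e8 : F.f k v.1 = F.f k' v.1 := by
    rw [(F.on_iff k v).1 hkv, (F.on_iff k' v).1 hk'v]
  refine ⟨hmax, ⟨hm, hmu, fun j hj hju => ?_⟩, hm, hk, hmw, hw.2.2.1, ?_, ?_⟩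
  · by_contra hc
    push Not at hc
    have e1 : F.f j w.1 < F.f m w.1 := F.lt_right hju hmu hlt hc
    have e2 : F.f j u.1 = F.f k' u.1 := by
      rw [(F.on_iff j u).1 hju, (F.on_iff k' u).1 hu.2.2.1]
    have e4 := F.adj_gt hw hj (x1 := u.1) (x2 := w.1) hvu.le hlt (le_refl _) (by rw [e2]; exact e3)
    linarith
  · apply F.s_lt_of_left hmw hw.2.2.1 hlt
    rw [emu]; exact e3
  · rintro j hj hjw ⟨h1, h2⟩
    have g1 : F.f k u.1 < F.f j u.1 := F.lt_left hjw hw.2.2.1 hlt h2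
    have g2 : F.f j u.1 < F.f m u.1 := F.lt_left hmw hjw hlt h1
    have g3 : F.f j v.1 ≤ F.f k' v.1 :=
      F.adj_lt' hu hj (x1 := v.1) (x2 := u.1) (le_refl _) hvu (le_refl _) (by rw [← emu]; exact g2)
    have g4 : F.f k v.1 ≤ F.f j v.1 :=
      F.adj_gt' hw hj (x1 := v.1) (x2 := u.1) (le_refl _) hvu hlt.le g1
    have hjv : F.On j v := by
      rw [F.on_iff, ← (F.on_iff k v).1 hkv]
      linarith
    have hjk : j ≠ k := by
      rintro rfl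
      exact lt_irrefl _ h2
    have := F.eq_of_on hj hk hjk hjv hkv hjw hw.2.2.1
    rw [this] at hvw
    exact lt_irrefl _ hvw

/-- triangular faces -/
theorem tri {v u w : ℝ × ℝ} {k k' m : ι} (hr : F.RAng v k k') (hu : F.Adj k' v u) (hw : F.Adj k v w)
    (hm : m ∈ F.S) (hmu : F.On m u) (hmw : F.On m w) : F.CS u k' m ∧ F.CS w m k := by
  rcases lt_trichotomy u.1 w.1 with h | h | h
  · obtain ⟨h1, h2, h3⟩ := F.tri_lt hr hu hw hm hmu hmw h
    exact ⟨Or.inr ⟨h1, h2⟩, Or.inl h3⟩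
  · exfalso
    have huw : u = w := F.eq_of_on_fst hmu hmw h
    have hkk : k ≠ k' := by
      rintro rfl
      exact lt_irrefl _ hr.2.2.2.2.1
    have := F.eq_of_on hr.1 hr.2.1 hkk hr.2.2.1 hr.2.2.2.1 (huw ▸ hw.2.2.1) hu.2.2.1
    have h2 := hu.2.2.2.2.2.1
    rw [this] at h2
    exact lt_irrefl _ h2
  · have hr' := (F.rang_my v k k').2 hr
    have hu' := (F.adj_my k' v u).2 hu
    have hw' := (F.adj_my k v w).2 hw
    obtain ⟨h1, h2, h3⟩ := F.my.tri_lt hr' hw' hu' hm ((F.on_my m w).2 hmw) ((F.on_my m u).2 hmu) h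
    rw [maxAt_my] at h1
    rw [minAt_my] at h2
    rw [rang_my] at h3
    exact ⟨Or.inl h3, Or.inr ⟨h2, h1⟩⟩

/-- the lines through a point -/
noncomputable def L (p : ℝ × ℝ) : Finset ι := F.S.filter (fun j => F.On j p)

theorem mem_L (p : ℝ × ℝ) (j : ι) : j ∈ F.L p ↔ j ∈ F.S ∧ F.On j p := by simp [L]

theorem cs_ne {p : ℝ × ℝ} {e l e' : ι} (h1 : F.CS p e l) (h2 : F.CS p l e') (h3 : 3 ≤ (F.L p).card) :
    e ≠ e' := by
  rintro rfl
  have key : F.L p ⊆ {e, l} := by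
    intro j hj
    rw [mem_L] at hj
    rw [Finset.mem_insert, Finset.mem_singleton]
    rcases h1 with a | ⟨a, a'⟩ <;> rcases h2 with b | ⟨b, b'⟩
    · exfalso
      have := a.2.2.2.2.1
      have := b.2.2.2.2.1
      linarith
    · have x1 := b.2.2 j hj.1 hj.2
      have x2 := b'.2.2 j hj.1 hj.2
      rcases lt_or_eq_of_le x2 with y | y
      · rcases lt_or_eq_of_le x1 with z | z
        · exact absurd ⟨y, z⟩ (a.2.2.2.2.2 j hj.1 hj.2)
        · exact Or.inr (F.inj _ hj.1 _ b.1 z)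
      · exact Or.inl (F.inj _ hj.1 _ b'.1 y.symm)
    · have x1 := a.2.2 j hj.1 hj.2
      have x2 := a'.2.2 j hj.1 hj.2
      rcases lt_or_eq_of_le x2 with y | y
      · rcases lt_or_eq_of_le x1 with z | z
        · exact absurd ⟨y, z⟩ (b.2.2.2.2.2 j hj.1 hj.2)
        · exact Or.inl (F.inj _ hj.1 _ a.1 z)
      · exact Or.inr (F.inj _ hj.1 _ a'.1 y.symm)
    · have x1 := a.2.2 j hj.1 hj.2
      have x2 := b'.2.2 j hj.1 hj.2
      exact Or.inl (F.inj _ hj.1 _ a.1 (le_antisymm x1 x2))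
  have := Finset.card_le_card key
  have h4 : ({e, l} : Finset ι).card ≤ 2 := Finset.card_le_two
  omega

theorem L_mx (p : ℝ × ℝ) : F.mx.L (tx p) = F.L p := by
  unfold L
  simp only [on_mx]
  rfl

theorem L_my (p : ℝ × ℝ) : F.my.L (ty p) = F.L p := by
  unfold L
  simp only [on_my]
  rfl

end Fam
end MP9b2b
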